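import Mathlib

/-!
Definitions used in the statement on spherical space forms.
-/

open Metric InnerProductGeometry

namespace Pool.Agent.Helper39_SF

/-- Euclidean space of dimension d + 1. -/
abbrev Euc (d : ℕ) : Type := EuclideanSpace ℝ (Fin (d + 1))

/-- The unit sphere of dimension d. -/
abbrev Sph (d : ℕ) : Type := sphere (0 : Euc d) 1

/-- The orthogonal group of Euclidean space of dimension d + 1. -/
abbrev Orth (d : ℕ) : Type := Euc d ≃ₗᵢ[ℝ] Euc d

/-- No element of G other than 1 fixes a point of the unit sphere. -/
def ActsFreely {d : ℕ} (G : Subgroup (Orth d)) : Prop :=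
  ∀ g ∈ G, ∀ x : Euc d, ‖x‖ = 1 → g x = x → g = 1

/-- The map π is onto and its fibres are the orbits of G. -/
def IsOrbitMap {d : ℕ} (G : Subgroup (Orth d)) {M : Type*} (π : Sph d → M) : Prop :=
  Function.Surjective π ∧ ∀ x y : Sph d, π x = π y ↔ ∃ g ∈ G, g (x : Euc d) = y

/-- The distance of two points of M is the least angle between vectors representing them. -/
def IsAngleMetric {d : ℕ} (G : Subgroup (Orth d)) {M : Type*} [MetricSpace M]
    (π : Sph d → M) : Prop :=
  ∀ x y : Sph d, IsLeast {t : ℝ | ∃ g ∈ G, t = angle (x : Euc d) (g y)} (dist (π x) (π y))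

/-- A metric space is a spherical space form of dimension d if it is the quotient of the unit
sphere of Euclidean space of dimension d + 1 by a finite group G of linear isometries acting
freely on the sphere: the fibres of the surjection are the orbits, and the distance of two
points is the least angle between representatives. -/
def IsSphericalSpaceForm (d : ℕ) (M : Type*) [MetricSpace M] : Prop :=
  ∃ (G : Subgroup (Orth d)) (π : Sph d → M),
    Finite G ∧ ActsFreely G ∧ IsOrbitMap G π ∧ IsAngleMetric G π

/-- The cohomogeneity of the metric space M of dimension n is at most k: some orbit of the full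
isometry group has Hausdorff dimension at least n - k. -/
def CohomogeneityLe (n k : ℕ) (M : Type*) [MetricSpace M] : Prop :=
  ∃ p : M, (n : ENNReal) ≤ dimH {q : M | ∃ φ : M ≃ᵢ M, φ p = q} + k

/-- Two points are equivalent if an isometry of M moves one to the other. -/
def orbitSetoid (M : Type*) [MetricSpace M] : Setoid M where
  r x y := ∃ φ : M ≃ᵢ M, φ x = y
  iseqv :=
    { refl := fun _ => ⟨IsometryEquiv.refl M, rfl⟩
      symm := by
        rintro x y ⟨φ, rfl⟩
        exact ⟨φ.symm, φ.symm_apply_apply x⟩
      trans := by
        rintro x y z ⟨φ, rfl⟩ ⟨ψ, rfl⟩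
        exact ⟨φ.trans ψ, rfl⟩ }

/-- The space of orbits of the full isometry group. -/
def OrbitSpace (M : Type*) [MetricSpace M] : Type _ := Quotient (orbitSetoid M)

/-- The distance of two orbits is the infimum of the distances of their points. -/
noncomputable def orbitDist {M : Type*} [MetricSpace M] (a b : OrbitSpace M) : ℝ :=
  sInf {t : ℝ | ∃ x y : M, Quotient.mk (orbitSetoid M) x = a ∧
    Quotient.mk (orbitSetoid M) y = b ∧ t = dist x y}

/-- The orbit spaces of M and M' are isometric. -/
def IsometricOrbitSpaces (M : Type*) [MetricSpace M] (M' : Type*) [MetricSpace M'] : Prop :=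
  ∃ e : OrbitSpace M ≃ OrbitSpace M', ∀ a b, orbitDist (e a) (e b) = orbitDist a b

/-- X, with the maps j, is the union of the chain N 0 → N 1 → ... with the direct limit
topology. -/
structure IsUnion (N : ℕ → Type) [∀ i, TopologicalSpace (N i)] (ι : ∀ i, N i → N (i + 1))
    (X : Type) [TopologicalSpace X] (j : ∀ i, N i → X) : Prop where
  compatible : ∀ i x, j (i + 1) (ι i x) = j i x
  injective : ∀ i, Function.Injective (j i)
  covers : ∀ p : X, ∃ i x, j i x = p
  topology : ∀ U : Set X, IsOpen U ↔ ∀ i, IsOpen (j i ⁻¹' U)

/-- The discrete group G acts on E continuously and freely, and every point has an open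
neighbourhood which is disjoint from its translates, so that E → E/G is a covering map and a
principal G bundle. -/
def IsCoveringAction (G E : Type) [Group G] [TopologicalSpace E] [MulAction G E] : Prop :=
  (∀ g : G, Continuous fun x : E => g • x) ∧
    ∀ x : E, ∃ U : Set E, IsOpen U ∧ x ∈ U ∧ ∀ g : G, g ≠ 1 → ∀ y ∈ U, g • y ∉ U

/-- X is a classifying space of the discrete group G: it is homotopy equivalent to the quotient
of a contractible Hausdorff space E by a free covering action of G. -/
def IsClassifyingSpace (G : Type) [Group G] (X : Type) [TopologicalSpace X] : Prop :=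
  ∃ (E : Type) (_ : TopologicalSpace E) (_ : MulAction G E),
    T2Space E ∧ ContractibleSpace E ∧ IsCoveringAction G E ∧
    Nonempty (ContinuousMap.HomotopyEquiv X (Quotient (MulAction.orbitRel G E)))

/-- The union of the chain N 0 → N 1 → ..., with the direct limit topology, is a classifying
space of a finite group. -/
def UnionIsClassifying (N : ℕ → Type) [∀ i, TopologicalSpace (N i)]
    (ι : ∀ i, N i → N (i + 1)) : Prop :=
  ∃ (X : Type) (_ : TopologicalSpace X) (j : ∀ i, N i → X) (G : Type) (_ : Group G),
    IsUnion N ι X j ∧ Finite G ∧ IsClassifyingSpace G X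

/-- The metric space M is the first space of a chain N 0 → N 1 → ... of spherical space forms
of dimensions n, n + h, n + 2h, ... in which all maps preserve distances, the union is a
classifying space of a finite group, and all N i have the same orbit space as M. -/
def HasChain (n h : ℕ) (M : Type) [MetricSpace M] : Prop :=
  ∃ (N : ℕ → Type) (_ : ∀ i, MetricSpace (N i)) (ι : ∀ i, N i → N (i + 1)),
    Nonempty (N 0 ≃ᵢ M) ∧ (∀ i, IsSphericalSpaceForm (n + i * h) (N i)) ∧
    (∀ i, Isometry (ι i)) ∧ UnionIsClassifying N ι ∧ ∀ i, IsometricOrbitSpaces M (N i)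

end Pool.Agent.Helper39_SF
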