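import Mathlib

/-!
Orthogonal representations of a group on finite dimensional real inner product spaces:
the spaces of equivariant maps and their dimensions.
-/

open Module

namespace Pool.Agent.Helper39_SF

variable {Γ : Type*} [Group Γ]

section Hom

variable {V W X : Type*}
  [NormedAddCommGroup V] [InnerProductSpace ℝ V]
  [NormedAddCommGroup W] [InnerProductSpace ℝ W]
  [NormedAddCommGroup X] [InnerProductSpace ℝ X]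

/-- the space of equivariant linear maps -/
def hom (ρ : Γ →* (V ≃ₗᵢ[ℝ] V)) (σ : Γ →* (W ≃ₗᵢ[ℝ] W)) : Submodule ℝ (V →ₗ[ℝ] W) where
  carrier := {f | ∀ γ v, f (ρ γ v) = σ γ (f v)}
  add_mem' := by
    intro f g hf hg γ v
    simp [hf γ v, hg γ v]
  zero_mem' := by
    intro γ v
    simp
  smul_mem' := by
    intro c f hf γ v
    simp [hf γ v]

theorem mem_hom {ρ : Γ →* (V ≃ₗᵢ[ℝ] V)} {σ : Γ →* (W ≃ₗᵢ[ℝ] W)} {f : V →ₗ[ℝ] W} :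
    f ∈ hom ρ σ ↔ ∀ γ v, f (ρ γ v) = σ γ (f v) := Iff.rfl

/-- the dimension of the space of equivariant linear maps -/
noncomputable def hd (ρ : Γ →* (V ≃ₗᵢ[ℝ] V)) (σ : Γ →* (W ≃ₗᵢ[ℝ] W)) : ℕ :=
  finrank ℝ (hom ρ σ)

theorem id_mem_hom (ρ : Γ →* (V ≃ₗᵢ[ℝ] V)) : LinearMap.id ∈ hom ρ ρ := fun _ _ => rfl

theorem comp_mem_hom {ρ : Γ →* (V ≃ₗᵢ[ℝ] V)} {σ : Γ →* (W ≃ₗᵢ[ℝ] W)} {τ : Γ →* (X ≃ₗᵢ[ℝ] X)}
    {f : V →ₗ[ℝ] W} {g : W →ₗ[ℝ] X} (hg : g ∈ hom σ τ) (hf : f ∈ hom ρ σ) :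
    g ∘ₗ f ∈ hom ρ τ := by
  intro γ v
  simp [hf γ v, hg γ (f v)]

variable [FiniteDimensional ℝ V] [FiniteDimensional ℝ W] [FiniteDimensional ℝ X]

theorem inner_symm_apply (ρ : Γ →* (V ≃ₗᵢ[ℝ] V)) (γ : Γ) (x y : V) :
    inner ℝ (ρ γ x) y = inner ℝ x (ρ γ⁻¹ y) := by
  have h : (ρ γ) (ρ γ⁻¹ y) = y := by
    have : (ρ γ * ρ γ⁻¹) y = y := by
      rw [← map_mul, mul_inv_cancel, map_one]; rfl
    exact this
  conv_lhs => rw [← h]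
  exact (ρ γ).inner_map_map x (ρ γ⁻¹ y)

theorem adjoint_mem_hom {ρ : Γ →* (V ≃ₗᵢ[ℝ] V)} {σ : Γ →* (W ≃ₗᵢ[ℝ] W)} {f : V →ₗ[ℝ] W}
    (hf : f ∈ hom ρ σ) : LinearMap.adjoint f ∈ hom σ ρ := by
  intro γ w
  apply ext_inner_left ℝ
  intro v
  rw [LinearMap.adjoint_inner_right]
  have h1 : inner ℝ v (ρ γ (LinearMap.adjoint f w)) = inner ℝ (ρ γ⁻¹ v) (LinearMap.adjoint f w) := by
    rw [inner_symm_apply ρ γ⁻¹, inv_inv]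
  rw [h1, LinearMap.adjoint_inner_right, hf γ⁻¹ v, inner_symm_apply σ γ⁻¹, inv_inv]

/-- taking adjoints is a linear equivalence -/
noncomputable def adjEquiv (ρ : Γ →* (V ≃ₗᵢ[ℝ] V)) (σ : Γ →* (W ≃ₗᵢ[ℝ] W)) :
    hom ρ σ ≃ₗ[ℝ] hom σ ρ where
  toFun f := ⟨LinearMap.adjoint f.1, adjoint_mem_hom f.2⟩
  invFun f := ⟨LinearMap.adjoint f.1, adjoint_mem_hom f.2⟩
  map_add' f g := by ext1; simp
  map_smul' c f := by ext1; simp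
  left_inv f := by ext1; simp
  right_inv f := by ext1; simp

theorem hd_comm (ρ : Γ →* (V ≃ₗᵢ[ℝ] V)) (σ : Γ →* (W ≃ₗᵢ[ℝ] W)) : hd ρ σ = hd σ ρ :=
  (adjEquiv ρ σ).finrank_eq

theorem hd_le (ρ : Γ →* (V ≃ₗᵢ[ℝ] V)) (σ : Γ →* (W ≃ₗᵢ[ℝ] W)) :
    hd ρ σ ≤ finrank ℝ V * finrank ℝ W := by
  rw [← finrank_linearMap (R := ℝ) (S := ℝ)]
  exact Submodule.finrank_le _

end Hom

end Pool.Agent.Helper39_SF
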