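import Pool.Agent.Helper39_SF.B_Rep

/-!
Maximal equivariant contractions are partial isometries.
-/

open Module

namespace Pool.Agent.Helper39_SF

variable {Γ : Type*} [Group Γ]

section Max

variable {V W : Type*}
  [NormedAddCommGroup V] [InnerProductSpace ℝ V] [FiniteDimensional ℝ V]
  [NormedAddCommGroup W] [InnerProductSpace ℝ W] [FiniteDimensional ℝ W]

theorem exists_max (ρ : Γ →* (V ≃ₗᵢ[ℝ] V)) (σ : Γ →* (W ≃ₗᵢ[ℝ] W)) (x : W) (y : V) :
    ∃ T : V →ₗ[ℝ] W, T ∈ hom ρ σ ∧ (∀ v, ‖T v‖ ≤ ‖v‖) ∧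
      (∀ R ∈ hom ρ σ, (∀ v, ‖T v + R v‖ ≤ ‖v‖) → (∀ v, ‖T v - R v‖ ≤ ‖v‖) → R = 0) ∧
      ∀ f ∈ hom ρ σ, (∀ v, ‖f v‖ ≤ ‖v‖) → inner ℝ x (f y) ≤ inner ℝ x (T y) := by
  classical
  have : ProperSpace (V →L[ℝ] W) := FiniteDimensional.proper ℝ _
  let B : Set (V →L[ℝ] W) := {f | (∀ γ v, f (ρ γ v) = σ γ (f v)) ∧ ‖f‖ ≤ 1}
  have hBc : IsCompact B := by
    have h1 : IsClosed {f : V →L[ℝ] W | ∀ γ v, f (ρ γ v) = σ γ (f v)} := by
      simp only [Set.ofPred_forall]
      refine isClosed_iInter fun γ => isClosed_iInter fun v => ?_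
      refine isClosed_eq ?_ ?_
      · exact (ContinuousLinearMap.apply ℝ W (ρ γ v)).continuous
      · exact (σ γ).continuous.comp (ContinuousLinearMap.apply ℝ W v).continuous
    have h2 : IsCompact (Metric.closedBall (0 : V →L[ℝ] W) 1) := isCompact_closedBall _ _
    have : B = Metric.closedBall (0 : V →L[ℝ] W) 1 ∩
        {f : V →L[ℝ] W | ∀ γ v, f (ρ γ v) = σ γ (f v)} := by
      ext f
      simp only [B, Set.mem_ofPred_eq, Set.mem_inter_iff, mem_closedBall_zero_iff]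
      tauto
    rw [this]
    exact h2.inter_right h1
  have hB0 : B.Nonempty := ⟨0, by intro γ v; simp, by simp⟩
  have hℓ : Continuous fun f : V →L[ℝ] W => inner ℝ x (f y) :=
    continuous_const.inner (ContinuousLinearMap.apply ℝ W y).continuous
  obtain ⟨T1, hT1, hT1max⟩ := hBc.exists_isMaxOn hB0 hℓ.continuousOn
  let B1 : Set (V →L[ℝ] W) := B ∩ {f | inner ℝ x (T1 y) ≤ inner ℝ x (f y)}
  have hB1c : IsCompact B1 := hBc.inter_right (isClosed_le continuous_const hℓ)
  have hB10 : B1.Nonempty := ⟨T1, hT1, by simp⟩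
  let b := stdOrthonormalBasis ℝ V
  have hhs : Continuous fun f : V →L[ℝ] W => ∑ i, ‖f (b i)‖ ^ 2 := by
    refine continuous_finsetSum _ fun i _ => ?_
    exact ((ContinuousLinearMap.apply ℝ W (b i)).continuous.norm).pow 2
  obtain ⟨T, hT, hTmax⟩ := hB1c.exists_isMaxOn hB10 hhs.continuousOn
  have key : ∀ f : V →ₗ[ℝ] W, f ∈ hom ρ σ → (∀ v, ‖f v‖ ≤ ‖v‖) →
      LinearMap.toContinuousLinearMap f ∈ B := by
    intro f hf hn
    refine ⟨fun γ v => hf γ v, ?_⟩
    refine ContinuousLinearMap.opNorm_le_bound _ zero_le_one fun v => ?_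
    simpa using hn v
  have hTn : ∀ v, ‖T v‖ ≤ ‖v‖ := by
    intro v
    have := T.le_of_opNorm_le hT.1.2 v
    simpa using this
  refine ⟨T.toLinearMap, fun γ v => hT.1.1 γ v, hTn, ?_, ?_⟩
  · intro R hR h1 h2
    let R' := LinearMap.toContinuousLinearMap R
    have e1 : T + R' ∈ B := by
      refine ⟨fun γ v => ?_, ?_⟩
      · simp [R', hT.1.1 γ v, hR γ v]
      · refine ContinuousLinearMap.opNorm_le_bound _ zero_le_one fun v => ?_
        simpa [R'] using h1 v
    have e2 : T - R' ∈ B := by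
      refine ⟨fun γ v => ?_, ?_⟩
      · simp [R', hT.1.1 γ v, hR γ v]
      · refine ContinuousLinearMap.opNorm_le_bound _ zero_le_one fun v => ?_
        simpa [R'] using h2 v
    have l1 : inner ℝ x (T y) + inner ℝ x (R y) ≤ inner ℝ x (T1 y) := by
      have := hT1max e1
      simpa [R', inner_add_right] using this
    have l2 : inner ℝ x (T y) - inner ℝ x (R y) ≤ inner ℝ x (T1 y) := by
      have := hT1max e2
      simpa [R', inner_sub_right] using this
    have l3 : inner ℝ x (T1 y) ≤ inner ℝ x (T y) := hT.2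
    have l4 : inner ℝ x (R y) = 0 := by linarith
    have e1' : T + R' ∈ B1 := ⟨e1, by
      change inner ℝ x (T1 y) ≤ inner ℝ x ((T + R') y)
      simp only [R', ContinuousLinearMap.add_apply, LinearMap.coe_toContinuousLinearMap',
        inner_add_right]
      linarith⟩
    have e2' : T - R' ∈ B1 := ⟨e2, by
      change inner ℝ x (T1 y) ≤ inner ℝ x ((T - R') y)
      simp only [R', ContinuousLinearMap.sub_apply, LinearMap.coe_toContinuousLinearMap',
        inner_sub_right]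
      linarith⟩
    have s1 : ∑ i, ‖(T + R') (b i)‖ ^ 2 ≤ ∑ i, ‖T (b i)‖ ^ 2 := hTmax e1'
    have s2 : ∑ i, ‖(T - R') (b i)‖ ^ 2 ≤ ∑ i, ‖T (b i)‖ ^ 2 := hTmax e2'
    have s3 : ∑ i, ‖(T + R') (b i)‖ ^ 2 + ∑ i, ‖(T - R') (b i)‖ ^ 2 =
        2 * ∑ i, ‖T (b i)‖ ^ 2 + 2 * ∑ i, ‖R (b i)‖ ^ 2 := by
      rw [← Finset.sum_add_distrib, Finset.mul_sum, Finset.mul_sum, ← Finset.sum_add_distrib]
      refine Finset.sum_congr rfl fun i _ => ?_
      have := parallelogram_law_with_norm ℝ (T (b i)) (R (b i))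
      simp only [R', ContinuousLinearMap.add_apply, ContinuousLinearMap.sub_apply,
        LinearMap.coe_toContinuousLinearMap']
      nlinarith
    have s4 : ∑ i, ‖R (b i)‖ ^ 2 ≤ 0 := by linarith
    have s5 : ∀ i ∈ Finset.univ, ‖R (b i)‖ ^ 2 = 0 :=
      (Finset.sum_eq_zero_iff_of_nonneg (fun i _ => by positivity)).1
        (le_antisymm s4 (Finset.sum_nonneg fun i _ => by positivity))
    refine b.toBasis.ext fun i => ?_
    have := s5 i (Finset.mem_univ i)
    simpa using this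
  · intro f hf hn
    exact le_trans (hT1max (key f hf hn)) hT.2

end Max

end Pool.Agent.Helper39_SF
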