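import Pool.Agent.Helper39_SF.C_Max

/-!
Consequences of maximality: partial isometries, orthogonality.
-/

open Module

namespace Pool.Agent.Helper39_SF

variable {Γ : Type*} [Group Γ]

section PI

variable {V W : Type*}
  [NormedAddCommGroup V] [InnerProductSpace ℝ V] [FiniteDimensional ℝ V]
  [NormedAddCommGroup W] [InnerProductSpace ℝ W] [FiniteDimensional ℝ W]

/-- the perturbation property of maximal contractions -/
def Rigid (ρ : Γ →* (V ≃ₗᵢ[ℝ] V)) (σ : Γ →* (W ≃ₗᵢ[ℝ] W)) (T : V →ₗ[ℝ] W) : Prop :=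
  T ∈ hom ρ σ ∧ (∀ v, ‖T v‖ ≤ ‖v‖) ∧
    (∀ R ∈ hom ρ σ, (∀ v, ‖T v + R v‖ ≤ ‖v‖) → (∀ v, ‖T v - R v‖ ≤ ‖v‖) → R = 0)

theorem adjoint_le {T : V →ₗ[ℝ] W} (h : ∀ v, ‖T v‖ ≤ ‖v‖) (w : W) :
    ‖LinearMap.adjoint T w‖ ≤ ‖w‖ := by
  have h1 : ‖LinearMap.adjoint T w‖ ^ 2 ≤ ‖w‖ * ‖LinearMap.adjoint T w‖ := by
    rw [← real_inner_self_eq_norm_sq, LinearMap.adjoint_inner_right]
    calc inner ℝ (T (LinearMap.adjoint T w)) w ≤ ‖T (LinearMap.adjoint T w)‖ * ‖w‖ :=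
          real_inner_le_norm _ _
      _ ≤ ‖LinearMap.adjoint T w‖ * ‖w‖ := by gcongr; exact h _
      _ = _ := mul_comm _ _
  by_contra hc
  push Not at hc
  have : 0 < ‖LinearMap.adjoint T w‖ := lt_of_le_of_lt (norm_nonneg _) hc
  nlinarith

theorem rigid_pi {ρ : Γ →* (V ≃ₗᵢ[ℝ] V)} {σ : Γ →* (W ≃ₗᵢ[ℝ] W)} {T : V →ₗ[ℝ] W}
    (hT : Rigid ρ σ T) (v : V) : T (LinearMap.adjoint T (T v)) = T v := by
  obtain ⟨hm, hc, hp⟩ := hT
  let A := LinearMap.adjoint T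
  have hA : A ∈ hom σ ρ := adjoint_mem_hom hm
  let R : V →ₗ[ℝ] W := (1 / 2 : ℝ) • (T - T ∘ₗ A ∘ₗ T)
  have hR : R ∈ hom ρ σ :=
    Submodule.smul_mem _ _ (Submodule.sub_mem _ hm (comp_mem_hom hm (comp_mem_hom hA hm)))
  have hid : ∀ u : V, ∀ w : W, inner ℝ (T u) w = inner ℝ u (A w) := fun u w =>
    (LinearMap.adjoint_inner_right T u w).symm
  have hRv : ∀ v, R v = (1 / 2 : ℝ) • T (v - A (T v)) := by
    intro v
    simp [R, A]
  have base : ∀ v, ‖T v‖ ^ 2 = ‖v‖ ^ 2 - inner ℝ (v - A (T v)) v ∧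
      inner ℝ (T v) (T (v - A (T v))) = inner ℝ (v - A (T v)) v - ‖v - A (T v)‖ ^ 2 ∧
      ‖T (v - A (T v))‖ ^ 2 ≤ ‖v - A (T v)‖ ^ 2 ∧
      ‖v - A (T v)‖ ^ 2 ≤ inner ℝ (v - A (T v)) v := by
    intro v
    have e1 : ‖T v‖ ^ 2 = inner ℝ v (A (T v)) := by
      rw [← hid, real_inner_self_eq_norm_sq]
    have e2 : inner ℝ (T v) (T (v - A (T v))) = inner ℝ (A (T v)) (v - A (T v)) := by
      rw [real_inner_comm, hid, real_inner_comm]
    have e3 : ‖A (T v)‖ ≤ ‖T v‖ := adjoint_le hc _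
    have e4 : ‖A (T v)‖ ^ 2 ≤ ‖T v‖ ^ 2 := by gcongr
    have e5 : ‖v - A (T v)‖ ^ 2 = ‖v‖ ^ 2 - 2 * inner ℝ v (A (T v)) + ‖A (T v)‖ ^ 2 :=
      norm_sub_sq_real _ _
    have e6 : inner ℝ (v - A (T v)) v = ‖v‖ ^ 2 - inner ℝ v (A (T v)) := by
      rw [inner_sub_left, real_inner_self_eq_norm_sq, real_inner_comm]
    have e7 : inner ℝ (A (T v)) (v - A (T v)) = inner ℝ v (A (T v)) - ‖A (T v)‖ ^ 2 := by
      rw [inner_sub_right, real_inner_self_eq_norm_sq, real_inner_comm]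
    refine ⟨by rw [e1, e6]; ring, by rw [e2, e7, e6, e5]; ring, ?_, ?_⟩
    · have := hc (v - A (T v))
      gcongr
    · rw [e5, e6]
      linarith
  have hzero : R = 0 := by
    apply hp R hR
    · intro v
      obtain ⟨b1, b2, b3, b4⟩ := base v
      have : ‖T v + R v‖ ^ 2 ≤ ‖v‖ ^ 2 := by
        have hh : ‖(1 / 2 : ℝ)‖ = 1 / 2 := by norm_num
        rw [norm_add_sq_real, hRv, inner_smul_right, norm_smul, mul_pow, b1, b2, hh]
        nlinarith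
      exact (sq_le_sq₀ (norm_nonneg _) (norm_nonneg _)).1 this
    · intro v
      obtain ⟨b1, b2, b3, b4⟩ := base v
      have : ‖T v - R v‖ ^ 2 ≤ ‖v‖ ^ 2 := by
        have hh : ‖(1 / 2 : ℝ)‖ = 1 / 2 := by norm_num
        rw [norm_sub_sq_real, hRv, inner_smul_right, norm_smul, mul_pow, b1, b2, hh]
        nlinarith
      exact (sq_le_sq₀ (norm_nonneg _) (norm_nonneg _)).1 this
  have := congrArg (fun f : V →ₗ[ℝ] W => f v) hzero
  simp only [hRv, LinearMap.zero_apply] at this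
  rw [smul_eq_zero] at this
  rcases this with h | h
  · norm_num at h
  · rw [map_sub, sub_eq_zero] at h
    exact h.symm

theorem rigid_corner {ρ : Γ →* (V ≃ₗᵢ[ℝ] V)} {σ : Γ →* (W ≃ₗᵢ[ℝ] W)} {T : V →ₗ[ℝ] W}
    (hT : Rigid ρ σ T) {R : V →ₗ[ℝ] W} (hR : R ∈ hom ρ σ)
    (h1 : ∀ v, LinearMap.adjoint T (R v) = 0) (h2 : ∀ w, R (LinearMap.adjoint T w) = 0) :
    R = 0 := by
  have hpi := rigid_pi hT
  obtain ⟨hm, hc, hp⟩ := hT
  let A := LinearMap.adjoint T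
  have hid : ∀ u : V, ∀ w : W, inner ℝ (T u) w = inner ℝ u (A w) := fun u w =>
    (LinearMap.adjoint_inner_right T u w).symm
  -- bound for R
  let R' := LinearMap.toContinuousLinearMap R
  obtain ⟨c, hc0, hcR⟩ : ∃ c : ℝ, 0 < c ∧ ∀ v, ‖c • R v‖ ≤ ‖v‖ := by
    refine ⟨1 / (‖R'‖ + 1), by positivity, fun v => ?_⟩
    have h : ‖R v‖ ≤ ‖R'‖ * ‖v‖ := R'.le_opNorm v
    rw [norm_smul, Real.norm_of_nonneg (by positivity), one_div, inv_mul_le_iff₀ (by positivity)]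
    nlinarith [norm_nonneg v]
  have hcr : c • R ∈ hom ρ σ := Submodule.smul_mem _ _ hR
  have key : ∀ v, ‖T v‖ ^ 2 + ‖c • R v‖ ^ 2 ≤ ‖v‖ ^ 2 := by
    intro v
    have e1 : R v = R (v - A (T v)) := by
      rw [map_sub]
      have := h2 (T v)
      rw [this, sub_zero]
    have e2 : ‖c • R v‖ ≤ ‖v - A (T v)‖ := by
      rw [e1]; exact hcR _
    have e3 : ‖T v‖ ^ 2 = inner ℝ v (A (T v)) := by
      rw [← hid, real_inner_self_eq_norm_sq]
    have e4 : ‖A (T v)‖ ^ 2 = inner ℝ v (A (T v)) := by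
      rw [← real_inner_self_eq_norm_sq]
      have : inner ℝ (A (T v)) (A (T v)) = inner ℝ (T (A (T v))) (T v) := (hid _ _).symm
      rw [this, hpi v, hid]
    have e5 : ‖v - A (T v)‖ ^ 2 = ‖v‖ ^ 2 - 2 * inner ℝ v (A (T v)) + ‖A (T v)‖ ^ 2 :=
      norm_sub_sq_real _ _
    have e6 : ‖c • R v‖ ^ 2 ≤ ‖v - A (T v)‖ ^ 2 := by gcongr
    rw [e3]
    rw [e5, e4] at e6
    linarith
  have orth : ∀ v, inner ℝ (T v) (c • R v) = 0 := by
    intro v
    rw [inner_smul_right, hid]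
    have := h1 v
    change c * inner ℝ v (LinearMap.adjoint T (R v)) = 0
    rw [this, inner_zero_right, mul_zero]
  have h0 : c • R = 0 := by
    apply hp _ hcr
    · intro v
      have : ‖T v + (c • R) v‖ ^ 2 ≤ ‖v‖ ^ 2 := by
        rw [LinearMap.smul_apply, norm_add_sq_real, orth]
        linarith [key v]
      exact (sq_le_sq₀ (norm_nonneg _) (norm_nonneg _)).1 this
    · intro v
      have : ‖T v - (c • R) v‖ ^ 2 ≤ ‖v‖ ^ 2 := by
        rw [LinearMap.smul_apply, norm_sub_sq_real, orth]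
        linarith [key v]
      exact (sq_le_sq₀ (norm_nonneg _) (norm_nonneg _)).1 this
  rcases smul_eq_zero.1 h0 with h | h
  · exact absurd h hc0.ne'
  · exact h

end PI

end Pool.Agent.Helper39_SF
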