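import Pool.Agent.Helper39_SF.D_PI

/-!
Orthogonality of maximal contractions; a criterion for two orthogonal representations
to be isometric.
-/

open Module

namespace Pool.Agent.Helper39_SF

variable {Γ : Type*} [Group Γ]

section Orth

variable {V W X : Type*}
  [NormedAddCommGroup V] [InnerProductSpace ℝ V] [FiniteDimensional ℝ V]
  [NormedAddCommGroup W] [InnerProductSpace ℝ W] [FiniteDimensional ℝ W]
  [NormedAddCommGroup X] [InnerProductSpace ℝ X] [FiniteDimensional ℝ X]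

/-- equivariant maps killed by A on the left -/
def ann (ρ : Γ →* (V ≃ₗᵢ[ℝ] V)) (σ : Γ →* (W ≃ₗᵢ[ℝ] W)) (A : W →ₗ[ℝ] X) :
    Submodule ℝ (V →ₗ[ℝ] W) where
  carrier := {f | f ∈ hom ρ σ ∧ ∀ v, A (f v) = 0}
  add_mem' := by
    intro f g hf hg
    refine ⟨Submodule.add_mem _ hf.1 hg.1, fun v => ?_⟩
    rw [LinearMap.add_apply, map_add, hf.2, hg.2, add_zero]
  zero_mem' := ⟨Submodule.zero_mem _, by simp⟩
  smul_mem' := by
    intro c f hf
    refine ⟨Submodule.smul_mem _ _ hf.1, fun v => ?_⟩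
    rw [LinearMap.smul_apply, map_smul, hf.2, smul_zero]

theorem ann_finrank {ρ : Γ →* (V ≃ₗᵢ[ℝ] V)} {σ : Γ →* (W ≃ₗᵢ[ℝ] W)} (τ : Γ →* (X ≃ₗᵢ[ℝ] X))
    {T : V →ₗ[ℝ] W} {A : W →ₗ[ℝ] V} (hT : T ∈ hom ρ σ) (hA : A ∈ hom σ ρ)
    (h1 : ∀ v, T (A (T v)) = T v) (h2 : ∀ w, A (T (A w)) = A w) :
    hd τ ρ + finrank ℝ (ann τ σ A) = hd τ σ + finrank ℝ (ann τ ρ T) := by
  let e : (hom τ ρ × ann τ σ A) ≃ₗ[ℝ] (hom τ σ × ann τ ρ T) :=
    { toFun := fun p => (⟨T ∘ₗ p.1.1 + p.2.1,
          Submodule.add_mem _ (comp_mem_hom hT p.1.2) p.2.2.1⟩,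
        ⟨p.1.1 - A ∘ₗ T ∘ₗ p.1.1,
          Submodule.sub_mem _ p.1.2 (comp_mem_hom hA (comp_mem_hom hT p.1.2)), by
          intro v
          simp [h1]⟩)
      invFun := fun p => (⟨A ∘ₗ p.1.1 + p.2.1,
          Submodule.add_mem _ (comp_mem_hom hA p.1.2) p.2.2.1⟩,
        ⟨p.1.1 - T ∘ₗ A ∘ₗ p.1.1,
          Submodule.sub_mem _ p.1.2 (comp_mem_hom hT (comp_mem_hom hA p.1.2)), by
          intro v
          simp [h2]⟩)
      map_add' := by
        rintro ⟨f, g⟩ ⟨f', g'⟩
        ext v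
        · simp; abel
        · simp; abel
      map_smul' := by
        rintro c ⟨f, g⟩
        ext v
        · simp
        · simp [smul_sub]
      left_inv := by
        rintro ⟨f, g⟩
        have hg := g.2.2
        ext v
        · simp [hg]
        · simp [h1, hg]
      right_inv := by
        rintro ⟨f, g⟩
        have hg := g.2.2
        ext v
        · simp [hg]
        · simp [h2, hg] }
  have := e.finrank_eq
  rw [finrank_prod, finrank_prod] at this
  exact this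

theorem rigid_orth {ρ : Γ →* (V ≃ₗᵢ[ℝ] V)} {σ : Γ →* (W ≃ₗᵢ[ℝ] W)} {T : V →ₗ[ℝ] W}
    (hT : Rigid ρ σ T) (e1 : hd ρ ρ = hd ρ σ) (e2 : hd σ σ = hd ρ σ) :
    (∀ v, LinearMap.adjoint T (T v) = v) ∧ (∀ w, T (LinearMap.adjoint T w) = w) := by
  have h1 := rigid_pi hT
  have hm := hT.1
  have hcor : ∀ R ∈ hom ρ σ, (∀ v, LinearMap.adjoint T (R v) = 0) →
      (∀ w, R (LinearMap.adjoint T w) = 0) → R = 0 := fun R hR => rigid_corner hT hR
  set A := LinearMap.adjoint T with hAdef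
  have hA : A ∈ hom σ ρ := adjoint_mem_hom hm
  have hadj : LinearMap.adjoint A = T := by rw [hAdef, LinearMap.adjoint_adjoint]
  have h2 : ∀ w, A (T (A w)) = A w := by
    intro w
    apply ext_inner_right ℝ
    intro v
    have : ∀ a : W, ∀ b : V, inner ℝ (A a) b = inner ℝ a (T b) := fun a b => by
      rw [hAdef, LinearMap.adjoint_inner_left]
    have t2 : ∀ a : V, ∀ b : W, inner ℝ (T a) b = inner ℝ a (A b) := fun a b => by
      rw [hAdef, LinearMap.adjoint_inner_right]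
    rw [this, t2, this, h1, this]
  have r1 := ann_finrank ρ hm hA h1 h2
  have r2 := ann_finrank σ hm hA h1 h2
  -- injections
  let i1 : ann ρ σ A →ₗ[ℝ] ann σ σ A :=
    { toFun := fun g => ⟨g.1 ∘ₗ A, comp_mem_hom g.2.1 hA, fun v => g.2.2 _⟩
      map_add' := by intro g g'; ext v; simp
      map_smul' := by intro c g; ext v; simp }
  have hi1 : Function.Injective i1 := by
    rw [← LinearMap.ker_eq_bot, LinearMap.ker_eq_bot']
    intro g hg
    have : ∀ w, g.1 (A w) = 0 := fun w => by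
      have := congrArg (fun f : ann σ σ A => f.1 w) hg
      simpa [i1] using this
    ext1
    exact hcor g.1 g.2.1 g.2.2 this
  let i2 : ann σ ρ T →ₗ[ℝ] ann ρ ρ T :=
    { toFun := fun g => ⟨g.1 ∘ₗ T, comp_mem_hom g.2.1 hm, fun v => g.2.2 _⟩
      map_add' := by intro g g'; ext v; simp
      map_smul' := by intro c g; ext v; simp }
  have hi2 : Function.Injective i2 := by
    rw [← LinearMap.ker_eq_bot, LinearMap.ker_eq_bot']
    intro g hg
    have k1 : ∀ w, g.1 (T w) = 0 := fun w => by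
      have := congrArg (fun f : ann ρ ρ T => f.1 w) hg
      simpa [i2] using this
    have k2 : LinearMap.adjoint g.1 = 0 := by
      apply hcor _ (adjoint_mem_hom g.2.1)
      · intro v
        apply ext_inner_right ℝ
        intro u
        rw [hAdef, LinearMap.adjoint_inner_left, LinearMap.adjoint_inner_left, k1]
        simp
      · intro w
        apply ext_inner_right ℝ
        intro u
        rw [LinearMap.adjoint_inner_left]
        have : inner ℝ (A w) (g.1 u) = inner ℝ w (T (g.1 u)) := by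
          rw [hAdef, LinearMap.adjoint_inner_left]
        rw [this, g.2.2]
        simp
    ext1
    have : g.1 = LinearMap.adjoint (LinearMap.adjoint g.1) := (LinearMap.adjoint_adjoint _).symm
    rw [this, k2]
    simp
  have d1 := LinearMap.finrank_le_finrank_of_injective hi1
  have d2 := LinearMap.finrank_le_finrank_of_injective hi2
  have e3 : hd σ ρ = hd ρ σ := hd_comm _ _
  have q1 : finrank ℝ (ann ρ σ A) = finrank ℝ (ann σ σ A) := by omega
  have q2 : finrank ℝ (ann σ ρ T) = finrank ℝ (ann ρ ρ T) := by omega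
  have s1 : Function.Surjective i1 :=
    (LinearMap.injective_iff_surjective_of_finrank_eq_finrank q1).1 hi1
  have s2 : Function.Surjective i2 :=
    (LinearMap.injective_iff_surjective_of_finrank_eq_finrank q2).1 hi2
  constructor
  · intro v
    obtain ⟨g, hg⟩ := s2 ⟨LinearMap.id - A ∘ₗ T,
      Submodule.sub_mem _ (id_mem_hom ρ) (comp_mem_hom hA hm), by intro v; simp [h1]⟩
    have k : ∀ v, g.1 (T v) = v - A (T v) := fun v => by
      have := congrArg (fun f : ann ρ ρ T => f.1 v) hg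
      simpa [i2] using this
    have k2 := k (A (T v))
    rw [h1, k, sub_self] at k2
    exact (sub_eq_zero.1 k2).symm
  · intro w
    obtain ⟨g, hg⟩ := s1 ⟨LinearMap.id - T ∘ₗ A,
      Submodule.sub_mem _ (id_mem_hom σ) (comp_mem_hom hm hA), by intro v; simp [h2]⟩
    have k : ∀ v, g.1 (A v) = v - T (A v) := fun v => by
      have := congrArg (fun f : ann σ σ A => f.1 v) hg
      simpa [i1] using this
    have k2 := k (T (A w))
    rw [h2, k, sub_self] at k2
    exact (sub_eq_zero.1 k2).symm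

/-- build the isometry equivalence from a linear map with two sided adjoint inverse -/
noncomputable def mkIso (T : V →ₗ[ℝ] W) (h1 : ∀ v, LinearMap.adjoint T (T v) = v)
    (h2 : ∀ w, T (LinearMap.adjoint T w) = w) : V ≃ₗᵢ[ℝ] W where
  toFun := T
  invFun := LinearMap.adjoint T
  map_add' := T.map_add
  map_smul' := T.map_smul
  left_inv := h1
  right_inv := h2
  norm_map' := by
    intro v
    have : ‖T v‖ ^ 2 = ‖v‖ ^ 2 := by
      rw [← real_inner_self_eq_norm_sq, ← LinearMap.adjoint_inner_right, h1,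
        real_inner_self_eq_norm_sq]
    exact (sq_eq_sq₀ (norm_nonneg _) (norm_nonneg _)).1 this

@[simp] theorem mkIso_apply (T : V →ₗ[ℝ] W) (h1 : ∀ v, LinearMap.adjoint T (T v) = v)
    (h2 : ∀ w, T (LinearMap.adjoint T w) = w) (v : V) : mkIso T h1 h2 v = T v := rfl

/-- among equivariant contractions the maximum of a matrix coefficient is attained at an
equivariant orthogonal map -/
theorem orth_max (ρ : Γ →* (V ≃ₗᵢ[ℝ] V)) (x y : V) :
    ∃ U : V ≃ₗᵢ[ℝ] V, (∀ γ v, U (ρ γ v) = ρ γ (U v)) ∧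
      ∀ f ∈ hom ρ ρ, (∀ v, ‖f v‖ ≤ ‖v‖) → inner ℝ x (f y) ≤ inner ℝ x (U y) := by
  obtain ⟨T, hm, hc, hp, hmax⟩ := exists_max ρ ρ x y
  obtain ⟨h1, h2⟩ := rigid_orth (T := T) ⟨hm, hc, hp⟩ rfl rfl
  exact ⟨mkIso T h1 h2, fun γ v => hm γ v, hmax⟩

/-- isometry criterion -/
theorem iso_of_hd (ρ : Γ →* (V ≃ₗᵢ[ℝ] V)) (σ : Γ →* (W ≃ₗᵢ[ℝ] W))
    (e1 : hd ρ ρ = hd ρ σ) (e2 : hd σ σ = hd ρ σ) :
    ∃ U : V ≃ₗᵢ[ℝ] W, ∀ γ v, U (ρ γ v) = σ γ (U v) := by
  obtain ⟨T, hm, hc, hp, -⟩ := exists_max ρ σ (0 : W) (0 : V)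
  obtain ⟨h1, h2⟩ := rigid_orth (T := T) ⟨hm, hc, hp⟩ e1 e2
  exact ⟨mkIso T h1 h2, fun γ v => hm γ v⟩

end Orth

end Pool.Agent.Helper39_SF
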