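import Pool.Agent.Helper39_SF.E_Orth

/-!
Vectors with the same matrix coefficient are moved into one another by the orthogonal
commutant.
-/

open Module

namespace Pool.Agent.Helper39_SF

variable {Γ : Type*} [Group Γ]

section Coef

variable {V : Type*} [NormedAddCommGroup V] [InnerProductSpace ℝ V]

theorem rho_mul (ρ : Γ →* (V ≃ₗᵢ[ℝ] V)) (γ γ' : Γ) (v : V) :
    ρ (γ * γ') v = ρ γ (ρ γ' v) := by
  rw [map_mul]; rfl

theorem rho_one (ρ : Γ →* (V ≃ₗᵢ[ℝ] V)) (v : V) : ρ 1 v = v := by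
  rw [map_one]; rfl

theorem rho_inv_apply (ρ : Γ →* (V ≃ₗᵢ[ℝ] V)) (γ : Γ) (v : V) : ρ γ (ρ γ⁻¹ v) = v := by
  rw [← rho_mul, mul_inv_cancel, rho_one]

theorem rho_inv_apply' (ρ : Γ →* (V ≃ₗᵢ[ℝ] V)) (γ : Γ) (v : V) : ρ γ⁻¹ (ρ γ v) = v := by
  rw [← rho_mul, inv_mul_cancel, rho_one]

variable [FiniteDimensional ℝ V]

theorem proj_comm (ρ : Γ →* (V ≃ₗᵢ[ℝ] V)) (E : Submodule ℝ V)
    (hE : ∀ γ, ∀ e ∈ E, ρ γ e ∈ E) (γ : Γ) (v : V) :
    E.starProjection (ρ γ v) = ρ γ (E.starProjection v) := by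
  apply Submodule.eq_starProjection_of_mem_of_inner_eq_zero
  · exact hE γ _ (Submodule.starProjection_apply_mem _ _)
  · intro w hw
    rw [← map_sub, inner_symm_apply]
    exact Submodule.starProjection_inner_eq_zero _ _ (hE _ _ hw)

/-- matrix coefficient -/
def coef (ρ : Γ →* (V ≃ₗᵢ[ℝ] V)) (v : V) (γ : Γ) : ℝ := inner ℝ v (ρ γ v)

theorem exists_contraction [Fintype Γ] (ρ : Γ →* (V ≃ₗᵢ[ℝ] V)) (z z' : V)
    (h : ∀ γ, coef ρ z γ = coef ρ z' γ) :
    ∃ T ∈ hom ρ ρ, (∀ v, ‖T v‖ ≤ ‖v‖) ∧ T z = z' := by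
  classical
  let a : V → ((Γ → ℝ) →ₗ[ℝ] V) := fun z => ∑ γ, (LinearMap.proj γ).smulRight (ρ γ z)
  have ha : ∀ z f, a z f = ∑ γ, f γ • ρ γ z := by
    intro z f
    simp [a, LinearMap.sum_apply]
  have hn : ∀ f, ‖a z f‖ ^ 2 = ‖a z' f‖ ^ 2 := by
    intro f
    have hg : ∀ z : V, ∀ γ γ' : Γ, inner ℝ (ρ γ z) (ρ γ' z) = coef ρ z (γ⁻¹ * γ') := by
      intro z γ γ'
      rw [coef, rho_mul, inner_symm_apply]
    rw [← real_inner_self_eq_norm_sq, ← real_inner_self_eq_norm_sq, ha, ha]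
    simp only [sum_inner, inner_sum, inner_smul_left, inner_smul_right, hg, h]
  have hn' : ∀ f, ‖a z f‖ = ‖a z' f‖ := fun f =>
    (sq_eq_sq₀ (norm_nonneg _) (norm_nonneg _)).1 (hn f)
  have hshift : ∀ z γ f, ρ γ (a z f) = a z (fun γ' => f (γ⁻¹ * γ')) := by
    intro z γ f
    rw [ha, ha, map_sum]
    rw [← Equiv.sum_comp (Equiv.mulLeft γ) (fun γ' => f (γ⁻¹ * γ') • ρ γ' z)]
    refine Finset.sum_congr rfl fun γ' _ => ?_
    simp [rho_mul]
  let E := LinearMap.range (a z)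
  have hE : ∀ γ, ∀ e ∈ E, ρ γ e ∈ E := by
    rintro γ e ⟨f, rfl⟩
    rw [hshift]
    exact ⟨_, rfl⟩
  obtain ⟨s, hs⟩ := LinearMap.exists_rightInverse_of_surjective (a z).rangeRestrict
    (LinearMap.range_rangeRestrict _)
  have hs' : ∀ e : E, a z (s e) = e := by
    intro e
    have := congrArg (fun g : E →ₗ[ℝ] E => ((g e : E) : V)) hs
    simpa using this
  have hwd : ∀ f g, a z f = a z g → a z' f = a z' g := by
    intro f g hfg
    have : ‖a z' (f - g)‖ = 0 := by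
      rw [← hn', map_sub, hfg, sub_self, norm_zero]
    rw [norm_eq_zero, map_sub, sub_eq_zero] at this
    exact this
  let T : V →ₗ[ℝ] V := a z' ∘ₗ s ∘ₗ (E.orthogonalProjectionOnto).toLinearMap
  have hT : ∀ v, T v = a z' (s (E.orthogonalProjectionOnto v)) := fun v => rfl
  refine ⟨T, ?_, ?_, ?_⟩
  · intro γ v
    rw [hT, hT, hshift]
    apply hwd
    rw [hs', ← hshift, hs']
    exact proj_comm ρ E hE γ v
  · intro v
    rw [hT, ← hn', hs']
    exact Submodule.norm_starProjection_apply_le E v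
  · have h1 : a z (Pi.single 1 1) = z := by
      rw [ha, Finset.sum_eq_single 1]
      · simp [rho_one]
      · intro γ _ hγ
        simp [hγ]
      · simp
    have h2 : a z' (Pi.single 1 1) = z' := by
      rw [ha, Finset.sum_eq_single 1]
      · simp [rho_one]
      · intro γ _ hγ
        simp [hγ]
      · simp
    have hz : z ∈ E := ⟨_, h1⟩
    rw [hT]
    nth_rewrite 2 [← h2]
    apply hwd
    rw [hs', h1]
    exact Submodule.starProjection_eq_self_iff.2 hz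

/-- vectors with the same coefficient are in the same orbit of the orthogonal commutant -/
theorem exists_move [Fintype Γ] (ρ : Γ →* (V ≃ₗᵢ[ℝ] V)) (z z' : V)
    (h : ∀ γ, coef ρ z γ = coef ρ z' γ) :
    ∃ U : V ≃ₗᵢ[ℝ] V, (∀ γ v, U (ρ γ v) = ρ γ (U v)) ∧ U z = z' := by
  obtain ⟨T, hT, hc, hTz⟩ := exists_contraction ρ z z' h
  obtain ⟨U, hU, hmax⟩ := orth_max ρ z' z
  refine ⟨U, hU, ?_⟩
  have h1 := hmax T hT hc
  rw [hTz, real_inner_self_eq_norm_sq] at h1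
  have h2 : ‖z‖ ^ 2 = ‖z'‖ ^ 2 := by
    have := h 1
    simp only [coef, rho_one, real_inner_self_eq_norm_sq] at this
    exact this
  have h3 : ‖U z - z'‖ ^ 2 ≤ 0 := by
    rw [norm_sub_sq_real, U.norm_map, h2, real_inner_comm]
    linarith
  have h4 : ‖U z - z'‖ = 0 := by
    have := le_antisymm h3 (by positivity)
    exact pow_eq_zero_iff (two_ne_zero) |>.1 this
  exact sub_eq_zero.1 (norm_eq_zero.1 h4)

end Coef

end Pool.Agent.Helper39_SF
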