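import Pool.Agent.Helper39_SF.F_Coef

/-!
Irreducible representations; absorbing an irreducible representation which occurs often.
-/

open Module

namespace Pool.Agent.Helper39_SF

variable {Γ : Type*} [Group Γ]

section Irr

variable {S : Type*} [NormedAddCommGroup S] [InnerProductSpace ℝ S] [FiniteDimensional ℝ S]
variable {S' : Type*} [NormedAddCommGroup S'] [InnerProductSpace ℝ S'] [FiniteDimensional ℝ S']
variable {V : Type*} [NormedAddCommGroup V] [InnerProductSpace ℝ V] [FiniteDimensional ℝ V]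

/-- irreducibility -/
def Irr (σ : Γ →* (S ≃ₗᵢ[ℝ] S)) : Prop :=
  Nontrivial S ∧ ∀ E : Submodule ℝ S, (∀ γ, ∀ e ∈ E, σ γ e ∈ E) → E = ⊥ ∨ E = ⊤

theorem ker_inv {ρ : Γ →* (V ≃ₗᵢ[ℝ] V)} {σ : Γ →* (S ≃ₗᵢ[ℝ] S)} {f : V →ₗ[ℝ] S}
    (hf : f ∈ hom ρ σ) (γ : Γ) : ∀ e ∈ LinearMap.ker f, ρ γ e ∈ LinearMap.ker f := by
  intro e he
  rw [LinearMap.mem_ker] at he ⊢
  rw [hf γ e, he, map_zero]

theorem range_inv {ρ : Γ →* (V ≃ₗᵢ[ℝ] V)} {σ : Γ →* (S ≃ₗᵢ[ℝ] S)} {f : V →ₗ[ℝ] S}
    (hf : f ∈ hom ρ σ) (γ : Γ) : ∀ e ∈ LinearMap.range f, σ γ e ∈ LinearMap.range f := by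
  rintro e ⟨x, rfl⟩
  exact ⟨ρ γ x, hf γ x⟩

theorem irr_inj {σ : Γ →* (S ≃ₗᵢ[ℝ] S)} (hσ : Irr σ) {ρ : Γ →* (V ≃ₗᵢ[ℝ] V)}
    {f : S →ₗ[ℝ] V} (hf : f ∈ hom σ ρ) (h0 : f ≠ 0) : Function.Injective f := by
  rcases hσ.2 (LinearMap.ker f) (ker_inv hf) with h | h
  · exact LinearMap.ker_eq_bot.1 h
  · exact absurd (LinearMap.ker_eq_top.1 h) h0

theorem irr_surj {σ : Γ →* (S ≃ₗᵢ[ℝ] S)} (hσ : Irr σ) {ρ : Γ →* (V ≃ₗᵢ[ℝ] V)}
    {f : V →ₗ[ℝ] S} (hf : f ∈ hom ρ σ) (h0 : f ≠ 0) : Function.Surjective f := by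
  rcases hσ.2 (LinearMap.range f) (range_inv hf) with h | h
  · exact absurd (LinearMap.range_eq_bot.1 h) h0
  · exact LinearMap.range_eq_top.1 h

theorem irr_scalar {σ : Γ →* (S ≃ₗᵢ[ℝ] S)} (hσ : Irr σ) {g : S →ₗ[ℝ] S}
    (hg : g ∈ hom σ σ) (hs : g.IsSymmetric) : ∃ c : ℝ, ∀ s, g s = c • s := by
  haveI := hσ.1
  have hev := hs.hasEigenvalue_iSup_of_finiteDimensional
  obtain ⟨c, hc⟩ : ∃ c : ℝ, Module.End.HasEigenvalue g c := ⟨_, hev⟩
  refine ⟨c, ?_⟩
  have hinv : ∀ γ, ∀ e ∈ Module.End.eigenspace g c, σ γ e ∈ Module.End.eigenspace g c := by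
    intro γ e he
    rw [Module.End.mem_eigenspace_iff] at he ⊢
    rw [hg γ e, he, map_smul]
  rcases hσ.2 _ hinv with h | h
  · exact absurd h hc
  · intro s
    have : s ∈ Module.End.eigenspace g c := by rw [h]; trivial
    exact Module.End.mem_eigenspace_iff.1 this

theorem hd_self_pos {σ : Γ →* (S ≃ₗᵢ[ℝ] S)} (hσ : Irr σ) : 1 ≤ hd σ σ := by
  haveI := hσ.1
  have : Nontrivial (hom σ σ) := by
    refine ⟨⟨⟨LinearMap.id, id_mem_hom σ⟩, 0, fun h => ?_⟩⟩
    obtain ⟨s, hs⟩ := exists_ne (0 : S)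
    have := congrArg (fun f : hom σ σ => f.1 s) h
    exact hs (by simpa using this)
  exact Module.finrank_pos

/-- absorption of an irreducible representation -/
theorem absorb {σ : Γ →* (S ≃ₗᵢ[ℝ] S)} (hσ : Irr σ) (ρ : Γ →* (V ≃ₗᵢ[ℝ] V))
    (hd1 : finrank ℝ S ≤ hd σ ρ) (v : V) (w : S) :
    ∃ v' : V, ∀ γ, coef ρ v' γ = coef ρ v γ + coef σ w γ := by
  haveI := hσ.1
  -- kernel element
  let Φ : (hom σ ρ × hom σ σ) →ₗ[ℝ] S :=
    { toFun := fun p => (adjEquiv σ ρ p.1).1 v + (adjEquiv σ σ p.2).1 w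
      map_add' := by
        intro p q
        simp
        abel
      map_smul' := by
        intro c p
        simp }
  have hker : LinearMap.ker Φ ≠ ⊥ := by
    apply LinearMap.ker_ne_bot_of_finrank_lt
    rw [finrank_prod]
    have := hd_self_pos hσ
    have e1 : finrank ℝ (hom σ ρ) = hd σ ρ := rfl
    have e2 : finrank ℝ (hom σ σ) = hd σ σ := rfl
    omega
  obtain ⟨⟨f0, g0⟩, hp, hne⟩ := (Submodule.ne_bot_iff _).1 hker
  obtain ⟨f0, hf0⟩ := f0
  obtain ⟨g0, hg0⟩ := g0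
  have hΦ : LinearMap.adjoint f0 v + LinearMap.adjoint g0 w = 0 := hp
  have hz0 : ∀ s, inner ℝ v (f0 s) + inner ℝ w (g0 s) = 0 := by
    intro s
    rw [← LinearMap.adjoint_inner_left, ← LinearMap.adjoint_inner_left, ← inner_add_left, hΦ,
      inner_zero_left]
  -- F*F is a scalar
  let M : S →ₗ[ℝ] S := LinearMap.adjoint f0 ∘ₗ f0 + LinearMap.adjoint g0 ∘ₗ g0
  have hM : M ∈ hom σ σ := Submodule.add_mem _ (comp_mem_hom (adjoint_mem_hom hf0) hf0)
    (comp_mem_hom (adjoint_mem_hom hg0) hg0)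
  have hMi : ∀ a b, inner ℝ (M a) b = inner ℝ (f0 a) (f0 b) + inner ℝ (g0 a) (g0 b) := by
    intro a b
    simp [M, inner_add_left, LinearMap.adjoint_inner_left]
  have hMs : M.IsSymmetric := by
    intro a b
    rw [hMi, real_inner_comm (M b) a, hMi, real_inner_comm (f0 a) (f0 b),
      real_inner_comm (g0 a) (g0 b)]
  obtain ⟨c, hc⟩ := irr_scalar hσ hM hMs
  have hc0 : ∀ a b, inner ℝ (f0 a) (f0 b) + inner ℝ (g0 a) (g0 b) = c * inner ℝ a b := by
    intro a b
    rw [← hMi, hc, inner_smul_left]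
    simp
  have hcpos : 0 < c := by
    obtain ⟨s, hs⟩ := exists_ne (0 : S)
    have h1 := hc0 s s
    simp only [real_inner_self_eq_norm_sq] at h1
    have hs' : 0 < ‖s‖ ^ 2 := by positivity
    have hcnn : 0 ≤ c := by
      by_contra hneg
      push Not at hneg
      have : c * ‖s‖ ^ 2 < 0 := mul_neg_of_neg_of_pos hneg hs'
      nlinarith [sq_nonneg ‖f0 s‖, sq_nonneg ‖g0 s‖]
    rcases hcnn.lt_or_eq with h | h
    · exact h
    · exfalso
      apply hne
      have hf : f0 = 0 := by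
        ext a
        have h2 := hc0 a a
        rw [← h, zero_mul] at h2
        simp only [real_inner_self_eq_norm_sq] at h2
        have : ‖f0 a‖ ^ 2 = 0 := by nlinarith [sq_nonneg ‖f0 a‖, sq_nonneg ‖g0 a‖]
        simpa using this
      have hg : g0 = 0 := by
        ext a
        have h2 := hc0 a a
        rw [← h, zero_mul] at h2
        simp only [real_inner_self_eq_norm_sq] at h2
        have : ‖g0 a‖ ^ 2 = 0 := by nlinarith [sq_nonneg ‖f0 a‖, sq_nonneg ‖g0 a‖]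
        simpa using this
      subst hf hg
      rfl
  -- normalise
  let t := (Real.sqrt c)⁻¹
  have ht : t * t * c = 1 := by
    have : Real.sqrt c * Real.sqrt c = c := Real.mul_self_sqrt hcpos.le
    have h0 : Real.sqrt c ≠ 0 := (Real.sqrt_pos.2 hcpos).ne'
    simp only [t]
    field_simp
    nlinarith
  let f := t • f0
  let g := t • g0
  have hf : f ∈ hom σ ρ := Submodule.smul_mem _ _ hf0
  have hg : g ∈ hom σ σ := Submodule.smul_mem _ _ hg0
  have hz : ∀ s, inner ℝ v (f s) = - inner ℝ w (g s) := by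
    intro s
    simp only [f, g, LinearMap.smul_apply, inner_smul_right]
    have := hz0 s
    linear_combination t * this
  have hi : ∀ a b, inner ℝ (f a) (f b) = inner ℝ a b - inner ℝ (g a) (g b) := by
    intro a b
    simp only [f, g, LinearMap.smul_apply, inner_smul_right, inner_smul_left,
      RCLike.conj_to_real]
    have := hc0 a b
    linear_combination t * t * this + inner ℝ a b * ht
  -- solve (1 - g) u = w
  have hu : ∃ u, g u = u - w := by
    by_cases h1 : LinearMap.id - g = (0 : S →ₗ[ℝ] S)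
    · have hgid : ∀ s, g s = s := by
        intro s
        have := congrArg (fun k : S →ₗ[ℝ] S => k s) h1
        simp only [LinearMap.sub_apply, LinearMap.id_apply, LinearMap.zero_apply] at this
        exact (sub_eq_zero.1 this).symm
      have hfz : ∀ s, f s = 0 := by
        intro s
        have := hi s s
        rw [hgid, sub_self, real_inner_self_eq_norm_sq] at this
        simpa using this
      have hw : w = 0 := by
        have := hz w
        rw [hfz, hgid, inner_zero_right, real_inner_self_eq_norm_sq] at this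
        have : ‖w‖ ^ 2 = 0 := by linarith
        simpa using this
      exact ⟨0, by simp [hw]⟩
    · have hm : LinearMap.id - g ∈ hom σ σ := Submodule.sub_mem _ (id_mem_hom σ) hg
      obtain ⟨u, hu⟩ := irr_surj hσ hm h1 w
      refine ⟨u, ?_⟩
      rw [← hu]
      simp
  obtain ⟨u, hu⟩ := hu
  refine ⟨v + f u, fun γ => ?_⟩
  have e1 : inner ℝ v (ρ γ (f u)) = - inner ℝ w (σ γ u - σ γ w) := by
    rw [← hf γ u, hz, hg γ u, hu, map_sub]
  have e2 : inner ℝ (f u) (ρ γ v) = - inner ℝ (u - w) (σ γ w) := by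
    have h1 : inner ℝ (f u) (ρ γ v) = inner ℝ v (f (σ γ⁻¹ u)) := by
      rw [real_inner_comm, inner_symm_apply, hf γ⁻¹ u]
    rw [h1, hz, hg γ⁻¹ u, hu, ← inner_symm_apply, real_inner_comm]
  have e3 : inner ℝ (f u) (ρ γ (f u)) =
      inner ℝ u (σ γ u) - inner ℝ (u - w) (σ γ u - σ γ w) := by
    rw [← hf γ u, hi, hg γ u, hu, map_sub]
  simp only [coef]
  rw [map_add, inner_add_left, inner_add_right, inner_add_right, e1, e2, e3]
  simp only [inner_sub_left, inner_sub_right]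
  ring

end Irr

end Pool.Agent.Helper39_SF
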