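import Pool.Agent.Helper39_SF.G_Absorb

/-!
Orthogonal decompositions of representations and the dimension count.
-/

open Module

namespace Pool.Agent.Helper39_SF

variable {Γ : Type*} [Group Γ]

section Dec

variable {S : Type*} [NormedAddCommGroup S] [InnerProductSpace ℝ S] [FiniteDimensional ℝ S]
variable {X' : Type*} [NormedAddCommGroup X'] [InnerProductSpace ℝ X'] [FiniteDimensional ℝ X']
variable {X : Type*} [NormedAddCommGroup X] [InnerProductSpace ℝ X] [FiniteDimensional ℝ X]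
variable {V : Type*} [NormedAddCommGroup V] [InnerProductSpace ℝ V] [FiniteDimensional ℝ V]

/-- an orthogonal decomposition of a representation in two parts -/
structure Dec (τ : Γ →* (X ≃ₗᵢ[ℝ] X)) (σ : Γ →* (S ≃ₗᵢ[ℝ] S)) (τ' : Γ →* (X' ≃ₗᵢ[ℝ] X')) where
  i : S →ₗ[ℝ] X
  i' : X' →ₗ[ℝ] X
  p : X →ₗ[ℝ] S
  p' : X →ₗ[ℝ] X'
  hi : i ∈ hom σ τ
  hi' : i' ∈ hom τ' τ
  hp : p ∈ hom τ σ
  hp' : p' ∈ hom τ τ'
  pi : ∀ s, p (i s) = s
  pi' : ∀ s, p' (i' s) = s
  tot : ∀ x, i (p x) + i' (p' x) = x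
  adj : ∀ s x, inner ℝ (i s) x = inner ℝ s (p x)
  adj' : ∀ s x, inner ℝ (i' s) x = inner ℝ s (p' x)

namespace Dec

variable {τ : Γ →* (X ≃ₗᵢ[ℝ] X)} {σ : Γ →* (S ≃ₗᵢ[ℝ] S)} {τ' : Γ →* (X' ≃ₗᵢ[ℝ] X')}

theorem p_i' (D : Dec τ σ τ') (s : X') : D.p (D.i' s) = 0 := by
  have h := D.tot (D.i' s)
  rw [D.pi', add_eq_right] at h
  rw [← D.pi (D.p (D.i' s)), h, map_zero]

theorem p'_i (D : Dec τ σ τ') (s : S) : D.p' (D.i s) = 0 := by
  have h := D.tot (D.i s)
  rw [D.pi, add_eq_left] at h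
  rw [← D.pi' (D.p' (D.i s)), h, map_zero]

/-- restriction of equivariant maps to the parts -/
def homEquiv (D : Dec τ σ τ') (ρ : Γ →* (V ≃ₗᵢ[ℝ] V)) :
    hom τ ρ ≃ₗ[ℝ] (hom σ ρ × hom τ' ρ) where
  toFun f := (⟨f.1 ∘ₗ D.i, comp_mem_hom f.2 D.hi⟩, ⟨f.1 ∘ₗ D.i', comp_mem_hom f.2 D.hi'⟩)
  invFun g := ⟨g.1.1 ∘ₗ D.p + g.2.1 ∘ₗ D.p',
    Submodule.add_mem _ (comp_mem_hom g.1.2 D.hp) (comp_mem_hom g.2.2 D.hp')⟩
  map_add' f g := by ext <;> simp
  map_smul' c f := by ext <;> simp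
  left_inv f := by
    ext x
    simp only [LinearMap.add_apply, LinearMap.comp_apply, ← map_add, D.tot]
  right_inv g := by
    ext x
    · simp [D.pi, D.p'_i]
    · simp [D.pi', D.p_i']

theorem hd_eq (D : Dec τ σ τ') (ρ : Γ →* (V ≃ₗᵢ[ℝ] V)) : hd τ ρ = hd σ ρ + hd τ' ρ := by
  have := (D.homEquiv ρ).finrank_eq
  rw [finrank_prod] at this
  exact this

theorem hd_eq' (D : Dec τ σ τ') (ρ : Γ →* (V ≃ₗᵢ[ℝ] V)) : hd ρ τ = hd ρ σ + hd ρ τ' := by
  rw [hd_comm ρ τ, hd_comm ρ σ, hd_comm ρ τ', D.hd_eq]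

theorem finrank_eq (D : Dec τ σ τ') : finrank ℝ X = finrank ℝ S + finrank ℝ X' := by
  let e : X ≃ₗ[ℝ] (S × X') :=
    { toFun := fun x => (D.p x, D.p' x)
      invFun := fun y => D.i y.1 + D.i' y.2
      map_add' := by intro x y; simp
      map_smul' := by intro c x; simp
      left_inv := fun x => D.tot x
      right_inv := by
        rintro ⟨s, x⟩
        simp [D.pi, D.pi', D.p_i', D.p'_i] }
  rw [e.finrank_eq, finrank_prod]

end Dec

/-- skew equivariant endomorphisms -/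
def sk (τ : Γ →* (X ≃ₗᵢ[ℝ] X)) : Submodule ℝ (X →ₗ[ℝ] X) where
  carrier := {f | f ∈ hom τ τ ∧ ∀ u v, inner ℝ (f u) v = - inner ℝ u (f v)}
  add_mem' := by
    intro f g hf hg
    refine ⟨Submodule.add_mem _ hf.1 hg.1, fun u v => ?_⟩
    simp only [LinearMap.add_apply, inner_add_left, inner_add_right, hf.2, hg.2]
    ring
  zero_mem' := ⟨Submodule.zero_mem _, by simp⟩
  smul_mem' := by
    intro c f hf
    refine ⟨Submodule.smul_mem _ _ hf.1, fun u v => ?_⟩
    simp only [LinearMap.smul_apply, inner_smul_left, inner_smul_right, hf.2, RCLike.conj_to_real]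
    ring

/-- dimension of the skew commutant -/
noncomputable def sd (τ : Γ →* (X ≃ₗᵢ[ℝ] X)) : ℕ := finrank ℝ (sk τ)

theorem sd_lt {σ : Γ →* (S ≃ₗᵢ[ℝ] S)} (hσ : Irr σ) : sd σ + 1 ≤ hd σ σ := by
  have := hσ.1
  apply Submodule.finrank_lt_finrank_of_lt
  refine lt_of_le_of_ne (fun f hf => hf.1) ?_
  intro h
  have hid : LinearMap.id ∈ sk σ := by rw [h]; exact id_mem_hom σ
  obtain ⟨s, hs⟩ := exists_ne (0 : S)
  have h2 := hid.2 s s
  simp only [LinearMap.id_apply, real_inner_self_eq_norm_sq] at h2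
  have : ‖s‖ ^ 2 = 0 := by linarith
  simp at this
  exact hs this

theorem Dec.sd_le {τ : Γ →* (X ≃ₗᵢ[ℝ] X)} {σ : Γ →* (S ≃ₗᵢ[ℝ] S)}
    {τ' : Γ →* (X' ≃ₗᵢ[ℝ] X')} (D : Dec τ σ τ') : sd τ ≤ sd τ' + hd τ' σ + sd σ := by
  have adjr : ∀ x s, inner ℝ x (D.i s) = inner ℝ (D.p x) s := fun x s => by
    rw [real_inner_comm, D.adj, real_inner_comm]
  have adjr' : ∀ x s, inner ℝ x (D.i' s) = inner ℝ (D.p' x) s := fun x s => by
    rw [real_inner_comm, D.adj', real_inner_comm]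
  let e : sk τ →ₗ[ℝ] (sk τ' × hom τ' σ × sk σ) :=
    { toFun := fun f =>
        (⟨D.p' ∘ₗ f.1 ∘ₗ D.i', comp_mem_hom D.hp' (comp_mem_hom f.2.1 D.hi'), by
            intro u v
            simp only [LinearMap.comp_apply]
            rw [← adjr', f.2.2, D.adj']⟩,
          ⟨D.p ∘ₗ f.1 ∘ₗ D.i', comp_mem_hom D.hp (comp_mem_hom f.2.1 D.hi')⟩,
          ⟨D.p ∘ₗ f.1 ∘ₗ D.i, comp_mem_hom D.hp (comp_mem_hom f.2.1 D.hi), by
            intro u v
            simp only [LinearMap.comp_apply]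
            rw [← adjr, f.2.2, D.adj]⟩)
      map_add' := by
        intro f g
        ext <;> simp
      map_smul' := by
        intro c f
        ext <;> simp }
  have he : Function.Injective e := by
    rw [← LinearMap.ker_eq_bot, LinearMap.ker_eq_bot']
    rintro ⟨f, hf⟩ h0
    have a1 : ∀ u, D.p' (f (D.i' u)) = 0 := fun u => by
      have := congrArg (fun z : sk τ' × hom τ' σ × sk σ => z.1.1 u) h0
      simpa [e] using this
    have a2 : ∀ u, D.p (f (D.i' u)) = 0 := fun u => by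
      have := congrArg (fun z : sk τ' × hom τ' σ × sk σ => z.2.1.1 u) h0
      simpa [e] using this
    have a3 : ∀ u, D.p (f (D.i u)) = 0 := fun u => by
      have := congrArg (fun z : sk τ' × hom τ' σ × sk σ => z.2.2.1 u) h0
      simpa [e] using this
    have a4 : ∀ u, D.p' (f (D.i u)) = 0 := fun u => by
      apply ext_inner_right ℝ
      intro v
      rw [← adjr', hf.2, D.adj, a2]
      simp
    have b1 : ∀ u, f (D.i' u) = 0 := fun u => by
      rw [← D.tot (f (D.i' u)), a1, a2, map_zero, map_zero, add_zero]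
    have b2 : ∀ u, f (D.i u) = 0 := fun u => by
      rw [← D.tot (f (D.i u)), a3, a4, map_zero, map_zero, add_zero]
    ext x
    change f x = 0
    rw [← D.tot x, map_add, b1, b2, add_zero]
  have h1 := LinearMap.finrank_le_finrank_of_injective he
  rw [finrank_prod, finrank_prod] at h1
  have e0 : sd τ = finrank ℝ (sk τ) := rfl
  have e1 : sd τ' = finrank ℝ (sk τ') := rfl
  have e2 : sd σ = finrank ℝ (sk σ) := rfl
  have e3 : hd τ' σ = finrank ℝ (hom τ' σ) := rfl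
  omega

/-- the representation on an invariant subspace -/
def subRep (τ : Γ →* (X ≃ₗᵢ[ℝ] X)) (E : Submodule ℝ X) (hE : ∀ γ, ∀ e ∈ E, τ γ e ∈ E) :
    Γ →* (E ≃ₗᵢ[ℝ] E) where
  toFun γ :=
    { toFun := fun e => ⟨τ γ e, hE γ e e.2⟩
      invFun := fun e => ⟨τ γ⁻¹ e, hE γ⁻¹ e e.2⟩
      map_add' := by intro x y; ext1; simp
      map_smul' := by intro c x; ext1; simp
      left_inv := by intro x; ext1; exact rho_inv_apply' τ γ x
      right_inv := by intro x; ext1; exact rho_inv_apply τ γ x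
      norm_map' := by
        intro x
        exact (τ γ).norm_map x }
  map_one' := by
    ext x
    exact rho_one τ x
  map_mul' a b := by
    ext x
    exact rho_mul τ a b x

theorem subRep_apply (τ : Γ →* (X ≃ₗᵢ[ℝ] X)) (E : Submodule ℝ X)
    (hE : ∀ γ, ∀ e ∈ E, τ γ e ∈ E) (γ : Γ) (e : E) :
    ((subRep τ E hE γ e : E) : X) = τ γ e := rfl

theorem orth_inv (τ : Γ →* (X ≃ₗᵢ[ℝ] X)) (E : Submodule ℝ X)
    (hE : ∀ γ, ∀ e ∈ E, τ γ e ∈ E) : ∀ γ, ∀ e ∈ Eᗮ, τ γ e ∈ Eᗮ := by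
  intro γ e he
  rw [Submodule.mem_orthogonal'] at he ⊢
  intro u hu
  rw [inner_symm_apply]
  exact he _ (hE _ _ hu)

/-- decomposition from an invariant subspace -/
noncomputable def decOf (τ : Γ →* (X ≃ₗᵢ[ℝ] X)) (E : Submodule ℝ X)
    (hE : ∀ γ, ∀ e ∈ E, τ γ e ∈ E) :
    Dec τ (subRep τ E hE) (subRep τ Eᗮ (orth_inv τ E hE)) where
  i := E.subtype
  i' := Eᗮ.subtype
  p := E.orthogonalProjectionOnto.toLinearMap
  p' := Eᗮ.orthogonalProjectionOnto.toLinearMap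
  hi := fun γ v => rfl
  hi' := fun γ v => rfl
  hp := by
    intro γ v
    ext1
    exact proj_comm τ E hE γ v
  hp' := by
    intro γ v
    ext1
    exact proj_comm τ Eᗮ (orth_inv τ E hE) γ v
  pi := by
    intro s
    ext1
    exact Submodule.starProjection_eq_self_iff.2 s.2
  pi' := by
    intro s
    ext1
    exact Submodule.starProjection_eq_self_iff.2 s.2
  tot := by
    intro x
    change E.starProjection x + Eᗮ.starProjection x = x
    rw [Submodule.starProjection_orthogonal_val]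
    abel
  adj := by
    intro s x
    have h := Submodule.starProjection_inner_eq_zero (K := E) x s s.2
    rw [inner_sub_left, sub_eq_zero, real_inner_comm, real_inner_comm (s : X) _] at h
    exact h
  adj' := by
    intro s x
    have h := Submodule.starProjection_inner_eq_zero (K := Eᗮ) x s s.2
    rw [inner_sub_left, sub_eq_zero, real_inner_comm, real_inner_comm (s : X) _] at h
    exact h

theorem exists_irr_sub (τ : Γ →* (X ≃ₗᵢ[ℝ] X)) (hX : Nontrivial X) :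
    ∃ (E : Submodule ℝ X) (hE : ∀ γ, ∀ e ∈ E, τ γ e ∈ E), Irr (subRep τ E hE) := by
  let P : Set (Submodule ℝ X) := {E | E ≠ ⊥ ∧ ∀ γ, ∀ e ∈ E, τ γ e ∈ E}
  have hP : P.Nonempty := ⟨⊤, top_ne_bot, fun _ _ _ => Submodule.mem_top⟩
  have hwf : WellFounded ((· < ·) : Submodule ℝ X → Submodule ℝ X → Prop) := wellFounded_lt
  obtain ⟨E, hE, hmin⟩ := hwf.has_min P hP
  obtain ⟨hE0, hEi⟩ := hE
  refine ⟨E, hEi, ?_, ?_⟩
  · exact (Submodule.nontrivial_iff_ne_bot).2 hE0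
  · intro F hF
    by_cases h0 : F = ⊥
    · exact Or.inl h0
    · right
      have hmem : F.map E.subtype ∈ P := by
        refine ⟨?_, ?_⟩
        · intro h
          apply h0
          apply Submodule.map_injective_of_injective E.injective_subtype
          rw [h, Submodule.map_bot]
        · rintro γ x ⟨y, hy, rfl⟩
          exact ⟨subRep τ E hEi γ y, hF γ y hy, rfl⟩
      have hnl := hmin _ hmem
      have hle : F.map E.subtype ≤ E := Submodule.map_subtype_le E F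
      have heq : F.map E.subtype = E := by
        by_contra hne
        exact hnl (lt_of_le_of_ne hle hne)
      rw [eq_top_iff]
      intro y _
      have : (y : X) ∈ F.map E.subtype := by rw [heq]; exact y.2
      obtain ⟨z, hz, hzy⟩ := this
      have : z = y := Subtype.ext hzy
      rw [← this]
      exact hz

theorem hd_congr {σ : Γ →* (S ≃ₗᵢ[ℝ] S)} {τ : Γ →* (X ≃ₗᵢ[ℝ] X)} (e : S ≃ₗ[ℝ] X)
    (he : ∀ γ s, e (σ γ s) = τ γ (e s)) (ρ : Γ →* (V ≃ₗᵢ[ℝ] V)) : hd σ ρ = hd τ ρ := by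
  have he' : ∀ γ x, e.symm (τ γ x) = σ γ (e.symm x) := by
    intro γ x
    rw [LinearEquiv.symm_apply_eq, he, LinearEquiv.apply_symm_apply]
  let E : hom σ ρ ≃ₗ[ℝ] hom τ ρ :=
    { toFun := fun f => ⟨f.1 ∘ₗ e.symm.toLinearMap, by
        intro γ x
        change f.1 (e.symm (τ γ x)) = ρ γ (f.1 (e.symm x))
        rw [he', f.2 γ]⟩
      invFun := fun f => ⟨f.1 ∘ₗ e.toLinearMap, by
        intro γ x
        change f.1 (e (σ γ x)) = ρ γ (f.1 (e x))
        rw [he, f.2 γ]⟩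
      map_add' := by intro f g; ext; simp
      map_smul' := by intro c f; ext; simp
      left_inv := by intro f; ext; simp
      right_inv := by intro f; ext; simp }
  exact E.finrank_eq

theorem schur {σ : Γ →* (S ≃ₗᵢ[ℝ] S)} {τ : Γ →* (X ≃ₗᵢ[ℝ] X)} (hσ : Irr σ) (hτ : Irr τ) :
    hd σ τ = 0 ∨ ∃ e : S ≃ₗ[ℝ] X, ∀ γ s, e (σ γ s) = τ γ (e s) := by
  by_cases h : ∀ f ∈ hom σ τ, f = 0
  · left
    have : hom σ τ = ⊥ := by
      rw [Submodule.eq_bot_iff]
      exact h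
    rw [hd, this, finrank_bot]
  · right
    push Not at h
    obtain ⟨f, hf, h0⟩ := h
    exact ⟨LinearEquiv.ofBijective f ⟨irr_inj hσ hf h0, irr_surj hτ hf h0⟩, fun γ s => hf γ s⟩

end Dec

end Pool.Agent.Helper39_SF
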