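import Pool.Agent.Helper39_SF.H_Decomp

/-!
Divisibility and the dimension count.
-/

open Module

namespace Pool.Agent.Helper39_SF

variable {Γ : Type*} [Group Γ]

section Div

universe u

variable {S : Type*} [NormedAddCommGroup S] [InnerProductSpace ℝ S] [FiniteDimensional ℝ S]

/-- the number of self maps divides the dimension of stable subspaces -/
theorem dvd_sub {σ : Γ →* (S ≃ₗᵢ[ℝ] S)} (hσ : Irr σ) : ∀ d : ℕ, ∀ T : Submodule ℝ S,
    finrank ℝ T = d → (∀ f ∈ hom σ σ, ∀ t ∈ T, f t ∈ T) → hd σ σ ∣ d := by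
  intro d
  induction d using Nat.strong_induction_on with
  | _ d ih =>
    intro T hT hinv
    by_cases h0 : T = ⊥
    · subst h0
      rw [finrank_bot] at hT
      subst hT
      exact dvd_zero _
    · obtain ⟨y, hy, hy0⟩ := (Submodule.ne_bot_iff _).1 h0
      let ev : hom σ σ →ₗ[ℝ] S :=
        { toFun := fun f => f.1 y
          map_add' := by intro f g; simp
          map_smul' := by intro c f; simp }
      have hev : Function.Injective ev := by
        rw [← LinearMap.ker_eq_bot, LinearMap.ker_eq_bot']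
        rintro ⟨f, hf⟩ h
        by_contra hne
        have hf0 : f ≠ 0 := fun h => hne (by subst h; rfl)
        apply hy0
        apply irr_inj hσ hf hf0
        rw [map_zero]
        exact h
      let D := LinearMap.range ev
      have hD : finrank ℝ D = hd σ σ := LinearMap.finrank_range_of_inj hev
      have hDT : D ≤ T := by
        rintro x ⟨f, rfl⟩
        exact hinv f.1 f.2 y hy
      have hsum := Submodule.finrank_add_inf_finrank_orthogonal hDT
      have hpos := hd_self_pos hσ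
      have hlt : finrank ℝ (Dᗮ ⊓ T : Submodule ℝ S) < d := by omega
      have := ih _ hlt (Dᗮ ⊓ T) rfl (by
        intro f hf t ht
        refine ⟨?_, hinv f hf t ht.2⟩
        rw [SetLike.mem_coe, Submodule.mem_orthogonal]
        rintro x ⟨g, rfl⟩
        change inner ℝ (g.1 y) (f t) = 0
        rw [← LinearMap.adjoint_inner_left]
        exact (Submodule.mem_orthogonal _ _).1 ht.1 _
          ⟨⟨LinearMap.adjoint f ∘ₗ g.1, comp_mem_hom (adjoint_mem_hom hf) g.2⟩, rfl⟩)
      have e : d = hd σ σ + finrank ℝ (Dᗮ ⊓ T : Submodule ℝ S) := by omega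
      rw [e]
      exact dvd_add dvd_rfl this

theorem dvd_finrank {σ : Γ →* (S ≃ₗᵢ[ℝ] S)} (hσ : Irr σ) : hd σ σ ∣ finrank ℝ S := by
  have := dvd_sub hσ (finrank ℝ S) ⊤ (finrank_top ℝ S) (fun _ _ _ _ => Submodule.mem_top)
  exact this

theorem dvd_hd {σ : Γ →* (S ≃ₗᵢ[ℝ] S)} (hσ : Irr σ) : ∀ d : ℕ, ∀ (X : Type u)
    [NormedAddCommGroup X] [InnerProductSpace ℝ X] [FiniteDimensional ℝ X]
    (τ : Γ →* (X ≃ₗᵢ[ℝ] X)), finrank ℝ X = d → hd σ σ ∣ hd σ τ := by
  intro d
  induction d using Nat.strong_induction_on with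
  | _ d ih =>
    intro X _ _ _ τ hX
    by_cases h0 : d = 0
    · subst h0
      have : hd σ τ = 0 := by
        have := hd_le σ τ
        rw [hX, mul_zero] at this
        omega
      rw [this]
      exact dvd_zero _
    · have hnt : Nontrivial X := (Module.finrank_pos_iff (R := ℝ)).1 (by omega)
      obtain ⟨E, hE, hirr⟩ := exists_irr_sub τ hnt
      have D := decOf τ E hE
      have e1 := D.hd_eq' σ
      have e2 := D.finrank_eq
      have := hirr.1
      have hpos : 0 < finrank ℝ E := Module.finrank_pos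
      have h1 := ih _ (by omega) _ (subRep τ Eᗮ (orth_inv τ E hE)) rfl
      rw [e1]
      refine dvd_add ?_ h1
      rcases schur hσ hirr with h | ⟨e, he⟩
      · rw [h]; exact dvd_zero _
      · rw [hd_comm σ (subRep τ E hE), ← hd_congr e he σ]

theorem gap {σ : Γ →* (S ≃ₗᵢ[ℝ] S)} (hσ : Irr σ) {X : Type u}
    [NormedAddCommGroup X] [InnerProductSpace ℝ X] [FiniteDimensional ℝ X]
    (τ : Γ →* (X ≃ₗᵢ[ℝ] X)) (h : hd σ τ < finrank ℝ S) :
    hd σ τ + hd σ σ ≤ finrank ℝ S := by
  obtain ⟨a, ha⟩ := dvd_finrank hσ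
  obtain ⟨b, hb⟩ := dvd_hd hσ _ X τ rfl
  rw [ha, hb] at h ⊢
  have : b < a := lt_of_mul_lt_mul_left h (Nat.zero_le _)
  nlinarith

/-- the dimension count -/
theorem count {V : Type u} [NormedAddCommGroup V] [InnerProductSpace ℝ V]
    [FiniteDimensional ℝ V] (ρ : Γ →* (V ≃ₗᵢ[ℝ] V)) : ∀ d : ℕ, ∀ (X : Type u)
    [NormedAddCommGroup X] [InnerProductSpace ℝ X] [FiniteDimensional ℝ X]
    (τ : Γ →* (X ≃ₗᵢ[ℝ] X)), finrank ℝ X = d →
    (∀ (S : Type u) [NormedAddCommGroup S] [InnerProductSpace ℝ S] [FiniteDimensional ℝ S]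
      (σ : Γ →* (S ≃ₗᵢ[ℝ] S)), Irr σ → hd σ τ ≠ 0 → hd σ ρ + hd σ σ ≤ finrank ℝ S) →
    ∃ r s : ℕ, 2 * sd τ + 2 * r ≤ hd τ τ + s ∧ hd τ ρ + s ≤ finrank ℝ X ∧ (0 < d → 1 ≤ r) := by
  intro d
  induction d using Nat.strong_induction_on with
  | _ d ih =>
    intro X _ _ _ τ hX hH
    by_cases h0 : d = 0
    · subst h0
      refine ⟨0, 0, ?_, ?_, fun h => absurd h (lt_irrefl _)⟩
      · have h1 : sd τ ≤ hd τ τ := Submodule.finrank_mono (fun f hf => hf.1)
        have h2 := hd_le τ τ
        rw [hX] at h2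
        omega
      · have h2 := hd_le τ ρ
        rw [hX] at h2
        omega
    · have hnt : Nontrivial X := (Module.finrank_pos_iff (R := ℝ)).1 (by omega)
      obtain ⟨E, hE, hirr⟩ := exists_irr_sub τ hnt
      have D := decOf τ E hE
      set σ := subRep τ E hE
      set τ' := subRep τ Eᗮ (orth_inv τ E hE)
      have := hirr.1
      have hpos : 0 < finrank ℝ E := Module.finrank_pos
      have e1 := D.finrank_eq
      obtain ⟨r, s, h1, h2, h3⟩ := ih (finrank ℝ Eᗮ) (by omega) _ τ' rfl (by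
        intro S _ _ _ π hπ hne
        apply hH S π hπ
        rw [D.hd_eq']
        omega)
      have h4 := hH E σ hirr (by
        rw [D.hd_eq']
        have := hd_self_pos hirr
        change hd σ σ + hd σ τ' ≠ 0
        have h5 : 1 ≤ hd σ σ := this
        omega)
      have h5 := D.sd_le
      have h6 := sd_lt hirr
      have h7 : hd τ τ = hd σ σ + hd σ τ' + (hd τ' σ + hd τ' τ') := by
        rw [D.hd_eq, D.hd_eq', D.hd_eq']
      have h8 : hd σ τ' = hd τ' σ := hd_comm _ _
      have h9 := D.hd_eq ρ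
      change sd τ ≤ sd τ' + hd τ' σ + sd σ at h5
      change sd σ + 1 ≤ hd σ σ at h6
      refine ⟨r + 1, s + hd σ σ, ?_, ?_, fun _ => by omega⟩
      · omega
      · omega

/-- the existence of an irreducible representation occurring very often -/
theorem exists_big {V : Type u} [NormedAddCommGroup V] [InnerProductSpace ℝ V]
    [FiniteDimensional ℝ V] (ρ : Γ →* (V ≃ₗᵢ[ℝ] V)) (h0 : 0 < finrank ℝ V)
    (h : finrank ℝ V ≤ 2 * sd ρ + 1) :
    ∃ (S : Type u) (_ : NormedAddCommGroup S) (_ : InnerProductSpace ℝ S)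
      (_ : FiniteDimensional ℝ S) (σ : Γ →* (S ≃ₗᵢ[ℝ] S)), Irr σ ∧ finrank ℝ S ≤ hd σ ρ := by
  by_contra hcon
  push Not at hcon
  obtain ⟨r, s, h1, h2, h3⟩ := count ρ (finrank ℝ V) V ρ rfl (by
    intro S _ _ _ σ hσ _
    exact gap hσ ρ (hcon S inferInstance inferInstance inferInstance σ hσ))
  have := h3 h0
  omega

end Div

end Pool.Agent.Helper39_SF
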