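import Pool.Agent.Helper39_SF.I_Count

/-!
The auxiliary representation W.
-/

open Module

namespace Pool.Agent.Helper39_SF

section W

variable {Γ : Type} [Group Γ]
variable {V : Type} [NormedAddCommGroup V] [InnerProductSpace ℝ V] [FiniteDimensional ℝ V]
variable {S : Type} [NormedAddCommGroup S] [InnerProductSpace ℝ S] [FiniteDimensional ℝ S]

/-- an automorphism which is realised by a linear isometry -/
def Realised {V : Type*} [NormedAddCommGroup V] [InnerProductSpace ℝ V]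
    (ρ : Γ →* (V ≃ₗᵢ[ℝ] V)) (α : Γ ≃* Γ) : Prop :=
  ∃ A : V ≃ₗᵢ[ℝ] V, ∀ γ v, A (ρ γ v) = ρ (α γ) (A v)

theorem Realised.mul {ρ : Γ →* (V ≃ₗᵢ[ℝ] V)} {α β : Γ ≃* Γ} (hα : Realised ρ α)
    (hβ : Realised ρ β) : Realised ρ (α.trans β) := by
  obtain ⟨A, hA⟩ := hα
  obtain ⟨B, hB⟩ := hβ
  refine ⟨A.trans B, fun γ v => ?_⟩
  change B (A (ρ γ v)) = ρ (β (α γ)) (B (A v))
  rw [hA, hB]

theorem Realised.symm {ρ : Γ →* (V ≃ₗᵢ[ℝ] V)} {α : Γ ≃* Γ} (hα : Realised ρ α) :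
    Realised ρ α.symm := by
  obtain ⟨A, hA⟩ := hα
  refine ⟨A.symm, fun γ v => ?_⟩
  rw [LinearIsometryEquiv.symm_apply_eq, hA]
  simp

/-- the sum of the twists of a representation -/
noncomputable def tw (σ : Γ →* (S ≃ₗᵢ[ℝ] S)) (𝒜 : Type) [Fintype 𝒜] (c : 𝒜 → (Γ ≃* Γ)) :
    Γ →* ((PiLp 2 fun _ : 𝒜 => S) ≃ₗᵢ[ℝ] (PiLp 2 fun _ : 𝒜 => S)) where
  toFun γ := LinearIsometryEquiv.piLpCongrRight 2 (fun β => σ (c β γ))
  map_one' := by
    ext f β
    simp
  map_mul' a b := by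
    ext f β
    simp

theorem tw_apply (σ : Γ →* (S ≃ₗᵢ[ℝ] S)) (𝒜 : Type) [Fintype 𝒜] (c : 𝒜 → (Γ ≃* Γ)) (γ : Γ)
    (f : PiLp 2 fun _ : 𝒜 => S) (β : 𝒜) : tw σ 𝒜 c γ f β = σ (c β γ) (f β) := rfl

theorem irr_twist {σ : Γ →* (S ≃ₗᵢ[ℝ] S)} (hσ : Irr σ) (β : Γ ≃* Γ) :
    Irr (σ.comp β.toMonoidHom) := by
  refine ⟨hσ.1, fun E hE => hσ.2 E fun γ e he => ?_⟩
  have := hE (β.symm γ) e he
  simpa using this

theorem hd_twist (σ : Γ →* (S ≃ₗᵢ[ℝ] S)) (ρ : Γ →* (V ≃ₗᵢ[ℝ] V)) {β : Γ ≃* Γ}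
    (hβ : Realised ρ β) : hd σ ρ ≤ hd (σ.comp β.toMonoidHom) ρ := by
  obtain ⟨A, hA⟩ := hβ
  have hA' : ∀ γ v, A.symm (ρ (β γ) v) = ρ γ (A.symm v) := by
    intro γ v
    rw [LinearIsometryEquiv.symm_apply_eq, hA]
    simp
  let e : hom σ ρ →ₗ[ℝ] hom (σ.comp β.toMonoidHom) ρ :=
    { toFun := fun f => ⟨A.symm.toLinearEquiv.toLinearMap ∘ₗ f.1, by
        intro γ s
        change A.symm (f.1 (σ (β γ) s)) = ρ γ (A.symm (f.1 s))
        rw [f.2, hA']⟩
      map_add' := by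
        intro f g
        ext s
        change A.symm (f.1 s + g.1 s) = A.symm (f.1 s) + A.symm (g.1 s)
        exact map_add _ _ _
      map_smul' := by
        intro c f
        ext s
        change A.symm (c • f.1 s) = c • A.symm (f.1 s)
        exact map_smul _ _ _ }
  have he : Function.Injective e := by
    rw [← LinearMap.ker_eq_bot, LinearMap.ker_eq_bot']
    rintro f h0
    ext s
    have h1 : A.symm (f.1 s) = 0 := congrArg (fun g : hom (σ.comp β.toMonoidHom) ρ => g.1 s) h0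
    have h2 : f.1 s = 0 := by
      rw [LinearIsometryEquiv.symm_apply_eq] at h1
      simpa using h1
    rw [h2]
    rfl
  exact LinearMap.finrank_le_finrank_of_injective he

theorem exists_W [Finite Γ] (ρ : Γ →* (V ≃ₗᵢ[ℝ] V)) {σ : Γ →* (S ≃ₗᵢ[ℝ] S)} (hσ : Irr σ)
    (h : finrank ℝ S ≤ hd σ ρ) :
    ∃ (W : Type) (_ : NormedAddCommGroup W) (_ : InnerProductSpace ℝ W)
      (_ : FiniteDimensional ℝ W) (τ : Γ →* (W ≃ₗᵢ[ℝ] W)), Nontrivial W ∧
      (∀ (v : V) (w : W), ∃ v' : V, ∀ γ, coef ρ v' γ = coef ρ v γ + coef τ w γ) ∧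
      ∀ α : Γ ≃* Γ, Realised ρ α → Realised τ α := by
  classical
  haveI := hσ.1
  haveI : Finite (Γ ≃* Γ) := Finite.of_injective (fun e : Γ ≃* Γ => (e : Γ → Γ))
    (fun a b hab => MulEquiv.ext fun x => congrFun hab x)
  let 𝒜 := {α : Γ ≃* Γ // Realised ρ α}
  letI : Fintype 𝒜 := Fintype.ofFinite 𝒜
  let c : 𝒜 → (Γ ≃* Γ) := fun α => α.1
  let one : 𝒜 := ⟨MulEquiv.refl Γ, LinearIsometryEquiv.refl ℝ V, fun γ v => rfl⟩
  refine ⟨PiLp 2 fun _ : 𝒜 => S, inferInstance, inferInstance, inferInstance, tw σ 𝒜 c,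
    ?_, ?_, ?_⟩
  · obtain ⟨s, hs⟩ := exists_ne (0 : S)
    refine ⟨⟨WithLp.toLp 2 fun _ => s, 0, fun h => hs ?_⟩⟩
    have := congrArg (fun f : PiLp 2 fun _ : 𝒜 => S => f one) h
    simpa using this
  · intro v w
    have key : ∀ s : Finset 𝒜, ∃ v' : V, ∀ γ, coef ρ v' γ = coef ρ v γ +
        ∑ β ∈ s, inner ℝ (w β) (σ (c β γ) (w β)) := by
      intro s
      induction s using Finset.induction_on with
      | empty => exact ⟨v, fun γ => by simp⟩
      | insert β s hβ ih =>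
        obtain ⟨v', hv'⟩ := ih
        obtain ⟨v'', hv''⟩ := absorb (irr_twist hσ (c β)) ρ
          (le_trans h (hd_twist σ ρ β.2)) v' (w β)
        refine ⟨v'', fun γ => ?_⟩
        rw [hv'', hv', Finset.sum_insert hβ]
        simp only [coef]
        have : (σ.comp (c β).toMonoidHom) γ = σ (c β γ) := rfl
        rw [this]
        abel
    obtain ⟨v', hv'⟩ := key Finset.univ
    refine ⟨v', fun γ => ?_⟩
    rw [hv']
    congr 1
  · intro α hα
    -- the permutation of the index set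
    let e : 𝒜 ≃ 𝒜 :=
      { toFun := fun β => ⟨α.symm.trans β.1, hα.symm.mul β.2⟩
        invFun := fun β => ⟨α.trans β.1, hα.mul β.2⟩
        left_inv := by
          intro β
          apply Subtype.ext
          ext x
          simp
        right_inv := by
          intro β
          apply Subtype.ext
          ext x
          simp }
    refine ⟨LinearIsometryEquiv.piLpCongrLeft 2 ℝ S e, fun γ f => ?_⟩
    ext β
    rw [tw_apply]
    change (tw σ 𝒜 c γ f) (e.symm β) = σ (c β (α γ)) (f (e.symm β))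
    rw [tw_apply]
    rfl

end W

end Pool.Agent.Helper39_SF
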