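import Pool.Agent.Helper39_SF.J_W

/-!
The chain of representations.
-/

open Module

namespace Pool.Agent.Helper39_SF

section Chain

variable {Γ : Type} [Group Γ]
variable {V : Type} [NormedAddCommGroup V] [InnerProductSpace ℝ V] [FiniteDimensional ℝ V]
variable {W : Type} [NormedAddCommGroup W] [InnerProductSpace ℝ W] [FiniteDimensional ℝ W]

/-- the spaces of the chain -/
abbrev RR (V W : Type) [NormedAddCommGroup V] [InnerProductSpace ℝ V]
    [NormedAddCommGroup W] [InnerProductSpace ℝ W] (m : ℕ) : Type :=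
  WithLp 2 (V × PiLp 2 (fun _ : Fin m => W))

omit [FiniteDimensional ℝ V] [FiniteDimensional ℝ W] in
theorem RR.ext' {m : ℕ} {z z' : RR V W m} (h1 : z.fst = z'.fst)
    (h2 : ∀ j, z.snd j = z'.snd j) : z = z' := by
  apply WithLp.ofLp_injective
  apply Prod.ext
  · exact h1
  · apply WithLp.ofLp_injective
    funext j
    exact h2 j

/-- the representations of the chain -/
noncomputable def rr (ρ : Γ →* (V ≃ₗᵢ[ℝ] V)) (τ : Γ →* (W ≃ₗᵢ[ℝ] W)) (m : ℕ) :
    Γ →* (RR V W m ≃ₗᵢ[ℝ] RR V W m) where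
  toFun γ := LinearIsometryEquiv.withLpProdCongr 2 (ρ γ)
    (LinearIsometryEquiv.piLpCongrRight 2 (fun _ => τ γ))
  map_one' := by
    apply LinearIsometryEquiv.ext
    intro z
    apply RR.ext'
    · exact rho_one ρ _
    · intro j
      exact rho_one τ _
  map_mul' a b := by
    apply LinearIsometryEquiv.ext
    intro z
    apply RR.ext'
    · exact rho_mul ρ a b _
    · intro j
      exact rho_mul τ a b _

theorem rr_fst (ρ : Γ →* (V ≃ₗᵢ[ℝ] V)) (τ : Γ →* (W ≃ₗᵢ[ℝ] W)) (m : ℕ) (γ : Γ)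
    (z : RR V W m) : (rr ρ τ m γ z).fst = ρ γ z.fst := rfl

theorem rr_snd (ρ : Γ →* (V ≃ₗᵢ[ℝ] V)) (τ : Γ →* (W ≃ₗᵢ[ℝ] W)) (m : ℕ) (γ : Γ)
    (z : RR V W m) (j : Fin m) : (rr ρ τ m γ z).snd j = τ γ (z.snd j) := rfl

theorem RR.inner_eq {m : ℕ} (z z' : RR V W m) :
    inner ℝ z z' = inner ℝ z.fst z'.fst + ∑ j, inner ℝ (z.snd j) (z'.snd j) := by
  rw [WithLp.prod_inner_apply]
  congr 1

theorem coef_rr (ρ : Γ →* (V ≃ₗᵢ[ℝ] V)) (τ : Γ →* (W ≃ₗᵢ[ℝ] W)) (m : ℕ) (z : RR V W m)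
    (γ : Γ) : coef (rr ρ τ m) z γ = coef ρ z.fst γ + ∑ j, coef τ (z.snd j) γ := by
  rw [coef, RR.inner_eq]
  rfl

/-- the inclusion -/
noncomputable def padL (V W : Type) [NormedAddCommGroup V] [InnerProductSpace ℝ V]
    [NormedAddCommGroup W] [InnerProductSpace ℝ W] (m m' : ℕ) (h : m ≤ m') :
    RR V W m →ₗᵢ[ℝ] RR V W m' where
  toFun z := WithLp.toLp 2 (z.fst, WithLp.toLp 2 fun j : Fin m' =>
    if hj : (j : ℕ) < m then z.snd ⟨j, hj⟩ else 0)
  map_add' := by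
    intro z z'
    apply RR.ext'
    · rfl
    · intro j
      change (if hj : (j : ℕ) < m then (z + z').snd ⟨j, hj⟩ else 0) =
        (if hj : (j : ℕ) < m then z.snd ⟨j, hj⟩ else 0) +
        (if hj : (j : ℕ) < m then z'.snd ⟨j, hj⟩ else 0)
      split_ifs
      · rfl
      · simp
  map_smul' := by
    intro c z
    apply RR.ext'
    · rfl
    · intro j
      change (if hj : (j : ℕ) < m then (c • z).snd ⟨j, hj⟩ else 0) =
        c • (if hj : (j : ℕ) < m then z.snd ⟨j, hj⟩ else 0)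
      split_ifs
      · rfl
      · simp
  norm_map' := by
    intro z
    have h1 : ∀ (k : ℕ) (y : RR V W k), ‖y‖ ^ 2 = ‖y.fst‖ ^ 2 + ∑ j, ‖y.snd j‖ ^ 2 := by
      intro k y
      rw [WithLp.prod_norm_sq_eq_of_L2, PiLp.norm_sq_eq_of_L2]
    have h2 : ‖(WithLp.toLp 2 (z.fst, WithLp.toLp 2 fun j : Fin m' =>
        if hj : (j : ℕ) < m then z.snd ⟨j, hj⟩ else 0) : RR V W m')‖ ^ 2 = ‖z‖ ^ 2 := by
      rw [h1, h1]
      congr 1
      obtain ⟨d, rfl⟩ := Nat.exists_eq_add_of_le h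
      rw [Fin.sum_univ_add]
      have e1 : ∀ i : Fin d, ‖(if hj : ((Fin.natAdd m i : Fin (m + d)) : ℕ) < m then
          z.snd ⟨_, hj⟩ else (0 : W))‖ ^ 2 = 0 := by
        intro i
        rw [dif_neg (by simp)]
        simp
      have e2 : ∀ i : Fin m, ‖(if hj : ((Fin.castAdd d i : Fin (m + d)) : ℕ) < m then
          z.snd ⟨_, hj⟩ else (0 : W))‖ ^ 2 = ‖z.snd i‖ ^ 2 := by
        intro i
        rw [dif_pos (by simp)]
        rfl
      change ∑ i : Fin m, ‖(if hj : ((Fin.castAdd d i : Fin (m + d)) : ℕ) < m then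
          z.snd ⟨_, hj⟩ else (0 : W))‖ ^ 2 + ∑ i : Fin d,
          ‖(if hj : ((Fin.natAdd m i : Fin (m + d)) : ℕ) < m then
          z.snd ⟨_, hj⟩ else (0 : W))‖ ^ 2 = _
      rw [Finset.sum_congr rfl (fun i _ => e1 i), Finset.sum_congr rfl (fun i _ => e2 i)]
      simp
    exact (sq_eq_sq₀ (norm_nonneg _) (norm_nonneg _)).1 h2

theorem padL_fst {m m' : ℕ} (h : m ≤ m') (z : RR V W m) : (padL V W m m' h z).fst = z.fst := rfl

theorem padL_snd {m m' : ℕ} (h : m ≤ m') (z : RR V W m) (j : Fin m') :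
    (padL V W m m' h z).snd j = if hj : (j : ℕ) < m then z.snd ⟨j, hj⟩ else 0 := rfl

theorem padL_rr (ρ : Γ →* (V ≃ₗᵢ[ℝ] V)) (τ : Γ →* (W ≃ₗᵢ[ℝ] W)) {m m' : ℕ} (h : m ≤ m')
    (γ : Γ) (z : RR V W m) :
    padL V W m m' h (rr ρ τ m γ z) = rr ρ τ m' γ (padL V W m m' h z) := by
  apply RR.ext'
  · rfl
  · intro j
    rw [rr_snd, padL_snd, padL_snd]
    split_ifs
    · rfl
    · simp

theorem padL_padL {m m' m'' : ℕ} (h : m ≤ m') (h' : m' ≤ m'') (z : RR V W m) :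
    padL V W m' m'' h' (padL V W m m' h z) = padL V W m m'' (h.trans h') z := by
  apply RR.ext'
  · rfl
  · intro j
    rw [padL_snd, padL_snd]
    by_cases hj : (j : ℕ) < m
    · rw [dif_pos (lt_of_lt_of_le hj h), dif_pos hj, padL_snd, dif_pos hj]
    · rw [dif_neg hj]
      split_ifs
      · rw [padL_snd, dif_neg hj]
      · rfl

/-- the embedding of V -/
noncomputable def jj (V W : Type) [NormedAddCommGroup V] [InnerProductSpace ℝ V]
    [NormedAddCommGroup W] [InnerProductSpace ℝ W] (m : ℕ) :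
    V →ₗᵢ[ℝ] RR V W m where
  toFun v := WithLp.toLp 2 (v, 0)
  map_add' := by
    intro v v'
    apply RR.ext'
    · rfl
    · intro j
      change (0 : W) = 0 + 0
      simp
  map_smul' := by
    intro c v
    apply RR.ext'
    · rfl
    · intro j
      change (0 : W) = c • 0
      simp
  norm_map' := by
    intro v
    have h2 : ‖(WithLp.toLp 2 (v, 0) : RR V W m)‖ ^ 2 = ‖v‖ ^ 2 := by
      rw [WithLp.prod_norm_sq_eq_of_L2]
      simp
    exact (sq_eq_sq₀ (norm_nonneg _) (norm_nonneg _)).1 h2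

theorem jj_fst (m : ℕ) (v : V) : (jj V W m v).fst = v := rfl

theorem jj_snd (m : ℕ) (v : V) (j : Fin m) : (jj V W m v).snd j = 0 := rfl

theorem jj_rr (ρ : Γ →* (V ≃ₗᵢ[ℝ] V)) (τ : Γ →* (W ≃ₗᵢ[ℝ] W)) (m : ℕ)
    (γ : Γ) (v : V) : jj V W m (ρ γ v) = rr ρ τ m γ (jj V W m v) := by
  apply RR.ext'
  · rfl
  · intro j
    rw [rr_snd, jj_snd, jj_snd, map_zero]

theorem padL_jj {m m' : ℕ} (h : m ≤ m') (v : V) :
    padL V W m m' h (jj V W m v) = jj V W m' v := by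
  apply RR.ext'
  · rfl
  · intro j
    rw [padL_snd, jj_snd]
    split_ifs
    · rfl
    · rfl

theorem finrank_RR (m : ℕ) : finrank ℝ (RR V W m) = finrank ℝ V + m * finrank ℝ W := by
  have e1 : finrank ℝ (RR V W m) = finrank ℝ (V × (PiLp 2 (fun _ : Fin m => W))) :=
    (WithLp.linearEquiv 2 ℝ _).finrank_eq
  have e2 : finrank ℝ (PiLp 2 (fun _ : Fin m => W)) = finrank ℝ (Fin m → W) :=
    (WithLp.linearEquiv 2 ℝ _).finrank_eq
  rw [e1, finrank_prod, e2, Module.finrank_pi_fintype]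
  simp

/-- every vector has the coefficient of a vector of V -/
theorem coef_V {ρ : Γ →* (V ≃ₗᵢ[ℝ] V)} {τ : Γ →* (W ≃ₗᵢ[ℝ] W)}
    (h2 : ∀ (v : V) (w : W), ∃ v' : V, ∀ γ, coef ρ v' γ = coef ρ v γ + coef τ w γ)
    (m : ℕ) (z : RR V W m) : ∃ v : V, ∀ γ, coef ρ v γ = coef (rr ρ τ m) z γ := by
  classical
  have key : ∀ s : Finset (Fin m), ∃ v' : V, ∀ γ, coef ρ v' γ = coef ρ z.fst γ +
      ∑ j ∈ s, coef τ (z.snd j) γ := by
    intro s
    induction s using Finset.induction_on with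
    | empty => exact ⟨z.fst, fun γ => by simp⟩
    | insert j s hj ih =>
      obtain ⟨v', hv'⟩ := ih
      obtain ⟨v'', hv''⟩ := h2 v' (z.snd j)
      refine ⟨v'', fun γ => ?_⟩
      rw [hv'', hv', Finset.sum_insert hj]
      ring
  obtain ⟨v, hv⟩ := key Finset.univ
  exact ⟨v, fun γ => by rw [hv, coef_rr]⟩

theorem coef_one (ρ : Γ →* (V ≃ₗᵢ[ℝ] V)) (v : V) : coef ρ v 1 = ‖v‖ ^ 2 := by
  rw [coef, rho_one, real_inner_self_eq_norm_sq]

theorem coef_fix (ρ : Γ →* (V ≃ₗᵢ[ℝ] V)) (v : V) (γ : Γ) (h : coef ρ v γ = ‖v‖ ^ 2) :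
    ρ γ v = v := by
  have : ‖ρ γ v - v‖ ^ 2 = 0 := by
    rw [norm_sub_sq_real, (ρ γ).norm_map, real_inner_comm]
    change ‖v‖ ^ 2 - 2 * coef ρ v γ + ‖v‖ ^ 2 = 0
    rw [h]
    ring
  have h2 : ‖ρ γ v - v‖ = 0 := by simpa using this
  exact sub_eq_zero.1 (norm_eq_zero.1 h2)

/-- freeness passes to the chain -/
theorem free_rr {ρ : Γ →* (V ≃ₗᵢ[ℝ] V)} {τ : Γ →* (W ≃ₗᵢ[ℝ] W)}
    (h2 : ∀ (v : V) (w : W), ∃ v' : V, ∀ γ, coef ρ v' γ = coef ρ v γ + coef τ w γ)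
    (hfree : ∀ γ v, v ≠ 0 → ρ γ v = v → γ = 1) (m : ℕ) :
    ∀ γ (z : RR V W m), z ≠ 0 → rr ρ τ m γ z = z → γ = 1 := by
  intro γ z hz hfix
  obtain ⟨v, hv⟩ := coef_V h2 m z
  have h1 : ‖v‖ ^ 2 = ‖z‖ ^ 2 := by
    rw [← coef_one ρ, hv, coef_one]
  have h3 : coef (rr ρ τ m) z γ = ‖z‖ ^ 2 := by
    rw [coef, hfix, real_inner_self_eq_norm_sq]
  apply hfree γ v
  · intro h0
    subst h0
    apply hz
    simp at h1
    simpa using h1.symm
  · apply coef_fix
    rw [hv, h3, h1]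

/-- every vector can be moved to V -/
theorem move_rr [Finite Γ] {ρ : Γ →* (V ≃ₗᵢ[ℝ] V)} {τ : Γ →* (W ≃ₗᵢ[ℝ] W)}
    (h2 : ∀ (v : V) (w : W), ∃ v' : V, ∀ γ, coef ρ v' γ = coef ρ v γ + coef τ w γ)
    (m : ℕ) (z : RR V W m) :
    ∃ (U : RR V W m ≃ₗᵢ[ℝ] RR V W m) (v : V),
      (∀ γ y, U (rr ρ τ m γ y) = rr ρ τ m γ (U y)) ∧ U z = jj V W m v := by
  haveI := Fintype.ofFinite Γ
  obtain ⟨v, hv⟩ := coef_V h2 m z
  obtain ⟨U, hU, hz⟩ := exists_move (rr ρ τ m) z (jj V W m v) (by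
    intro γ
    rw [← hv, coef_rr]
    simp only [jj_fst, jj_snd]
    simp [coef])
  exact ⟨U, v, hU, hz⟩

/-- extension of isometries -/
theorem extend_rr {ρ : Γ →* (V ≃ₗᵢ[ℝ] V)} {τ : Γ →* (W ≃ₗᵢ[ℝ] W)}
    (h3 : ∀ α : Γ ≃* Γ, Realised ρ α → Realised τ α) (m : ℕ) (α : Γ ≃* Γ)
    (A : V ≃ₗᵢ[ℝ] V) (hA : ∀ γ v, A (ρ γ v) = ρ (α γ) (A v)) :
    ∃ B : RR V W m ≃ₗᵢ[ℝ] RR V W m, (∀ γ z, B (rr ρ τ m γ z) = rr ρ τ m (α γ) (B z)) ∧
      ∀ v, B (jj V W m v) = jj V W m (A v) := by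
  obtain ⟨P, hP⟩ := h3 α ⟨A, hA⟩
  refine ⟨LinearIsometryEquiv.withLpProdCongr 2 A
    (LinearIsometryEquiv.piLpCongrRight 2 (fun _ => P)), ?_, ?_⟩
  · intro γ z
    apply RR.ext'
    · exact hA γ _
    · intro j
      exact hP γ _
  · intro v
    apply RR.ext'
    · rfl
    · intro j
      change P 0 = 0
      exact map_zero P

/-- comparison of coefficients -/
theorem compare_rr {ρ : Γ →* (V ≃ₗᵢ[ℝ] V)} {τ : Γ →* (W ≃ₗᵢ[ℝ] W)} (m : ℕ) (α : Γ ≃* Γ)
    (B : RR V W m ≃ₗᵢ[ℝ] RR V W m) (hB : ∀ γ z, B (rr ρ τ m γ z) = rr ρ τ m (α γ) (B z))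
    (hα : Realised ρ α) (x y : V) :
    ∃ A : V ≃ₗᵢ[ℝ] V, (∀ γ v, A (ρ γ v) = ρ (α γ) (A v)) ∧
      inner ℝ (jj V W m x) (B (jj V W m y)) ≤ inner ℝ x (A y) := by
  obtain ⟨A, hA⟩ := hα
  have hA' : ∀ γ v, A.symm (ρ (α γ) v) = ρ γ (A.symm v) := by
    intro γ v
    rw [LinearIsometryEquiv.symm_apply_eq, hA]
    simp
  let T : V →ₗ[ℝ] V :=
    { toFun := fun v => A.symm (B (jj V W m v)).fst
      map_add' := by
        intro u v
        rw [map_add, map_add]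
        exact map_add A.symm _ _
      map_smul' := by
        intro c v
        rw [map_smul, map_smul]
        exact map_smul A.symm _ _ }
  have hT : T ∈ hom ρ ρ := by
    intro γ v
    change A.symm (B (jj V W m (ρ γ v))).fst = ρ γ (A.symm (B (jj V W m v)).fst)
    rw [jj_rr ρ τ, hB, rr_fst, hA']
  have hfst : ∀ z : RR V W m, ‖z.fst‖ ≤ ‖z‖ := by
    intro z
    have : ‖z.fst‖ ^ 2 ≤ ‖z‖ ^ 2 := by
      rw [WithLp.prod_norm_sq_eq_of_L2]
      nlinarith [sq_nonneg ‖z.snd‖]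
    exact (sq_le_sq₀ (norm_nonneg _) (norm_nonneg _)).1 this
  have hc : ∀ v, ‖T v‖ ≤ ‖v‖ := by
    intro v
    change ‖A.symm (B (jj V W m v)).fst‖ ≤ ‖v‖
    rw [A.symm.norm_map]
    calc _ ≤ ‖B (jj V W m v)‖ := hfst _
      _ = ‖v‖ := by rw [B.norm_map, (jj V W m).norm_map]
  obtain ⟨U, hU, hmax⟩ := orth_max ρ (A.symm x) y
  refine ⟨U.trans A, ?_, ?_⟩
  · intro γ v
    change A (U (ρ γ v)) = ρ (α γ) (A (U v))
    rw [hU, hA]
  · have h1 := hmax T hT hc
    have h2 : inner ℝ (jj V W m x) (B (jj V W m y)) = inner ℝ x (B (jj V W m y)).fst := by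
      rw [RR.inner_eq]
      simp [jj_fst, jj_snd]
    rw [h2]
    have h3 : inner ℝ (A.symm x) (T y) = inner ℝ x (B (jj V W m y)).fst :=
      A.symm.inner_map_map _ _
    have h4 : inner ℝ x ((U.trans A) y) = inner ℝ (A.symm x) (U y) := by
      have := A.inner_map_map (A.symm x) (U y)
      rw [A.apply_symm_apply] at this
      exact this
    rw [h4, ← h3]
    exact h1

section Hd

variable {X : Type} [NormedAddCommGroup X] [InnerProductSpace ℝ X] [FiniteDimensional ℝ X]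

theorem hd_rr (π : Γ →* (X ≃ₗᵢ[ℝ] X)) (ρ : Γ →* (V ≃ₗᵢ[ℝ] V)) (τ : Γ →* (W ≃ₗᵢ[ℝ] W))
    (m : ℕ) : hd π (rr ρ τ m) = hd π ρ + m * hd π τ := by
  let e : hom π (rr ρ τ m) ≃ₗ[ℝ] (hom π ρ × (Fin m → hom π τ)) :=
    { toFun := fun f => (⟨
          { toFun := fun x => (f.1 x).fst
            map_add' := by intro x y; rw [map_add]; rfl
            map_smul' := by intro c x; rw [map_smul]; rfl }, by
          intro γ x
          change (f.1 (π γ x)).fst = ρ γ (f.1 x).fst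
          rw [f.2, rr_fst]⟩,
        fun j => ⟨
          { toFun := fun x => (f.1 x).snd j
            map_add' := by intro x y; rw [map_add]; rfl
            map_smul' := by intro c x; rw [map_smul]; rfl }, by
          intro γ x
          change (f.1 (π γ x)).snd j = τ γ ((f.1 x).snd j)
          rw [f.2, rr_snd]⟩)
      invFun := fun g => ⟨
          { toFun := fun x => WithLp.toLp 2 (g.1.1 x, WithLp.toLp 2 fun j => (g.2 j).1 x)
            map_add' := by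
              intro x y
              apply RR.ext'
              · exact map_add g.1.1 x y
              · intro j
                exact map_add (g.2 j).1 x y
            map_smul' := by
              intro c x
              apply RR.ext'
              · exact map_smul g.1.1 c x
              · intro j
                exact map_smul (g.2 j).1 c x }, by
          intro γ x
          apply RR.ext'
          · exact g.1.2 γ x
          · intro j
            exact (g.2 j).2 γ x⟩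
      map_add' := fun f g => rfl
      map_smul' := fun c f => rfl
      left_inv := fun f => rfl
      right_inv := fun g => rfl }
  have := e.finrank_eq
  rw [finrank_prod, Module.finrank_pi_fintype] at this
  simp only [Finset.sum_const, Finset.card_univ, Fintype.card_fin, smul_eq_mul] at this
  exact this

end Hd

/-- automorphisms realised in the chain are realised on V -/
theorem realised_rr {ρ : Γ →* (V ≃ₗᵢ[ℝ] V)} {τ : Γ →* (W ≃ₗᵢ[ℝ] W)} (m : ℕ)
    (hm : finrank ℝ V * finrank ℝ V < m ∨ m = 0) (α : Γ ≃* Γ)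
    (h : Realised (rr ρ τ m) α) : Realised ρ α := by
  obtain ⟨B, hB⟩ := h
  -- the twisted representation
  have key : ∀ π : Γ →* (V ≃ₗᵢ[ℝ] V), hd π (ρ.comp α.toMonoidHom) = hd π ρ := by
    intro π
    have e1 : hd π (rr ρ τ m) = hd π (rr (ρ.comp α.toMonoidHom) (τ.comp α.toMonoidHom) m) := by
      rw [hd_comm π, hd_comm π]
      apply hd_congr B.toLinearEquiv
      intro γ z
      exact hB γ z
    rw [hd_rr, hd_rr] at e1
    rcases hm with hm | hm
    · have b1 := hd_le π ρ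
      have b2 := hd_le π (ρ.comp α.toMonoidHom)
      have c1 : (hd π ρ + m * hd π τ) % m = hd π ρ := by
        rw [Nat.add_mul_mod_self_left, Nat.mod_eq_of_lt (by omega)]
      have c2 : (hd π (ρ.comp α.toMonoidHom) + m * hd π (τ.comp α.toMonoidHom)) % m =
          hd π (ρ.comp α.toMonoidHom) := by
        rw [Nat.add_mul_mod_self_left, Nat.mod_eq_of_lt (by omega)]
      rw [← c2, ← e1, c1]
    · subst hm
      simpa using e1.symm
  obtain ⟨U, hU⟩ := iso_of_hd ρ (ρ.comp α.toMonoidHom) (key ρ).symm (by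
    rw [hd_comm ρ, key, ])
  exact ⟨U, hU⟩

end Chain

end Pool.Agent.Helper39_SF
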