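import Pool.Agent.Helper39_SF.K_Chain

/-!
Quotients of unit spheres by finite groups: the metric, induced maps.
-/

open Module InnerProductGeometry Metric

namespace Pool.Agent.Helper39_SF

section Quot

variable {Γ : Type*} [Group Γ]
variable {V : Type*} [NormedAddCommGroup V] [InnerProductSpace ℝ V]
variable {V' : Type*} [NormedAddCommGroup V'] [InnerProductSpace ℝ V']

/-- a linear isometry on unit spheres -/
def smap (J : V →ₗᵢ[ℝ] V') (x : sphere (0 : V) 1) : sphere (0 : V') 1 :=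
  ⟨J x, by simp⟩

@[simp] theorem smap_coe (J : V →ₗᵢ[ℝ] V') (x : sphere (0 : V) 1) : (smap J x : V') = J x := rfl

theorem nrm (x : sphere (0 : V) 1) : ‖(x : V)‖ = 1 := by simp

theorem nz (x : sphere (0 : V) 1) : (x : V) ≠ 0 := by
  intro h
  have := nrm x
  rw [h, norm_zero] at this
  exact zero_ne_one this

theorem inner_of_angle {a b : V} {e f : V'} (ha : ‖a‖ = 1) (hb : ‖b‖ = 1) (he : ‖e‖ = 1)
    (hf : ‖f‖ = 1) (h : angle a b = angle e f) : inner ℝ a b = inner ℝ e f := by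
  rw [← cos_angle_mul_norm_mul_norm, ← cos_angle_mul_norm_mul_norm, h, ha, hb, he, hf]

theorem eq_of_angle {a b : V} (ha : ‖a‖ = 1) (hb : ‖b‖ = 1) (h : angle a b = 0) : a = b := by
  have h1 : inner ℝ a b = 1 := by
    rw [← cos_angle_mul_norm_mul_norm, h, ha, hb]
    simp
  have h2 : ‖a - b‖ ^ 2 = 0 := by
    rw [norm_sub_sq_real, h1, ha, hb]
    norm_num
  have : ‖a - b‖ = 0 := by simpa using h2
  exact sub_eq_zero.1 (norm_eq_zero.1 this)

/-- M is the quotient of the unit sphere by the action, with the least angle metric -/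
structure SF (ρ : Γ →* (V ≃ₗᵢ[ℝ] V)) (M : Type*) [MetricSpace M]
    (π : sphere (0 : V) 1 → M) : Prop where
  surj : Function.Surjective π
  lst : ∀ x y : sphere (0 : V) 1,
    IsLeast {t : ℝ | ∃ γ, t = angle (x : V) (ρ γ y)} (dist (π x) (π y))

namespace SF

variable {ρ : Γ →* (V ≃ₗᵢ[ℝ] V)} {M : Type*} [MetricSpace M] {π : sphere (0 : V) 1 → M}

theorem ex (h : SF ρ M π) (x y : sphere (0 : V) 1) :
    ∃ γ, dist (π x) (π y) = angle (x : V) (ρ γ y) := (h.lst x y).1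

theorem le (h : SF ρ M π) (x y : sphere (0 : V) 1) (γ : Γ) :
    dist (π x) (π y) ≤ angle (x : V) (ρ γ y) := (h.lst x y).2 ⟨γ, rfl⟩

theorem le' (h : SF ρ M π) (x y : sphere (0 : V) 1) :
    dist (π x) (π y) ≤ angle (x : V) y := by
  have := h.le x y 1
  rwa [rho_one] at this

theorem eq_iff (h : SF ρ M π) (x y : sphere (0 : V) 1) :
    π x = π y ↔ ∃ γ, (x : V) = ρ γ y := by
  constructor
  · intro hxy
    obtain ⟨γ, hγ⟩ := h.ex x y
    rw [hxy, dist_self] at hγ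
    exact ⟨γ, eq_of_angle (nrm x) (by rw [(ρ γ).norm_map]; exact nrm y) hγ.symm⟩
  · rintro ⟨γ, hγ⟩
    have h1 := h.le x y γ
    rw [← hγ, angle_self (nz x)] at h1
    exact dist_le_zero.1 h1

end SF

/-- the map of quotients induced by an equivariant linear isometry -/
theorem SF.induced {ρ : Γ →* (V ≃ₗᵢ[ℝ] V)} {M : Type*} [MetricSpace M]
    {π : sphere (0 : V) 1 → M} (h : SF ρ M π)
    {Γ' : Type*} [Group Γ'] {ρ' : Γ' →* (V' ≃ₗᵢ[ℝ] V')} {M' : Type*} [MetricSpace M']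
    {π' : sphere (0 : V') 1 → M'} (h' : SF ρ' M' π') (J : V →ₗᵢ[ℝ] V') (α : Γ ≃* Γ')
    (hJ : ∀ γ v, J (ρ γ v) = ρ' (α γ) (J v)) :
    ∃ ι : M → M', Isometry ι ∧ ∀ x, ι (π x) = π' (smap J x) := by
  have hd : ∀ x y, Dist.dist (π' (smap J x)) (π' (smap J y)) = Dist.dist (π x) (π y) := by
    intro x y
    refine (h'.lst (smap J x) (smap J y)).unique ?_
    have : {t : ℝ | ∃ γ', t = angle (smap J x : V') (ρ' γ' (smap J y))} =
        {t : ℝ | ∃ γ, t = angle (x : V) (ρ γ y)} := by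
      have e : ∀ γ, angle (smap J x : V') (ρ' (α γ) (smap J y)) = angle (x : V) (ρ γ y) := by
        intro γ
        rw [smap_coe, smap_coe, ← hJ, LinearIsometry.angle_map]
      ext t
      constructor
      · rintro ⟨γ', rfl⟩
        exact ⟨α.symm γ', by rw [← e, MulEquiv.apply_symm_apply]⟩
      · rintro ⟨γ, rfl⟩
        exact ⟨α γ, (e γ).symm⟩
    rw [this]
    exact h.lst x y
  refine ⟨fun m => π' (smap J (Function.surjInv h.surj m)), ?_, ?_⟩
  · apply Isometry.of_dist_eq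
    intro m m'
    rw [hd, Function.surjInv_eq h.surj, Function.surjInv_eq h.surj]
  · intro x
    apply dist_le_zero.1
    rw [hd, Function.surjInv_eq h.surj, dist_self]

theorem SF.inducedEquiv {ρ : Γ →* (V ≃ₗᵢ[ℝ] V)} {M : Type*} [MetricSpace M]
    {π : sphere (0 : V) 1 → M} (h : SF ρ M π)
    {Γ' : Type*} [Group Γ'] {ρ' : Γ' →* (V' ≃ₗᵢ[ℝ] V')} {M' : Type*} [MetricSpace M']
    {π' : sphere (0 : V') 1 → M'} (h' : SF ρ' M' π') (A : V ≃ₗᵢ[ℝ] V') (α : Γ ≃* Γ')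
    (hA : ∀ γ v, A (ρ γ v) = ρ' (α γ) (A v)) :
    ∃ φ : M ≃ᵢ M', ∀ x, φ (π x) = π' (smap A.toLinearIsometry x) := by
  obtain ⟨ι, hι, hι'⟩ := h.induced h' A.toLinearIsometry α hA
  have hs : Function.Surjective ι := by
    intro m
    obtain ⟨y, rfl⟩ := h'.surj m
    refine ⟨π ⟨A.symm y, by simp⟩, ?_⟩
    rw [hι']
    congr 1
    ext
    simp
  exact ⟨⟨Equiv.ofBijective ι ⟨hι.injective, hs⟩, hι⟩, hι'⟩

/-- points, for the construction of the quotient -/
structure Pt (ρ : Γ →* (V ≃ₗᵢ[ℝ] V)) where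
  x : sphere (0 : V) 1

noncomputable instance Pt.pseudo [Finite Γ] (ρ : Γ →* (V ≃ₗᵢ[ℝ] V)) :
    PseudoMetricSpace (Pt ρ) where
  dist a b := ⨅ γ, angle (a.x : V) (ρ γ b.x)
  dist_self a := by
    apply le_antisymm
    · refine (ciInf_le (Set.finite_range _).bddBelow 1).trans ?_
      rw [rho_one, angle_self (nz a.x)]
    · exact Real.iInf_nonneg fun γ => angle_nonneg _ _
  dist_comm a b := by
    have h : ∀ a b : Pt ρ, (⨅ γ, angle (a.x : V) (ρ γ b.x)) ≤ ⨅ γ, angle (b.x : V) (ρ γ a.x) := by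
      intro a b
      refine le_ciInf fun γ => ?_
      refine (ciInf_le (Set.finite_range _).bddBelow γ⁻¹).trans (le_of_eq ?_)
      have := (ρ γ).toLinearIsometry.angle_map (a.x : V) (ρ γ⁻¹ b.x)
      rw [← this, angle_comm]
      congr 1
      exact rho_inv_apply ρ γ _
    exact le_antisymm (h a b) (h b a)
  dist_triangle a b c := by
    obtain ⟨γ₁, h₁⟩ := exists_eq_ciInf_of_finite (f := fun γ => angle (a.x : V) (ρ γ b.x))
    obtain ⟨γ₂, h₂⟩ := exists_eq_ciInf_of_finite (f := fun γ => angle (b.x : V) (ρ γ c.x))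
    rw [← h₁, ← h₂]
    refine (ciInf_le (Set.finite_range _).bddBelow (γ₁ * γ₂)).trans ?_
    refine (angle_le_angle_add_angle _ (ρ γ₁ b.x) _).trans ?_
    have := (ρ γ₁).toLinearIsometry.angle_map (b.x : V) (ρ γ₂ c.x)
    rw [rho_mul]
    exact add_le_add_right (le_of_eq this) _

theorem Pt.dist_eq [Finite Γ] (ρ : Γ →* (V ≃ₗᵢ[ℝ] V)) (a b : Pt ρ) :
    Dist.dist a b = ⨅ γ, angle (a.x : V) (ρ γ b.x) := rfl

/-- the quotient metric space -/
abbrev QQ [Finite Γ] (ρ : Γ →* (V ≃ₗᵢ[ℝ] V)) : Type _ := SeparationQuotient (Pt ρ)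

/-- the projection -/
noncomputable def QQ.pr [Finite Γ] (ρ : Γ →* (V ≃ₗᵢ[ℝ] V)) (x : sphere (0 : V) 1) : QQ ρ :=
  SeparationQuotient.mk ⟨x⟩

theorem QQ.sf [Finite Γ] (ρ : Γ →* (V ≃ₗᵢ[ℝ] V)) : SF ρ (QQ ρ) (QQ.pr ρ) where
  surj := by
    intro m
    obtain ⟨⟨x⟩, rfl⟩ := SeparationQuotient.surjective_mk m
    exact ⟨x, rfl⟩
  lst := by
    intro x y
    have h0 : Dist.dist (QQ.pr ρ x) (QQ.pr ρ y) = ⨅ γ, angle (x : V) (ρ γ y) :=
      SeparationQuotient.dist_mk _ _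
    rw [h0]
    constructor
    · obtain ⟨γ, hγ⟩ := exists_eq_ciInf_of_finite (f := fun γ => angle (x : V) (ρ γ y))
      exact ⟨γ, hγ.symm⟩
    · rintro t ⟨γ, rfl⟩
      exact ciInf_le (Set.finite_range _).bddBelow γ

end Quot

end Pool.Agent.Helper39_SF
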