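import Pool.Agent.Helper39_SF.L_Quot

/-!
Isometries of quotients of spheres by free finite actions lift to linear isometries.
-/

open Module InnerProductGeometry Metric Topology

namespace Pool.Agent.Helper39_SF

section Lift

variable {V : Type*} [NormedAddCommGroup V] [InnerProductSpace ℝ V] [FiniteDimensional ℝ V]

/-- an inner product preserving map on a spanning set is the restriction of a linear isometry -/
theorem lin_ext (B : Set V) (hB : Submodule.span ℝ B = ⊤) (L : B → V)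
    (hL : ∀ x y : B, inner ℝ (L x) (L y) = inner ℝ (x : V) (y : V)) :
    ∃ A : V ≃ₗᵢ[ℝ] V, ∀ x : B, A x = L x := by
  classical
  let F : (B →₀ ℝ) →ₗ[ℝ] V := Finsupp.linearCombination ℝ (fun x : B => (x : V))
  let G : (B →₀ ℝ) →ₗ[ℝ] V := Finsupp.linearCombination ℝ L
  have hn : ∀ c, ‖F c‖ = ‖G c‖ := by
    intro c
    have : ‖F c‖ ^ 2 = ‖G c‖ ^ 2 := by
      rw [← real_inner_self_eq_norm_sq, ← real_inner_self_eq_norm_sq]
      simp only [F, G, Finsupp.linearCombination_apply, Finsupp.sum, sum_inner, inner_sum,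
        inner_smul_left, inner_smul_right, hL]
    exact (sq_eq_sq₀ (norm_nonneg _) (norm_nonneg _)).1 this
  have hF : Function.Surjective F := by
    rw [← LinearMap.range_eq_top, Finsupp.range_linearCombination]
    simpa using hB
  obtain ⟨s, hs⟩ := LinearMap.exists_rightInverse_of_surjective F (LinearMap.range_eq_top.2 hF)
  have hs' : ∀ v, F (s v) = v := fun v => congrArg (fun g : V →ₗ[ℝ] V => g v) hs
  have hFG : ∀ c, G (s (F c)) = G c := by
    intro c
    have : ‖G (s (F c) - c)‖ = 0 := by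
      rw [← hn, map_sub, hs', sub_self, norm_zero]
    rw [norm_eq_zero, map_sub, sub_eq_zero] at this
    exact this
  let A0 : V →ₗᵢ[ℝ] V :=
    { toLinearMap := G ∘ₗ s
      norm_map' := by
        intro v
        change ‖G (s v)‖ = ‖v‖
        rw [← hn, hs'] }
  refine ⟨A0.toLinearIsometryEquiv rfl, fun x => ?_⟩
  change G (s x) = L x
  have h1 : F (Finsupp.single x 1) = x := by simp [F]
  have h2 : G (Finsupp.single x 1) = L x := by simp [G]
  rw [← h2, ← hFG (Finsupp.single x 1), h1]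

/-- a finite union of subspaces which is a neighbourhood contains the whole space -/
theorem cover {ι : Type*} [Finite ι] (E : ι → Submodule ℝ V) (w : V)
    (h : ∀ᶠ v in 𝓝 w, ∃ i, v ∈ E i) : ∃ i, E i = ⊤ := by
  by_contra hcon
  push Not at hcon
  have hd : ∀ i, Dense ((E i : Set V)ᶜ) := by
    intro i
    rw [← interior_eq_empty_iff_dense_compl]
    by_contra hne
    exact hcon i (Submodule.eq_top_of_nonempty_interior' (E i)
      (Set.nonempty_iff_ne_empty.2 hne))
  have ho : ∀ i, IsOpen ((E i : Set V)ᶜ) := fun i =>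
    (Submodule.closed_of_finiteDimensional (E i)).isOpen_compl
  haveI : Countable ι := Finite.to_countable
  have hD : Dense (⋂ i, (E i : Set V)ᶜ) := dense_iInter_of_isOpen ho hd
  obtain ⟨v, hv1, hv2⟩ := hD.inter_nhds_nonempty h
  rw [Set.mem_iInter] at hv1
  obtain ⟨i, hi⟩ := hv2
  exact hv1 i hi

variable {Γ : Type*} [Group Γ]

/-- freeness on nonzero vectors -/
def Free (ρ : Γ →* (V ≃ₗᵢ[ℝ] V)) : Prop := ∀ γ v, v ≠ 0 → ρ γ v = v → γ = 1

theorem min_disp [Finite Γ] [Nontrivial V] {ρ : Γ →* (V ≃ₗᵢ[ℝ] V)} (hf : Free ρ) :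
    ∃ r : ℝ, 0 < r ∧ ∀ γ, γ ≠ 1 → ∀ x : sphere (0 : V) 1, 4 * r ≤ angle (x : V) (ρ γ x) := by
  have h1 : ∀ γ : Γ, ∃ r : ℝ, 0 < r ∧ (γ ≠ 1 → ∀ x : sphere (0 : V) 1,
      4 * r ≤ angle (x : V) (ρ γ x)) := by
    intro γ
    by_cases hγ : γ = 1
    · exact ⟨1, one_pos, fun h => absurd hγ h⟩
    · have hc : Continuous fun x : sphere (0 : V) 1 => angle (x : V) (ρ γ x) := by
        rw [continuous_iff_continuousAt]
        intro x
        have h2 : ContinuousAt (fun p : V × V => angle p.1 p.2) ((x : V), ρ γ x) :=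
          continuousAt_angle (x := ((x : V), ρ γ x)) (nz x) (by
            change ρ γ x ≠ 0
            rw [Ne, LinearIsometryEquiv.map_eq_zero_iff]
            exact nz x)
        exact ContinuousAt.comp (f := fun x : sphere (0 : V) 1 => ((x : V), ρ γ x)) h2
          (by fun_prop)
      haveI : Nonempty (sphere (0 : V) 1) := (NormedSpace.sphere_nonempty.2 zero_le_one).to_subtype
      obtain ⟨x₀, -, hx₀⟩ := isCompact_univ.exists_isMinOn (Set.univ_nonempty) hc.continuousOn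
      refine ⟨angle (x₀ : V) (ρ γ x₀) / 4, ?_, fun _ x => ?_⟩
      · have h3 : 0 ≤ angle (x₀ : V) (ρ γ x₀) := angle_nonneg _ _
        have h4 : angle (x₀ : V) (ρ γ x₀) ≠ 0 := by
          intro h0
          apply hγ
          apply hf γ x₀ (nz x₀)
          exact (eq_of_angle (nrm x₀) (by rw [(ρ γ).norm_map]; exact nrm x₀) h0).symm
        have : 0 < angle (x₀ : V) (ρ γ x₀) := lt_of_le_of_ne h3 (Ne.symm h4)
        positivity
      · have := hx₀ (Set.mem_univ x)
        change angle (x₀ : V) (ρ γ x₀) ≤ angle (x : V) (ρ γ x) at this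
        linarith
  choose r hr hr' using h1
  haveI := Fintype.ofFinite Γ
  obtain ⟨γ₀, hγ₀⟩ := Finite.exists_min r
  exact ⟨r γ₀, hr γ₀, fun γ hγ x => le_trans (by linarith [hγ₀ γ]) (hr' γ hγ x)⟩

variable {ρ : Γ →* (V ≃ₗᵢ[ℝ] V)} {M : Type*} [MetricSpace M] {π : sphere (0 : V) 1 → M}

theorem ball_dist (h : SF ρ M π) {r : ℝ}
    (hr : ∀ γ, γ ≠ 1 → ∀ x : sphere (0 : V) 1, 4 * r ≤ angle (x : V) (ρ γ x))
    (z a b : sphere (0 : V) 1) (ha : angle (z : V) a < r) (hb : angle (z : V) b < r) :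
    dist (π a) (π b) = angle (a : V) b := by
  apply le_antisymm (h.le' a b)
  obtain ⟨γ, hγ⟩ := h.ex a b
  by_cases h1 : γ = 1
  · subst h1
    rw [hγ, rho_one]
  · have h2 := hr γ h1 b
    have h3 := angle_le_angle_add_angle (b : V) a (ρ γ b)
    have h4 := angle_le_angle_add_angle (a : V) z b
    rw [angle_comm (a : V) z] at h4
    rw [angle_comm (b : V) a] at h3
    linarith

theorem span_ball (z : sphere (0 : V) 1) {r : ℝ} (hr : 0 < r) :
    Submodule.span ℝ {x : V | ‖x‖ = 1 ∧ angle (z : V) x < r} = ⊤ := by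
  have hc : ContinuousAt (fun v : V => angle (z : V) v) z := by
    have h2 : ContinuousAt (fun p : V × V => angle p.1 p.2) ((z : V), (z : V)) :=
      continuousAt_angle (x := ((z : V), (z : V))) (nz z) (nz z)
    exact ContinuousAt.comp (f := fun v : V => ((z : V), v)) h2 (by fun_prop)
  have h0 : angle (z : V) z < r := by rw [angle_self (nz z)]; exact hr
  have h1 : ∀ᶠ v in 𝓝 (z : V), angle (z : V) v < r := hc.eventually (gt_mem_nhds h0)
  have h2 : ∀ᶠ v in 𝓝 (z : V), v ≠ 0 := isOpen_ne.mem_nhds (nz z)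
  apply Submodule.eq_top_of_nonempty_interior'
  refine ⟨z, mem_interior_iff_mem_nhds.2 ?_⟩
  filter_upwards [h1, h2] with v hv1 hv2
  have hpos : 0 < ‖v‖ := norm_pos_iff.2 hv2
  have h3 : ‖v‖⁻¹ • v ∈ {x : V | ‖x‖ = 1 ∧ angle (z : V) x < r} := by
    refine ⟨?_, ?_⟩
    · rw [norm_smul, norm_inv, norm_norm, inv_mul_cancel₀ hpos.ne']
    · rw [angle_smul_right_of_pos _ _ (inv_pos.2 hpos)]
      exact hv1
  have h4 : v = ‖v‖ • (‖v‖⁻¹ • v) := by
    rw [smul_smul, mul_inv_cancel₀ hpos.ne', one_smul]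
  rw [SetLike.mem_coe, h4]
  exact Submodule.smul_mem _ _ (Submodule.subset_span h3)

theorem local_lift (h : SF ρ M π) {r : ℝ} (hr0 : 0 < r)
    (hr : ∀ γ, γ ≠ 1 → ∀ x : sphere (0 : V) 1, 4 * r ≤ angle (x : V) (ρ γ x))
    (φ : M ≃ᵢ M) (z : sphere (0 : V) 1) :
    ∃ A : V ≃ₗᵢ[ℝ] V, ∀ x : sphere (0 : V) 1, angle (z : V) x < r →
      φ (π x) = π (smap A.toLinearIsometry x) := by
  obtain ⟨z', hz'⟩ := h.surj (φ (π z))
  have hex : ∀ x : sphere (0 : V) 1, angle (z : V) x < r →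
      ∃ y : sphere (0 : V) 1, φ (π x) = π y ∧ angle (z' : V) y < r := by
    intro x hx
    obtain ⟨y, hy⟩ := h.surj (φ (π x))
    obtain ⟨γ, hγ⟩ := h.ex z' y
    refine ⟨⟨ρ γ y, by simp⟩, ?_, ?_⟩
    · rw [← hy, h.eq_iff]
      exact ⟨γ⁻¹, (rho_inv_apply' ρ γ _).symm⟩
    · change angle (z' : V) (ρ γ y) < r
      rw [← hγ, hz', hy, φ.dist_eq]
      exact lt_of_le_of_lt (h.le' z x) hx
  choose! L hL1 hL2 using hex
  let B : Set V := {x : V | ‖x‖ = 1 ∧ angle (z : V) x < r}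
  let toS : B → sphere (0 : V) 1 := fun x => ⟨x, by simpa using x.2.1⟩
  obtain ⟨A, hA⟩ := lin_ext B (span_ball z hr0) (fun x => (L (toS x) : V)) (by
    intro x y
    have hx : angle (z : V) (toS x) < r := x.2.2
    have hy : angle (z : V) (toS y) < r := y.2.2
    apply inner_of_angle (nrm _) (nrm _) x.2.1 y.2.1
    rw [← ball_dist h hr z' _ _ (hL2 _ hx) (hL2 _ hy), ← hL1 _ hx, ← hL1 _ hy, φ.dist_eq,
      ball_dist h hr z _ _ hx hy])
  refine ⟨A, fun x hx => ?_⟩
  rw [hL1 x hx]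
  congr 1
  ext
  have := hA ⟨x, nrm x, hx⟩
  exact this.symm

theorem global_lift [Finite Γ] (hV : 2 ≤ finrank ℝ V) (hf : Free ρ) (h : SF ρ M π)
    (φ : M ≃ᵢ M) :
    ∃ A : V ≃ₗᵢ[ℝ] V, ∀ x : sphere (0 : V) 1, φ (π x) = π (smap A.toLinearIsometry x) := by
  haveI : Nontrivial V := (Module.finrank_pos_iff (R := ℝ)).1 (by omega)
  obtain ⟨r, hr0, hr⟩ := min_disp hf
  haveI : Nonempty (sphere (0 : V) 1) := (NormedSpace.sphere_nonempty.2 zero_le_one).to_subtype
  obtain ⟨z₀⟩ : Nonempty (sphere (0 : V) 1) := inferInstance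
  obtain ⟨A, hA⟩ := local_lift h hr0 hr φ z₀
  refine ⟨A, ?_⟩
  haveI : PreconnectedSpace (sphere (0 : V) 1) := by
    apply Subtype.preconnectedSpace
    apply isPreconnected_sphere
    rw [← finrank_eq_rank]
    exact_mod_cast hV
  let G : Set (sphere (0 : V) 1) := {x | φ (π x) = π (smap A.toLinearIsometry x)}
  have hball : ∀ z : sphere (0 : V) 1, {x : sphere (0 : V) 1 | angle (z : V) x < r} ∈ 𝓝 z := by
    intro z
    have hc : ContinuousAt (fun v : sphere (0 : V) 1 => angle (z : V) v) z := by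
      have h2 : ContinuousAt (fun p : V × V => angle p.1 p.2) ((z : V), (z : V)) :=
        continuousAt_angle (x := ((z : V), (z : V))) (nz z) (nz z)
      exact ContinuousAt.comp (f := fun v : sphere (0 : V) 1 => ((z : V), (v : V))) h2
        (by fun_prop)
    have h0 : angle (z : V) z < r := by rw [angle_self (nz z)]; exact hr0
    exact hc.eventually (gt_mem_nhds h0)
  have hopen : IsOpen (interior G) := isOpen_interior
  have hclosed : IsClosed (interior G) := by
    apply isClosed_of_closure_subset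
    intro z hz
    obtain ⟨C, hC⟩ := local_lift h hr0 hr φ z
    obtain ⟨w, hw1, hw2⟩ := mem_closure_iff_nhds.1 hz _ (interior_mem_nhds.2 (hball z))
    -- near w both descriptions hold
    have hO : ∀ᶠ x in 𝓝 w, x ∈ G ∧ angle (z : V) (x : V) < r := by
      have e1 : ∀ᶠ x in 𝓝 w, x ∈ G := mem_interior_iff_mem_nhds.1 hw2
      have e2 : ∀ᶠ x : sphere (0 : V) 1 in 𝓝 w, angle (z : V) (x : V) < r :=
        mem_interior_iff_mem_nhds.1 hw1
      exact e1.and e2
    let E : Γ → Submodule ℝ V := fun γ =>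
      LinearMap.ker (A.toLinearEquiv.toLinearMap -
        (ρ γ).toLinearEquiv.toLinearMap ∘ₗ C.toLinearEquiv.toLinearMap)
    have hE : ∀ γ v, v ∈ E γ ↔ A v = ρ γ (C v) := by
      intro γ v
      simp only [E, LinearMap.mem_ker, LinearMap.sub_apply, LinearMap.comp_apply]
      rw [sub_eq_zero]
      rfl
    have hcov : ∃ γ, E γ = ⊤ := by
      apply cover E (w : V)
      have hnorm : ContinuousAt (fun v : V => ‖v‖⁻¹ • v) (w : V) := by
        apply ContinuousAt.smul
        · exact ContinuousAt.inv₀ continuous_norm.continuousAt (by rw [nrm w]; exact one_ne_zero)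
        · exact continuousAt_id
      have hval : (fun v : V => ‖v‖⁻¹ • v) (w : V) = w := by
        simp only [nrm w, inv_one, one_smul]
      -- transfer to V
      have hO' : ∃ O : Set V, IsOpen O ∧ (w : V) ∈ O ∧ ∀ x : sphere (0 : V) 1, (x : V) ∈ O →
          x ∈ G ∧ angle (z : V) (x : V) < r := by
        obtain ⟨t, ht, hto, hwt⟩ := _root_.mem_nhds_iff.1 hO
        obtain ⟨O, hO1, hO2⟩ := isOpen_induced_iff.1 hto
        refine ⟨O, hO1, ?_, fun x hx => ht ?_⟩
        · have : w ∈ (Subtype.val ⁻¹' O : Set (sphere (0 : V) 1)) := by rw [hO2]; exact hwt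
          exact this
        · rw [← hO2]; exact hx
      obtain ⟨O, hO1, hO2, hO3⟩ := hO'
      have e1 : ∀ᶠ v in 𝓝 (w : V), ‖v‖⁻¹ • v ∈ O := by
        apply hnorm.eventually
        rw [hval]
        exact hO1.mem_nhds hO2
      have e2 : ∀ᶠ v in 𝓝 (w : V), v ≠ 0 := isOpen_ne.mem_nhds (nz w)
      filter_upwards [e1, e2] with v hv1 hv2
      have hpos : 0 < ‖v‖ := norm_pos_iff.2 hv2
      let x : sphere (0 : V) 1 := ⟨‖v‖⁻¹ • v, by
        rw [mem_sphere_zero_iff_norm, norm_smul, norm_inv, norm_norm, inv_mul_cancel₀ hpos.ne']⟩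
      obtain ⟨hx1, hx2⟩ := hO3 x hv1
      have h5 : π (smap A.toLinearIsometry x) = π (smap C.toLinearIsometry x) := by
        rw [← hC x hx2]
        exact hx1.symm
      obtain ⟨γ, hγ⟩ := (h.eq_iff _ _).1 h5
      refine ⟨γ, ?_⟩
      rw [hE]
      have h6 : A (‖v‖⁻¹ • v) = ρ γ (C (‖v‖⁻¹ • v)) := hγ
      rw [map_smul, map_smul, map_smul] at h6
      exact smul_right_injective V (inv_pos.2 hpos).ne' h6
    obtain ⟨γ, hγ⟩ := hcov
    rw [mem_interior_iff_mem_nhds]
    filter_upwards [hball z] with x hx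
    change φ (π x) = π (smap A.toLinearIsometry x)
    rw [hC x hx, h.eq_iff]
    refine ⟨γ⁻¹, ?_⟩
    have h7 : (x : V) ∈ E γ := by rw [hγ]; trivial
    rw [hE] at h7
    change C x = ρ γ⁻¹ (A x)
    rw [h7, rho_inv_apply']
  have hne : (interior G).Nonempty := by
    refine ⟨z₀, mem_interior_iff_mem_nhds.2 ?_⟩
    filter_upwards [hball z₀] with x hx
    exact hA x hx
  have huniv : interior G = Set.univ := IsClopen.eq_univ ⟨hclosed, hopen⟩ hne
  intro x
  have hx : x ∈ interior G := by rw [huniv]; trivial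
  have hx' : x ∈ G := interior_subset hx
  exact hx'

/-- a lift normalises the group -/
theorem lift_norm [Finite Γ] [Nontrivial V] (hf : Free ρ) (h : SF ρ M π) (φ : M ≃ᵢ M)
    (A : V ≃ₗᵢ[ℝ] V) (hA : ∀ x : sphere (0 : V) 1, φ (π x) = π (smap A.toLinearIsometry x)) :
    ∃ α : Γ ≃* Γ, ∀ γ v, A (ρ γ v) = ρ (α γ) (A v) := by
  obtain ⟨w, hw⟩ := exists_ne (0 : V)
  have hinj : ∀ γ₁ γ₂ : Γ, (∀ v, ρ γ₁ v = ρ γ₂ v) → γ₁ = γ₂ := by
    intro γ₁ γ₂ h12
    have : γ₁⁻¹ * γ₂ = 1 := by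
      apply hf _ w hw
      rw [rho_mul, ← h12, rho_inv_apply']
    exact (inv_mul_eq_one.1 this)
  have hex : ∀ γ, ∃ γ', ∀ v, A (ρ γ v) = ρ γ' (A v) := by
    intro γ
    let E : Γ → Submodule ℝ V := fun γ' =>
      LinearMap.ker (A.toLinearEquiv.toLinearMap ∘ₗ (ρ γ).toLinearEquiv.toLinearMap -
        (ρ γ').toLinearEquiv.toLinearMap ∘ₗ A.toLinearEquiv.toLinearMap)
    have hE : ∀ γ' v, v ∈ E γ' ↔ A (ρ γ v) = ρ γ' (A v) := by
      intro γ' v
      simp only [E, LinearMap.mem_ker, LinearMap.sub_apply, LinearMap.comp_apply]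
      rw [sub_eq_zero]
      rfl
    obtain ⟨γ', hγ'⟩ := cover E w (by
      have e2 : ∀ᶠ v in 𝓝 w, v ≠ 0 := isOpen_ne.mem_nhds hw
      filter_upwards [e2] with v hv
      have hpos : 0 < ‖v‖ := norm_pos_iff.2 hv
      let x : sphere (0 : V) 1 := ⟨‖v‖⁻¹ • v, by
        rw [mem_sphere_zero_iff_norm, norm_smul, norm_inv, norm_norm, inv_mul_cancel₀ hpos.ne']⟩
      have h1 : π x = π (smap (ρ γ).toLinearIsometry x) := by
        rw [h.eq_iff]
        exact ⟨γ⁻¹, (rho_inv_apply' ρ γ _).symm⟩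
      have h2 : π (smap A.toLinearIsometry (smap (ρ γ).toLinearIsometry x)) =
          π (smap A.toLinearIsometry x) := by
        rw [← hA, ← hA, ← h1]
      obtain ⟨γ', hγ'⟩ := (h.eq_iff _ _).1 h2
      refine ⟨γ', ?_⟩
      rw [hE]
      have h6 : A (ρ γ (‖v‖⁻¹ • v)) = ρ γ' (A (‖v‖⁻¹ • v)) := hγ'
      rw [map_smul, map_smul, map_smul, map_smul] at h6
      exact smul_right_injective V (inv_pos.2 hpos).ne' h6)
    refine ⟨γ', fun v => ?_⟩
    rw [← hE, hγ']
    trivial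
  choose a ha using hex
  have hmul : ∀ γ₁ γ₂, a (γ₁ * γ₂) = a γ₁ * a γ₂ := by
    intro γ₁ γ₂
    apply hinj
    intro v
    have h1 := ha (γ₁ * γ₂) (A.symm v)
    rw [A.apply_symm_apply, rho_mul, ha, ha, A.apply_symm_apply] at h1
    rw [← h1, rho_mul]
  let f : Γ →* Γ := MonoidHom.mk' a hmul
  have hfi : Function.Injective f := by
    intro γ₁ γ₂ h12
    have h12' : a γ₁ = a γ₂ := h12
    apply hinj
    intro v
    apply A.injective
    rw [ha, ha, h12']
  exact ⟨MulEquiv.ofBijective f (Finite.injective_iff_bijective.1 hfi), fun γ v => ha γ v⟩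

end Lift

end Pool.Agent.Helper39_SF
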