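import Pool.Agent.Helper39_SF.A_Defs
import Pool.Agent.Helper39_SF.M_Lift

/-!
Orbit spaces along the chain.
-/

open Module InnerProductGeometry Metric Topology

namespace Pool.Agent.Helper39_SF

/-- abstract comparison of orbit spaces -/
theorem orbit_abstract {M M' : Type*} [MetricSpace M] [MetricSpace M'] (κ : M → M')
    (hκ : Isometry κ)
    (hext : ∀ ψ : M ≃ᵢ M, ∃ φ : M' ≃ᵢ M', ∀ p, φ (κ p) = κ (ψ p))
    (hmove : ∀ q : M', ∃ (φ : M' ≃ᵢ M') (p : M), φ q = κ p)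
    (hcmp : ∀ (φ : M' ≃ᵢ M') (p p' : M), ∃ ψ : M ≃ᵢ M, dist p (ψ p') ≤ dist (κ p) (φ (κ p'))) :
    IsometricOrbitSpaces M M' := by
  let f : OrbitSpace M → OrbitSpace M' := Quotient.map κ (by
    rintro p p' ⟨ψ, rfl⟩
    obtain ⟨φ, hφ⟩ := hext ψ
    exact ⟨φ, hφ p⟩)
  have hf : ∀ p : M, f (Quotient.mk (orbitSetoid M) p) = Quotient.mk (orbitSetoid M') (κ p) :=
    fun p => rfl
  have hinj : Function.Injective f := by
    intro a b
    induction a using Quotient.inductionOn with | _ p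
    induction b using Quotient.inductionOn with | _ p'
    intro hab
    have h1 : (Quotient.mk (orbitSetoid M') (κ p')) = Quotient.mk (orbitSetoid M') (κ p) :=
      hab.symm
    obtain ⟨φ, hφ⟩ := Quotient.exact h1
    obtain ⟨ψ, hψ⟩ := hcmp φ p p'
    rw [hφ, dist_self] at hψ
    have h2 : p = ψ p' := dist_le_zero.1 hψ
    apply Quotient.sound
    exact ⟨ψ.symm, by rw [h2, ψ.symm_apply_apply]⟩
  have hsurj : Function.Surjective f := by
    intro b
    induction b using Quotient.inductionOn with | _ q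
    obtain ⟨φ, p, hp⟩ := hmove q
    refine ⟨Quotient.mk _ p, ?_⟩
    rw [hf]
    apply Quotient.sound
    exact ⟨φ.symm, by rw [← hp, φ.symm_apply_apply]⟩
  refine ⟨Equiv.ofBijective f ⟨hinj, hsurj⟩, ?_⟩
  intro a b
  change orbitDist (f a) (f b) = orbitDist a b
  induction a using Quotient.inductionOn with | _ p
  induction b using Quotient.inductionOn with | _ p'
  rw [hf, hf]
  unfold orbitDist
  apply le_antisymm
  · apply csInf_le_csInf
    · refine ⟨0, ?_⟩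
      rintro t ⟨x, y, -, -, rfl⟩
      exact dist_nonneg
    · exact ⟨_, p, p', rfl, rfl, rfl⟩
    · rintro t ⟨x, y, hx, hy, rfl⟩
      refine ⟨κ x, κ y, ?_, ?_, (hκ.dist_eq x y).symm⟩
      · rw [← hf, hx, hf]
      · rw [← hf, hy, hf]
  · apply le_csInf
    · exact ⟨_, κ p, κ p', rfl, rfl, rfl⟩
    · rintro t ⟨x, y, hx, hy, rfl⟩
      obtain ⟨φ₁, h1⟩ := Quotient.exact hx
      obtain ⟨φ₂, h2⟩ := Quotient.exact hy
      obtain ⟨ψ, hψ⟩ := hcmp (φ₂.symm.trans φ₁) p p'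
      have h3 : dist (κ p) ((φ₂.symm.trans φ₁) (κ p')) = dist x y := by
        change dist (κ p) (φ₁ (φ₂.symm (κ p'))) = dist x y
        rw [← h1, φ₁.dist_eq, ← h2, φ₂.symm_apply_apply]
      refine le_trans (csInf_le ⟨0, ?_⟩ ?_) (hψ.trans h3.le)
      · rintro t ⟨x, y, -, -, rfl⟩
        exact dist_nonneg
      · refine ⟨p, ψ p', rfl, ?_, rfl⟩
        apply Quotient.sound
        exact ⟨ψ.symm, ψ.symm_apply_apply p'⟩

section

variable {Γ : Type} [Group Γ] [Finite Γ]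
variable {V : Type} [NormedAddCommGroup V] [InnerProductSpace ℝ V] [FiniteDimensional ℝ V]
variable {W : Type} [NormedAddCommGroup W] [InnerProductSpace ℝ W] [FiniteDimensional ℝ W]

theorem orbit_chain {ρ : Γ →* (V ≃ₗᵢ[ℝ] V)} {τ : Γ →* (W ≃ₗᵢ[ℝ] W)}
    (hV : 2 ≤ finrank ℝ V) (hfree : Free ρ)
    (h2 : ∀ (v : V) (w : W), ∃ v' : V, ∀ γ, coef ρ v' γ = coef ρ v γ + coef τ w γ)
    (h3 : ∀ α : Γ ≃* Γ, Realised ρ α → Realised τ α)
    (m : ℕ) (hm : finrank ℝ V * finrank ℝ V < m ∨ m = 0)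
    {M M' : Type*} [MetricSpace M] [MetricSpace M'] {π : sphere (0 : V) 1 → M}
    {π' : sphere (0 : RR V W m) 1 → M'} (hM : SF ρ M π) (hM' : SF (rr ρ τ m) M' π') :
    IsometricOrbitSpaces M M' := by
  haveI : Nontrivial V := (Module.finrank_pos_iff (R := ℝ)).1 (by omega)
  have hV' : 2 ≤ finrank ℝ (RR V W m) := by rw [finrank_RR]; omega
  haveI : Nontrivial (RR V W m) := (Module.finrank_pos_iff (R := ℝ)).1 (by omega)
  have hfree' : Free (rr ρ τ m) := free_rr h2 hfree m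
  obtain ⟨κ, hκ, hκ'⟩ := hM.induced hM' (jj V W m) (MulEquiv.refl Γ) (jj_rr ρ τ m)
  apply orbit_abstract κ hκ
  · intro ψ
    obtain ⟨A, hA⟩ := global_lift hV hfree hM ψ
    obtain ⟨α, hα⟩ := lift_norm hfree hM ψ A hA
    obtain ⟨B, hB1, hB2⟩ := extend_rr h3 m α A hα
    obtain ⟨φ, hφ⟩ := hM'.inducedEquiv hM' B α hB1
    refine ⟨φ, fun p => ?_⟩
    obtain ⟨x, rfl⟩ := hM.surj p
    rw [hκ', hφ, hA, hκ']
    congr 1
    ext1
    exact hB2 x
  · intro q
    obtain ⟨z, rfl⟩ := hM'.surj q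
    obtain ⟨U, v, hU1, hU2⟩ := move_rr h2 m (z : RR V W m)
    obtain ⟨φ, hφ⟩ := hM'.inducedEquiv hM' U (MulEquiv.refl Γ) hU1
    have hv : ‖v‖ = 1 := by
      rw [← (jj V W m).norm_map v, ← hU2, U.norm_map]
      exact nrm z
    refine ⟨φ, π ⟨v, by simpa using hv⟩, ?_⟩
    rw [hφ, hκ']
    congr 1
    ext1
    exact hU2
  · intro φ p p'
    obtain ⟨x, rfl⟩ := hM.surj p
    obtain ⟨y, rfl⟩ := hM.surj p'
    obtain ⟨B, hB⟩ := global_lift hV' hfree' hM' φ
    obtain ⟨α, hα⟩ := lift_norm hfree' hM' φ B hB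
    obtain ⟨γ₀, hγ₀⟩ := hM'.ex (smap (jj V W m) x) (smap B.toLinearIsometry (smap (jj V W m) y))
    -- adjust the lift by the group element
    let C : RR V W m ≃ₗᵢ[ℝ] RR V W m := B.trans (rr ρ τ m γ₀)
    let β : Γ ≃* Γ := α.trans (MulAut.conj γ₀)
    have hC : ∀ γ z, C (rr ρ τ m γ z) = rr ρ τ m (β γ) (C z) := by
      intro γ z
      change rr ρ τ m γ₀ (B (rr ρ τ m γ z)) = rr ρ τ m (γ₀ * α γ * γ₀⁻¹) (rr ρ τ m γ₀ (B z))
      rw [hα, ← rho_mul, ← rho_mul]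
      congr 1
      group
    obtain ⟨A, hA1, hA2⟩ := compare_rr m β C hC (realised_rr m hm β ⟨C, hC⟩) x y
    obtain ⟨ψ, hψ⟩ := hM.inducedEquiv hM A β hA1
    refine ⟨ψ, ?_⟩
    rw [hψ, hκ', hκ', hB, hγ₀]
    refine (hM.le' _ _).trans ?_
    change angle (x : V) (A y) ≤ angle (jj V W m x) (C (jj V W m y))
    unfold InnerProductGeometry.angle
    apply Real.arccos_le_arccos
    rw [A.norm_map, C.norm_map, (jj V W m).norm_map, (jj V W m).norm_map, nrm x, nrm y]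
    simpa using hA2

end

end Pool.Agent.Helper39_SF
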