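import Pool.Agent.Helper39_SF.N_Orbit

/-!
The Hausdorff dimension of the orbits of the isometry group.
-/

open Module InnerProductGeometry Metric Topology

namespace Pool.Agent.Helper39_SF

section

variable {Γ : Type*} [Group Γ]
variable {V : Type*} [NormedAddCommGroup V] [InnerProductSpace ℝ V] [FiniteDimensional ℝ V]

/-- commuting with the representation -/
def Cm (ρ : Γ →* (V ≃ₗᵢ[ℝ] V)) (U : V ≃ₗᵢ[ℝ] V) : Prop := ∀ γ v, U (ρ γ v) = ρ γ (U v)

theorem skew_inj {ρ : Γ →* (V ≃ₗᵢ[ℝ] V)} {X : V →ₗ[ℝ] V} (hX : X ∈ sk ρ) (v : V)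
    (h : v + X v = 0) : v = 0 := by
  have h1 : inner ℝ (X v) v = 0 := by
    have := hX.2 v v
    rw [real_inner_comm v (X v)] at this
    have h2 : inner ℝ v (X v) = 0 := by linarith
    rw [real_inner_comm]; exact h2
  have h3 : inner ℝ (v + X v) v = 0 := by rw [h, inner_zero_left]
  rw [inner_add_left, h1, add_zero, real_inner_self_eq_norm_sq] at h3
  simpa using h3

/-- orthogonal maps near the identity are Cayley transforms -/
theorem cayley_loc (ρ : Γ →* (V ≃ₗᵢ[ℝ] V)) (y : V) :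
    dimH {z : V | ∃ R : V ≃ₗᵢ[ℝ] V, Cm ρ R ∧ (∀ v, ‖R v - v‖ ≤ 1 / 2 * ‖v‖) ∧ R y = z} ≤
      sd ρ := by
  let b := (finBasis ℝ (sk ρ)).equivFun.symm
  let a0 : (Fin (finrank ℝ (sk ρ)) → ℝ) →ₗ[ℝ] (V →L[ℝ] V) :=
    LinearMap.toContinuousLinearMap.toLinearMap ∘ₗ (sk ρ).subtype ∘ₗ b.toLinearMap
  let a := LinearMap.toContinuousLinearMap a0
  have ha : ∀ t v, a t v = (b t).1 v := fun t v => rfl
  have hu : ∀ t, IsUnit (1 + a t) := by
    intro t
    rw [ContinuousLinearMap.isUnit_iff_bijective]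
    have hinj : Function.Injective ((1 + a t : V →L[ℝ] V) : V → V) := by
      rw [injective_iff_map_eq_zero]
      intro v hv
      exact skew_inj (b t).2 v hv
    exact ⟨hinj, (LinearMap.injective_iff_surjective (f := (1 + a t : V →L[ℝ] V).toLinearMap)).1 hinj⟩
  let g : (Fin (finrank ℝ (sk ρ)) → ℝ) → V := fun t => ((1 - a t) * Ring.inverse (1 + a t)) y
  have hg : ContDiff ℝ 1 g := by
    have h1 : ContDiff ℝ 1 (fun t => (1 - a t) * Ring.inverse (1 + a t)) := by
      apply ContDiff.mul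
      · exact contDiff_const.sub a.contDiff
      · rw [contDiff_iff_contDiffAt]
        intro t
        have h2 : ContDiffAt ℝ 1 (Ring.inverse : (V →L[ℝ] V) → (V →L[ℝ] V)) (1 + a t) := by
          obtain ⟨u, hu'⟩ := hu t
          rw [← hu']
          exact contDiffAt_ringInverse ℝ u
        exact h2.comp t (contDiff_const.add a.contDiff).contDiffAt
    exact h1.clm_apply contDiff_const
  have hsub : {z : V | ∃ R : V ≃ₗᵢ[ℝ] V, Cm ρ R ∧ (∀ v, ‖R v - v‖ ≤ 1 / 2 * ‖v‖) ∧ R y = z} ⊆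
      Set.range g := by
    rintro z ⟨R, hR, hn, rfl⟩
    -- invert 1 + R
    let Rl : V →ₗ[ℝ] V := R.toLinearEquiv.toLinearMap
    have hRl : ∀ v, Rl v = R v := fun v => rfl
    let P : V →ₗ[ℝ] V := LinearMap.id + Rl
    have hP : ∀ v, P v = v + R v := fun v => rfl
    have hPinj : Function.Injective P := by
      rw [injective_iff_map_eq_zero]
      intro v hv
      rw [hP] at hv
      have h1 : R v - v = - (2 : ℝ) • v := by
        have : R v = - v := by rw [← add_eq_zero_iff_neg_eq.1 hv]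
        rw [this, neg_smul, two_smul]
        abel
      have h2 := hn v
      rw [h1, norm_smul] at h2
      norm_num at h2
      have h3 : ‖v‖ = 0 := by linarith [norm_nonneg v]
      simpa using h3
    let e := LinearEquiv.ofInjectiveEndo P hPinj
    have he : ∀ v, e v = v + R v := fun v => rfl
    let X : V →ₗ[ℝ] V := (LinearMap.id - Rl) ∘ₗ e.symm.toLinearMap
    have hXe : ∀ v, X (v + R v) = v - R v := by
      intro v
      change (e.symm (v + R v)) - R (e.symm (v + R v)) = v - R v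
      rw [← he, e.symm_apply_apply]
    have hsurj : ∀ u : V, ∃ v, u = v + R v := fun u => ⟨e.symm u, by rw [← he, e.apply_symm_apply]⟩
    have hX : X ∈ sk ρ := by
      refine ⟨?_, ?_⟩
      · intro γ u
        obtain ⟨v, rfl⟩ := hsurj u
        rw [hXe, map_add, ← hR, hXe, map_sub, hR]
      · intro u u'
        obtain ⟨v, rfl⟩ := hsurj u
        obtain ⟨v', rfl⟩ := hsurj u'
        rw [hXe, hXe]
        simp only [inner_add_left, inner_add_right, inner_sub_left, inner_sub_right,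
          R.inner_map_map]
        ring
    refine ⟨b.symm ⟨X, hX⟩, ?_⟩
    have haX : ∀ v, a (b.symm ⟨X, hX⟩) v = X v := by
      intro v
      rw [ha, LinearEquiv.apply_symm_apply]
    set t := b.symm ⟨X, hX⟩
    let u : V := (1 / 2 : ℝ) • (y + R y)
    have hu1 : (1 + a t) u = y := by
      change u + a t u = y
      rw [haX]
      simp only [u, map_smul, hXe]
      rw [← smul_add]
      have : y + R y + (y - R y) = (2 : ℝ) • y := by rw [two_smul]; abel
      rw [this, smul_smul]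
      norm_num
    have hu2 : (1 - a t) u = R y := by
      change u - a t u = R y
      rw [haX]
      simp only [u, map_smul, hXe]
      rw [← smul_sub]
      have : y + R y - (y - R y) = (2 : ℝ) • R y := by rw [two_smul]; abel
      rw [this, smul_smul]
      norm_num
    have hu3 : Ring.inverse (1 + a t) y = u := by
      have h5 : Ring.inverse (1 + a t) * (1 + a t) = 1 := Ring.inverse_mul_cancel _ (hu t)
      have h6 := congrArg (fun f : V →L[ℝ] V => f u) h5
      change Ring.inverse (1 + a t) ((1 + a t) u) = u at h6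
      rw [hu1] at h6
      exact h6
    change (1 - a t) (Ring.inverse (1 + a t) y) = R y
    rw [hu3, hu2]
  calc _ ≤ dimH (Set.range g) := dimH_mono hsub
    _ ≤ finrank ℝ (Fin (finrank ℝ (sk ρ)) → ℝ) := hg.dimH_range_le
    _ = _ := by simp [sd]

/-- orbits of the orthogonal commutant -/
theorem dim_comm (ρ : Γ →* (V ≃ₗᵢ[ℝ] V)) (y : V) :
    dimH {z : V | ∃ U : V ≃ₗᵢ[ℝ] V, Cm ρ U ∧ U y = z} ≤ sd ρ := by
  haveI : ProperSpace (V →L[ℝ] V) := FiniteDimensional.proper ℝ _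
  let toL : (V ≃ₗᵢ[ℝ] V) → (V →L[ℝ] V) := fun U => U.toContinuousLinearEquiv.toContinuousLinearMap
  let K : Set (V →L[ℝ] V) := {f | ∃ U : V ≃ₗᵢ[ℝ] V, Cm ρ U ∧ toL U = f}
  obtain ⟨D, hDc, hDd⟩ := TopologicalSpace.exists_countable_dense K
  have hch : ∀ f : K, ∃ U : V ≃ₗᵢ[ℝ] V, Cm ρ U ∧ toL U = f.1 := fun f => f.2
  choose u hu1 hu2 using hch
  have hsub : {z : V | ∃ U : V ≃ₗᵢ[ℝ] V, Cm ρ U ∧ U y = z} ⊆
      ⋃ f ∈ D, (u f) '' {z : V | ∃ R : V ≃ₗᵢ[ℝ] V, Cm ρ R ∧
        (∀ v, ‖R v - v‖ ≤ 1 / 2 * ‖v‖) ∧ R y = z} := by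
    rintro z ⟨U, hU, rfl⟩
    obtain ⟨f, hfD, hf⟩ := hDd.exists_dist_lt (⟨toL U, U, hU, rfl⟩ : K)
      (show (0 : ℝ) < 1 / 2 by norm_num)
    have hn : ∀ v, ‖U v - u f v‖ ≤ 1 / 2 * ‖v‖ := by
      intro v
      have h1 : ‖toL U - f.1‖ ≤ 1 / 2 := by
        have h0 : dist (toL U) f.1 < 1 / 2 := hf
        rw [dist_eq_norm] at h0
        exact h0.le
      have h2 := (toL U - f.1).le_of_opNorm_le h1 v
      rw [← hu2 f] at h2
      exact h2
    rw [Set.mem_iUnion₂]
    refine ⟨f, hfD, (u f).symm (U y), ⟨U.trans (u f).symm, ?_, ?_, rfl⟩, ?_⟩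
    · intro γ v
      change (u f).symm (U (ρ γ v)) = ρ γ ((u f).symm (U v))
      rw [LinearIsometryEquiv.symm_apply_eq, hu1 f, LinearIsometryEquiv.apply_symm_apply, hU]
    · intro v
      have : (U.trans (u f).symm) v - v = (u f).symm (U v - u f v) := by
        rw [map_sub, LinearIsometryEquiv.symm_apply_apply]
        rfl
      rw [this, LinearIsometryEquiv.norm_map]
      exact hn v
    · exact LinearIsometryEquiv.apply_symm_apply _ _
  refine (dimH_mono hsub).trans ?_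
  rw [dimH_bUnion hDc]
  refine iSup₂_le fun f _ => ?_
  rw [(u f).isometry.dimH_image]
  exact cayley_loc ρ y

end

section

variable {V : Type*} [NormedAddCommGroup V] [InnerProductSpace ℝ V]

theorem angle_le_dist {x y : V} (hx : ‖x‖ = 1) (hy : ‖y‖ = 1) :
    angle x y ≤ Real.pi / 2 * ‖x - y‖ := by
  set θ := angle x y with hθ
  have h0 : 0 ≤ θ := angle_nonneg _ _
  have hpi : θ ≤ Real.pi := angle_le_pi _ _
  have h1 : inner ℝ x y = Real.cos θ := by
    rw [← cos_angle_mul_norm_mul_norm, hx, hy]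
    simp [hθ]
  have h2 : ‖x - y‖ ^ 2 = (2 * Real.sin (θ / 2)) ^ 2 := by
    rw [norm_sub_sq_real, h1, hx, hy, mul_pow, Real.sin_sq_eq_half_sub]
    have : 2 * (θ / 2) = θ := by ring
    rw [this]
    ring
  have hs : 0 ≤ Real.sin (θ / 2) := Real.sin_nonneg_of_nonneg_of_le_pi (by linarith) (by linarith)
  have h3 : ‖x - y‖ = 2 * Real.sin (θ / 2) :=
    (sq_eq_sq₀ (norm_nonneg _) (by positivity)).1 h2
  have h4 := Real.mul_le_sin (x := θ / 2) (by linarith) (by linarith)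
  have hp := Real.pi_pos
  rw [h3]
  have h5 : 2 / Real.pi * (θ / 2) * Real.pi = θ := by
    field_simp
  nlinarith [mul_le_mul_of_nonneg_right h4 hp.le]

end

section

variable {Γ : Type} [Group Γ] [Finite Γ]
variable {V : Type} [NormedAddCommGroup V] [InnerProductSpace ℝ V] [FiniteDimensional ℝ V]
variable {ρ : Γ →* (V ≃ₗᵢ[ℝ] V)} {M : Type*} [MetricSpace M] {π : sphere (0 : V) 1 → M}

theorem SF.lipschitz (h : SF ρ M π) : LipschitzWith (Real.toNNReal (Real.pi / 2)) π := by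
  apply LipschitzWith.of_dist_le_mul
  intro x y
  rw [Real.coe_toNNReal _ (by positivity)]
  refine (h.le' x y).trans ?_
  refine (angle_le_dist (nrm x) (nrm y)).trans (le_of_eq ?_)
  rw [← dist_eq_norm]
  rfl

theorem dim_orbit (hV : 2 ≤ finrank ℝ V) (hfree : Free ρ) (h : SF ρ M π) (p : M) :
    dimH {q : M | ∃ φ : M ≃ᵢ M, φ p = q} ≤ sd ρ := by
  haveI : Nontrivial V := (Module.finrank_pos_iff (R := ℝ)).1 (by omega)
  haveI : Finite (Γ ≃* Γ) := Finite.of_injective (fun e : Γ ≃* Γ => (e : Γ → Γ))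
    (fun a b hab => MulEquiv.ext fun x => congrFun hab x)
  obtain ⟨x, rfl⟩ := h.surj p
  let 𝒜 := {α : Γ ≃* Γ // Realised ρ α}
  have hA : ∀ α : 𝒜, ∃ A : V ≃ₗᵢ[ℝ] V, ∀ γ v, A (ρ γ v) = ρ (α.1 γ) (A v) := fun α => α.2
  choose A hA using hA
  let S : 𝒜 → Set (sphere (0 : V) 1) := fun α =>
    {y | ∃ U : V ≃ₗᵢ[ℝ] V, Cm ρ U ∧ A α (U x) = y}
  have hS : ∀ α, dimH (S α) ≤ sd ρ := by
    intro α
    rw [← (isometry_subtype_coe (s := sphere (0 : V) 1)).dimH_image (S α)]
    refine (dimH_mono (t := (A α) '' {z : V | ∃ U : V ≃ₗᵢ[ℝ] V, Cm ρ U ∧ U x = z}) ?_).trans ?_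
    · rintro _ ⟨y, ⟨U, hU, hy⟩, rfl⟩
      exact ⟨U x, ⟨U, hU, rfl⟩, hy⟩
    · rw [(A α).isometry.dimH_image]
      exact dim_comm ρ x
  have hsub : {q : M | ∃ φ : M ≃ᵢ M, φ (π x) = q} ⊆ ⋃ α, π '' S α := by
    rintro q ⟨φ, rfl⟩
    obtain ⟨B, hB⟩ := global_lift hV hfree h φ
    obtain ⟨α, hα⟩ := lift_norm hfree h φ B hB
    rw [Set.mem_iUnion]
    refine ⟨⟨α, B, hα⟩, smap B.toLinearIsometry x, ?_, (hB x).symm⟩
    refine ⟨B.trans (A ⟨α, B, hα⟩).symm, ?_, ?_⟩
    · intro γ v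
      change (A ⟨α, B, hα⟩).symm (B (ρ γ v)) = ρ γ ((A ⟨α, B, hα⟩).symm (B v))
      rw [LinearIsometryEquiv.symm_apply_eq, hA, LinearIsometryEquiv.apply_symm_apply, hα]
    · exact LinearIsometryEquiv.apply_symm_apply _ _
  refine (dimH_mono hsub).trans ?_
  rw [dimH_iUnion]
  exact iSup_le fun α => (h.lipschitz.dimH_image_le _).trans (hS α)

end

end Pool.Agent.Helper39_SF
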