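import Pool.Agent.Helper39_SF.K_Chain

/-!
The infinite sphere: the union of the unit spheres of the chain with the direct limit
topology is contractible.
-/

open Module Metric Topology unitInterval

namespace Pool.Agent.Helper39_SF

/-- gluing homotopies on a direct limit -/
theorem glue {S : ℕ → Type} [∀ m, TopologicalSpace (S m)] {E : Type} [TopologicalSpace E]
    (q : ∀ m, S m → E)
    (hq : ∀ {Y : Type} [TopologicalSpace Y] (f : E → Y),
      Continuous f ↔ ∀ m, Continuous (f ∘ q m))
    (hsurj : ∀ x, ∃ m z, q m z = x) (g : ∀ m, C(S m × I, E))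
    (hg : ∀ m m' (z : S m) (z' : S m') (t : I), q m z = q m' z' → g m (z, t) = g m' (z', t)) :
    ∃ H : C(I × E, E), ∀ t m (z : S m), H (t, q m z) = g m (z, t) := by
  choose cm cz hcz using hsurj
  let F : E → C(I, E) := fun x => (g (cm x)).curry (cz x)
  have hF : ∀ m (z : S m), F (q m z) = (g m).curry z := by
    intro m z
    ext1 t
    exact hg _ _ _ _ t (hcz _)
  have hFc : Continuous F := by
    rw [hq]
    intro m
    have : F ∘ q m = (g m).curry := funext fun z => hF m z
    rw [this]
    exact (g m).curry.continuous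
  let F' : C(E, C(I, E)) := ⟨F, hFc⟩
  have hu := ContinuousMap.continuous_uncurry_of_continuous F'
  refine ⟨⟨fun p => F p.2 p.1, hu.comp continuous_swap⟩, ?_⟩
  intro t m z
  change F (q m z) t = _
  rw [hF]
  rfl

section Ex

variable {V : Type} [NormedAddCommGroup V] [InnerProductSpace ℝ V] [FiniteDimensional ℝ V]
variable {W : Type} [NormedAddCommGroup W] [InnerProductSpace ℝ W] [FiniteDimensional ℝ W]

/-- extension by zero -/
def ex (m : ℕ) (z : RR V W m) : V × (ℕ → W) :=
  (z.fst, fun j => if h : j < m then z.snd ⟨j, h⟩ else 0)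

theorem ex_fst (m : ℕ) (z : RR V W m) : (ex m z).1 = z.fst := rfl

theorem ex_snd (m : ℕ) (z : RR V W m) (j : ℕ) :
    (ex m z).2 j = if h : j < m then z.snd ⟨j, h⟩ else 0 := rfl

theorem ex_inj (m : ℕ) : Function.Injective (ex m : RR V W m → V × (ℕ → W)) := by
  intro z z' h
  apply RR.ext'
  · have h1 := congrArg Prod.fst h
    exact h1
  · intro j
    have := congrFun (congrArg Prod.snd h) j
    rw [ex_snd, ex_snd, dif_pos j.2, dif_pos j.2] at this
    exact this

theorem ex_pad {m m' : ℕ} (h : m ≤ m') (z : RR V W m) : ex m' (padL V W m m' h z) = ex m z := by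
  apply Prod.ext
  · rfl
  · funext j
    rw [ex_snd, ex_snd]
    by_cases hj : j < m
    · rw [dif_pos hj, dif_pos (lt_of_lt_of_le hj h), padL_snd, dif_pos hj]
    · rw [dif_neg hj]
      split_ifs with h'
      · rw [padL_snd, dif_neg hj]
      · rfl

theorem ex_norm {m m' : ℕ} (z : RR V W m) (z' : RR V W m') (h : ex m z = ex m' z') :
    ‖z‖ = ‖z'‖ := by
  rcases le_total m m' with hm | hm
  · have : padL V W m m' hm z = z' := ex_inj m' (by rw [ex_pad, h])
    rw [← this, (padL V W m m' hm).norm_map]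
  · have : padL V W m' m hm z' = z := ex_inj m (by rw [ex_pad, h])
    rw [← this, (padL V W m' m hm).norm_map]

theorem ex_smul (m : ℕ) (c : ℝ) (z : RR V W m) : ex m (c • z) = c • ex m z := by
  apply Prod.ext
  · rfl
  · funext j
    change (ex m (c • z)).2 j = c • (ex m z).2 j
    rw [ex_snd, ex_snd]
    split_ifs
    · rfl
    · simp

theorem ex_add (m : ℕ) (z z' : RR V W m) : ex m (z + z') = ex m z + ex m z' := by
  apply Prod.ext
  · rfl
  · funext j
    change (ex m (z + z')).2 j = (ex m z).2 j + (ex m z').2 j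
    rw [ex_snd, ex_snd, ex_snd]
    split_ifs
    · rfl
    · simp

theorem continuous_ex (m : ℕ) : Continuous (ex m : RR V W m → V × (ℕ → W)) := by
  refine Continuous.prodMk ?_ ?_
  · exact (WithLp.prod_continuous_ofLp 2 V _).fst
  · refine continuous_pi fun j => ?_
    by_cases hj : j < m
    · have : (fun z : RR V W m => if h : j < m then z.snd ⟨j, h⟩ else 0) =
          fun z : RR V W m => z.snd ⟨j, hj⟩ := by
        funext z
        rw [dif_pos hj]
      rw [this]
      have h1 : Continuous fun z : RR V W m => z.snd := (WithLp.prod_continuous_ofLp 2 V _).snd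
      exact (PiLp.continuous_apply 2 (fun _ : Fin m => W) ⟨j, hj⟩).comp h1
    · have : (fun z : RR V W m => if h : j < m then z.snd ⟨j, h⟩ else 0) =
          fun z : RR V W m => (0 : W) := by
        funext z
        rw [dif_neg hj]
      rw [this]
      exact continuous_const

end Ex

/-- the infinite sphere -/
structure EE (V W : Type) [NormedAddCommGroup V] [InnerProductSpace ℝ V]
    [NormedAddCommGroup W] [InnerProductSpace ℝ W] where
  pt : V × (ℕ → W)
  mem : ∃ (m : ℕ) (z : RR V W m), ‖z‖ = 1 ∧ ex m z = pt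

section EEsec

variable {V : Type} [NormedAddCommGroup V] [InnerProductSpace ℝ V] [FiniteDimensional ℝ V]
variable {W : Type} [NormedAddCommGroup W] [InnerProductSpace ℝ W] [FiniteDimensional ℝ W]

omit [FiniteDimensional ℝ V] [FiniteDimensional ℝ W] in
theorem EE.ext' {x y : EE V W} (h : x.pt = y.pt) : x = y := by
  cases x; cases y; congr

/-- the finite spheres in the infinite sphere -/
def qq (m : ℕ) (z : sphere (0 : RR V W m) 1) : EE V W :=
  ⟨ex m z, m, z, by simp, rfl⟩

instance : TopologicalSpace (EE V W) :=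
  ⨆ m : ℕ, TopologicalSpace.coinduced (qq (V := V) (W := W) m) inferInstance

theorem continuous_qq (m : ℕ) : Continuous (qq (V := V) (W := W) m) := by
  rw [continuous_iff_coinduced_le]
  exact le_iSup (fun m : ℕ => TopologicalSpace.coinduced (qq (V := V) (W := W) m) inferInstance) m

theorem EE.continuous_dom {Y : Type*} [TopologicalSpace Y] {f : EE V W → Y} :
    Continuous f ↔ ∀ m, Continuous (f ∘ qq m) := by
  constructor
  · intro h m
    exact h.comp (continuous_qq m)
  · intro h
    rw [continuous_iff_coinduced_le]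
    change TopologicalSpace.coinduced f (⨆ m : ℕ, _) ≤ _
    rw [coinduced_iSup]
    refine iSup_le fun m => ?_
    rw [coinduced_compose, ← continuous_iff_coinduced_le]
    exact h m

theorem EE.ex_rep (x : EE V W) : ∃ m, ∃ z, qq m z = x := by
  obtain ⟨p, m, z, hz, rfl⟩ := x
  exact ⟨m, ⟨z, by simpa using hz⟩, rfl⟩

theorem EE.ex_rep_ge (x : EE V W) (k : ℕ) : ∃ m, k ≤ m ∧ ∃ z, qq m z = x := by
  obtain ⟨m, z, rfl⟩ := x.ex_rep
  refine ⟨max k m, le_max_left _ _, ⟨padL V W m (max k m) (le_max_right _ _) z, by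
    simp⟩, ?_⟩
  apply EE.ext'
  exact ex_pad _ _

theorem EE.isOpen_iff (U : Set (EE V W)) : IsOpen U ↔ ∀ m, IsOpen (qq m ⁻¹' U) := by
  change IsOpen[⨆ m : ℕ, _] U ↔ _
  rw [isOpen_iSup_iff]
  rfl

instance : T2Space (EE V W) := by
  apply T2Space.of_injective_continuous (f := fun x : EE V W => x.pt)
  · intro x y h
    exact EE.ext' h
  · rw [EE.continuous_dom]
    intro m
    exact (continuous_ex m).comp continuous_subtype_val

/-- normalisation -/
noncomputable def nml {m : ℕ} (z : RR V W m) (h : z ≠ 0) : sphere (0 : RR V W m) 1 :=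
  ⟨‖z‖⁻¹ • z, by
    have : ‖z‖ ≠ 0 := norm_ne_zero_iff.2 h
    rw [mem_sphere_zero_iff_norm, norm_smul, norm_inv, norm_norm, inv_mul_cancel₀ this]⟩

omit [FiniteDimensional ℝ V] [FiniteDimensional ℝ W] in
theorem nrm' {m : ℕ} (z : sphere (0 : RR V W m) 1) : ‖(z : RR V W m)‖ = 1 := by simp

omit [FiniteDimensional ℝ V] [FiniteDimensional ℝ W] in
theorem cont_nml {m m' : ℕ} {L : I → RR V W m → RR V W m'}
    (hc : Continuous fun p : RR V W m × I => L p.2 p.1)
    (h0 : ∀ t z, ‖z‖ = 1 → L t z ≠ 0) :
    Continuous fun p : sphere (0 : RR V W m) 1 × I =>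
      ‖L p.2 (p.1 : RR V W m)‖⁻¹ • L p.2 (p.1 : RR V W m) := by
  have h1 : Continuous fun p : sphere (0 : RR V W m) 1 × I => L p.2 (p.1 : RR V W m) :=
    hc.comp ((continuous_subtype_val.comp continuous_fst).prodMk continuous_snd)
  have h2 : Continuous fun p : sphere (0 : RR V W m) 1 × I => ‖L p.2 (p.1 : RR V W m)‖⁻¹ :=
    h1.norm.inv₀ (fun p => norm_ne_zero_iff.2 (h0 p.2 p.1 (nrm' p.1)))
  exact h2.smul h1

theorem qq_nml {m m' : ℕ} (z : RR V W m) (h : z ≠ 0) (z' : RR V W m') (h' : z' ≠ 0)
    (he : ex m z = ex m' z') : qq m (nml z h) = qq m' (nml z' h') := by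
  apply EE.ext'
  change ex m (‖z‖⁻¹ • z) = ex m' (‖z'‖⁻¹ • z')
  rw [ex_smul, ex_smul, ex_norm z z' he, he]

/-- homotopies defined on the finite spheres -/
theorem homotopy_lemma (L : ∀ m : ℕ, I → RR V W m → RR V W (m + 1))
    (Λ : I → V × (ℕ → W) → V × (ℕ → W))
    (hL : ∀ m t z, ex (m + 1) (L m t z) = Λ t (ex m z))
    (h0 : ∀ m t z, ‖z‖ = 1 → L m t z ≠ 0)
    (hc : ∀ m, Continuous fun p : RR V W m × I => L m p.2 p.1) :
    ∃ H : C(I × EE V W, EE V W), ∀ t m (z : sphere (0 : RR V W m) 1),
      H (t, qq m z) = qq (m + 1) (nml (L m t z) (h0 m t z (nrm' z))) := by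
  have hcont : ∀ m, Continuous fun p : sphere (0 : RR V W m) 1 × I =>
      qq (m + 1) (nml (L m p.2 p.1) (h0 m p.2 p.1 (nrm' p.1))) := by
    intro m
    apply (continuous_qq (m + 1)).comp
    apply Continuous.subtype_mk
    exact cont_nml (hc m) (h0 m)
  apply glue (fun m => qq (V := V) (W := W) m) (fun f => EE.continuous_dom) EE.ex_rep
    (fun m => ⟨_, hcont m⟩)
  intro m m' z z' t h
  apply qq_nml
  rw [hL, hL]
  congr 1
  exact congrArg EE.pt h

/-- the shift on finite levels -/
noncomputable def shf (m : ℕ) (z : RR V W m) : RR V W (m + 1) :=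
  WithLp.toLp 2 (z.fst, WithLp.toLp 2 (Fin.cons (0 : W) (fun i : Fin m => z.snd i) :
    Fin (m + 1) → W))

theorem shf_fst (m : ℕ) (z : RR V W m) : (shf m z).fst = z.fst := rfl

theorem shf_zero (m : ℕ) (z : RR V W m) : (shf m z).snd 0 = 0 := rfl

theorem shf_succ (m : ℕ) (z : RR V W m) (i : Fin m) : (shf m z).snd i.succ = z.snd i := by
  change (Fin.cons (0 : W) (fun i : Fin m => z.snd i) : Fin (m + 1) → W) i.succ = z.snd i
  rw [Fin.cons_succ]

/-- the shift on the infinite level -/
def Shf (p : V × (ℕ → W)) : V × (ℕ → W) :=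
  (p.1, fun j => Nat.casesOn j 0 (fun i => p.2 i))

theorem ex_shf (m : ℕ) (z : RR V W m) : ex (m + 1) (shf m z) = Shf (ex m z) := by
  apply Prod.ext
  · rfl
  · funext j
    cases j with
    | zero =>
      rw [ex_snd, dif_pos (Nat.succ_pos m)]
      exact shf_zero m z
    | succ i =>
      rw [ex_snd]
      change _ = (ex m z).2 i
      rw [ex_snd]
      by_cases hi : i < m
      · rw [dif_pos (Nat.succ_lt_succ hi), dif_pos hi]
        exact shf_succ m z ⟨i, hi⟩
      · rw [dif_neg hi, dif_neg (fun h => hi (Nat.lt_of_succ_lt_succ h))]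

theorem continuous_shf (m : ℕ) : Continuous (shf (V := V) (W := W) m) := by
  unfold shf
  apply (WithLp.prod_continuous_toLp 2 V _).comp
  refine Continuous.prodMk ?_ ?_
  · exact (WithLp.prod_continuous_ofLp 2 V _).fst
  · apply (PiLp.continuous_toLp 2 _).comp
    refine continuous_pi fun j => ?_
    refine Fin.cases ?_ (fun i => ?_) j
    · exact continuous_const
    · have h1 : Continuous fun z : RR V W m => z.snd := (WithLp.prod_continuous_ofLp 2 V _).snd
      exact (PiLp.continuous_apply 2 (fun _ : Fin m => W) i).comp h1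

theorem shf_eq_zero (m : ℕ) (z : RR V W m) (h : shf m z = 0) : z = 0 := by
  apply RR.ext'
  · rw [← shf_fst, h]
    rfl
  · intro j
    rw [← shf_succ, h]
    rfl

/-- the vector in the first new block -/
noncomputable def vec (w₀ : W) (m : ℕ) : RR V W (m + 1) :=
  WithLp.toLp 2 (0, WithLp.toLp 2 (Fin.cons w₀ (fun _ => 0) : Fin (m + 1) → W))

theorem ex_vec (w₀ : W) (m : ℕ) : ex (m + 1) (vec (V := V) w₀ m) =
    (0, fun j => Nat.casesOn j w₀ (fun _ => 0)) := by
  apply Prod.ext
  · rfl
  · funext j
    cases j with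
    | zero =>
      rw [ex_snd, dif_pos (Nat.succ_pos m)]
      rfl
    | succ i =>
      rw [ex_snd]
      by_cases hi : i + 1 < m + 1
      · rw [dif_pos hi]
        change (Fin.cons w₀ (fun _ => 0) : Fin (m + 1) → W) ⟨i + 1, hi⟩ = 0
        exact Fin.cons_succ (α := fun _ => W) w₀ (fun _ => 0) ⟨i, Nat.lt_of_succ_lt_succ hi⟩
      · rw [dif_neg hi]

theorem contractible_EE [Nontrivial W] : ContractibleSpace (EE V W) := by
  rw [contractible_iff_id_nullhomotopic]
  obtain ⟨w₀, hw₀⟩ := exists_ne (0 : W)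
  -- first homotopy: the identity to the shift
  have hpad : ∀ m (z : RR V W m), ex (m + 1) (padL V W m (m + 1) (Nat.le_succ m) z) = ex m z :=
    fun m z => ex_pad _ z
  obtain ⟨H₁, hH₁⟩ := homotopy_lemma (V := V) (W := W)
    (fun m t z => (1 - (t : ℝ)) • padL V W m (m + 1) (Nat.le_succ m) z + (t : ℝ) • shf m z)
    (fun t p => (1 - (t : ℝ)) • p + (t : ℝ) • Shf p)
    (by
      intro m t z
      rw [ex_add, ex_smul, ex_smul, hpad, ex_shf])
    (by
      intro m t z hz h
      have hfst : z.fst = 0 := by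
        have h1 := congrArg (fun y : RR V W (m + 1) => y.fst) h
        change (1 - (t : ℝ)) • z.fst + (t : ℝ) • z.fst = 0 at h1
        rw [← add_smul, sub_add_cancel, one_smul] at h1
        exact h1
      have hz0 : z = 0 := by
        by_cases ht : (1 - (t : ℝ)) = 0
        · apply shf_eq_zero
          have ht' : (t : ℝ) = 1 := by linarith
          rw [ht, ht', zero_smul, one_smul, zero_add] at h
          exact h
        · apply RR.ext' (z' := 0) hfst
          have key : ∀ j : ℕ, (ex m z).2 j = 0 := by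
            have h2 : ∀ j, (1 - (t : ℝ)) • (ex m z).2 j + (t : ℝ) • (Shf (ex m z)).2 j = 0 := by
              intro j
              have h4 : (ex (m + 1) (0 : RR V W (m + 1))).2 j = 0 := by
                rw [ex_snd]
                split_ifs <;> rfl
              rw [← h4, ← h, ex_add, ex_smul, ex_smul, hpad, ex_shf]
              rfl
            intro j
            induction j with
            | zero =>
              have h5 := h2 0
              have h6 : (Shf (ex m z)).2 0 = 0 := rfl
              rw [h6, smul_zero, add_zero] at h5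
              exact (smul_eq_zero.1 h5).resolve_left ht
            | succ i ih =>
              have h5 := h2 (i + 1)
              have h6 : (Shf (ex m z)).2 (i + 1) = (ex m z).2 i := rfl
              rw [h6, ih, smul_zero, add_zero] at h5
              exact (smul_eq_zero.1 h5).resolve_left ht
          intro j
          have := key j
          rw [ex_snd, dif_pos j.2] at this
          exact this
      rw [hz0, norm_zero] at hz
      exact zero_ne_one hz)
    (by
      intro m
      have h1 := (padL V W m (m + 1) (Nat.le_succ m)).continuous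
      have h2 := continuous_shf (V := V) (W := W) m
      fun_prop)
  obtain ⟨H₂, hH₂⟩ := homotopy_lemma (V := V) (W := W)
    (fun m t z => (1 - (t : ℝ)) • shf m z + (t : ℝ) • vec w₀ m)
    (fun t p => (1 - (t : ℝ)) • Shf p +
      (t : ℝ) • ((0, fun j => Nat.casesOn j w₀ (fun _ => 0)) : V × (ℕ → W)))
    (by
      intro m t z
      rw [ex_add, ex_smul, ex_smul, ex_vec, ex_shf])
    (by
      intro m t z hz h
      have h1 := congrArg (fun y : RR V W (m + 1) => y.snd 0) h
      change (1 - (t : ℝ)) • (0 : W) + (t : ℝ) • w₀ = 0 at h1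
      rw [smul_zero, zero_add] at h1
      have ht : (t : ℝ) = 0 := (smul_eq_zero.1 h1).resolve_right hw₀
      rw [ht, zero_smul, add_zero, sub_zero, one_smul] at h
      rw [shf_eq_zero m z h, norm_zero] at hz
      exact zero_ne_one hz)
    (by
      intro m
      have h2 := continuous_shf (V := V) (W := W) m
      fun_prop)
  -- the endpoints
  have hvec : ∀ m, vec (V := V) w₀ m ≠ 0 := by
    intro m h
    have h1 := congrArg (fun y : RR V W (m + 1) => y.snd 0) h
    exact hw₀ h1
  let D : C(EE V W, EE V W) := ⟨fun x => H₁ (1, x), by fun_prop⟩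
  let y₀ : EE V W := qq 1 (nml (vec w₀ 0) (hvec 0))
  refine ⟨y₀, ContinuousMap.Homotopic.trans (g := D) ⟨⟨H₁, ?_, ?_⟩⟩ ⟨⟨H₂, ?_, ?_⟩⟩⟩
  · intro x
    obtain ⟨m, z, rfl⟩ := x.ex_rep
    change H₁ (0, qq m z) = qq m z
    rw [hH₁]
    apply EE.ext'
    change ex (m + 1) (‖_‖⁻¹ • _) = ex m (z : RR V W m)
    have e0 : (1 - ((0 : I) : ℝ)) • padL V W m (m + 1) (Nat.le_succ m) (z : RR V W m) +
        ((0 : I) : ℝ) • shf m (z : RR V W m) = padL V W m (m + 1) (Nat.le_succ m) z := by
      simp
    simp only [e0]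
    rw [(padL V W m (m + 1) (Nat.le_succ m)).norm_map]
    have : ‖(z : RR V W m)‖ = 1 := by simp
    rw [this, inv_one, one_smul, hpad]
  · intro x
    rfl
  · intro x
    obtain ⟨m, z, rfl⟩ := x.ex_rep
    change H₂ (0, qq m z) = H₁ (1, qq m z)
    rw [hH₂, hH₁]
    apply qq_nml
    simp
  · intro x
    obtain ⟨m, z, rfl⟩ := x.ex_rep
    change H₂ (1, qq m z) = y₀
    rw [hH₂]
    apply qq_nml
    have e0 : (1 - ((1 : I) : ℝ)) • shf m (z : RR V W m) + ((1 : I) : ℝ) • vec w₀ m =
        vec w₀ m := by simp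
    rw [e0, ex_vec, ex_vec]

end EEsec

end Pool.Agent.Helper39_SF
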