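import Pool.Agent.Helper39_SF.T_Top
import Pool.Agent.Helper39_SF.P_Dim

/-!
The union of the chain is the quotient of the infinite sphere.
-/

open Module Metric Topology

namespace Pool.Agent.Helper39_SF

section Act

variable {Γ : Type} [Group Γ]
variable {V : Type} [NormedAddCommGroup V] [InnerProductSpace ℝ V] [FiniteDimensional ℝ V]
variable {W : Type} [NormedAddCommGroup W] [InnerProductSpace ℝ W] [FiniteDimensional ℝ W]

theorem ex_rr (ρ : Γ →* (V ≃ₗᵢ[ℝ] V)) (τ : Γ →* (W ≃ₗᵢ[ℝ] W)) (m : ℕ) (g : Γ) (z : RR V W m) :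
    ex m (rr ρ τ m g z) = (ρ g (ex m z).1, fun j => τ g ((ex m z).2 j)) := by
  apply Prod.ext
  · rfl
  · funext j
    change (ex m (rr ρ τ m g z)).2 j = τ g ((ex m z).2 j)
    rw [ex_snd, ex_snd]
    split_ifs
    · rfl
    · simp

/-- the action on the infinite sphere -/
def EE.act (ρ : Γ →* (V ≃ₗᵢ[ℝ] V)) (τ : Γ →* (W ≃ₗᵢ[ℝ] W)) (g : Γ) (x : EE V W) : EE V W :=
  ⟨(ρ g x.pt.1, fun j => τ g (x.pt.2 j)), by
    obtain ⟨p, m, z, hz, rfl⟩ := x
    exact ⟨m, rr ρ τ m g z, by rw [LinearIsometryEquiv.norm_map, hz], ex_rr ρ τ m g z⟩⟩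

theorem EE.act_qq (ρ : Γ →* (V ≃ₗᵢ[ℝ] V)) (τ : Γ →* (W ≃ₗᵢ[ℝ] W)) (g : Γ) (m : ℕ)
    (z : sphere (0 : RR V W m) 1) :
    EE.act ρ τ g (qq m z) = qq m (smap (rr ρ τ m g).toLinearIsometry z) := by
  apply EE.ext'
  exact (ex_rr ρ τ m g z).symm

/-- the action as a structure -/
@[reducible] def EE.mulAction (ρ : Γ →* (V ≃ₗᵢ[ℝ] V)) (τ : Γ →* (W ≃ₗᵢ[ℝ] W)) :
    MulAction Γ (EE V W) where
  smul := EE.act ρ τ
  one_smul x := by
    apply EE.ext'
    apply Prod.ext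
    · exact rho_one ρ _
    · funext j
      exact rho_one τ _
  mul_smul a b x := by
    apply EE.ext'
    apply Prod.ext
    · exact rho_mul ρ a b _
    · funext j
      exact rho_mul τ a b _

theorem EE.continuous_act (ρ : Γ →* (V ≃ₗᵢ[ℝ] V)) (τ : Γ →* (W ≃ₗᵢ[ℝ] W)) (g : Γ) :
    Continuous (EE.act ρ τ g) := by
  rw [EE.continuous_dom]
  intro m
  have : EE.act ρ τ g ∘ qq m = fun z => qq m (smap (rr ρ τ m g).toLinearIsometry z) := by
    funext z
    exact EE.act_qq ρ τ g m z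
  rw [this]
  apply (continuous_qq m).comp
  apply Continuous.subtype_mk
  exact (rr ρ τ m g).continuous.comp continuous_subtype_val

theorem EE.free_act {ρ : Γ →* (V ≃ₗᵢ[ℝ] V)} {τ : Γ →* (W ≃ₗᵢ[ℝ] W)}
    (h2 : ∀ (v : V) (w : W), ∃ v' : V, ∀ γ, coef ρ v' γ = coef ρ v γ + coef τ w γ)
    (hfree : Free ρ) (g : Γ) (x : EE V W) (h : EE.act ρ τ g x = x) : g = 1 := by
  obtain ⟨m, z, rfl⟩ := x.ex_rep
  rw [EE.act_qq] at h
  have h1 : ex m (rr ρ τ m g z) = ex m (z : RR V W m) := congrArg EE.pt h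
  have h3 := ex_inj m h1
  exact free_rr h2 hfree m g z (nz z) h3

/-- a free continuous action of a finite group on a Hausdorff space is a covering action -/
theorem covering_of_free {G E : Type} [Group G] [Finite G] [TopologicalSpace E] [T2Space E]
    [MulAction G E] (hc : ∀ g : G, Continuous fun x : E => g • x)
    (hfree : ∀ (g : G) (x : E), g • x = x → g = 1) (x : E) :
    ∃ U : Set E, IsOpen U ∧ x ∈ U ∧ ∀ g : G, g ≠ 1 → ∀ y ∈ U, g • y ∉ U := by
  have h1 : ∀ g : G, ∃ U : Set E, IsOpen U ∧ x ∈ U ∧ (g ≠ 1 → ∀ y ∈ U, g • y ∉ U) := by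
    intro g
    by_cases hg : g = 1
    · exact ⟨Set.univ, isOpen_univ, trivial, fun h => absurd hg h⟩
    · have hne : x ≠ g • x := fun h => hg (hfree g x h.symm)
      obtain ⟨A, B, hA, hB, hxA, hxB, hAB⟩ := t2_separation hne
      refine ⟨A ∩ (fun y => g • y) ⁻¹' B, hA.inter (hB.preimage (hc g)), ⟨hxA, hxB⟩, ?_⟩
      rintro - y ⟨-, hy⟩ ⟨hy', -⟩
      exact Set.disjoint_left.1 hAB hy' hy
  choose U hU1 hU2 hU3 using h1
  refine ⟨⋂ g, U g, isOpen_iInter_of_finite hU1, Set.mem_iInter.2 hU2, ?_⟩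
  intro g hg y hy hy'
  exact hU3 g hg y (Set.mem_iInter.1 hy g) (Set.mem_iInter.1 hy' g)

/-- the union is a classifying space -/
theorem classifying [Finite Γ] [Nontrivial W] {ρ : Γ →* (V ≃ₗᵢ[ℝ] V)} {τ : Γ →* (W ≃ₗᵢ[ℝ] W)}
    (h2 : ∀ (v : V) (w : W), ∃ v' : V, ∀ γ, coef ρ v' γ = coef ρ v γ + coef τ w γ)
    (hfree : Free ρ) :
    IsClassifyingSpace Γ (@Quotient (EE V W) (@MulAction.orbitRel Γ (EE V W) _
      (EE.mulAction ρ τ))) := by
  letI := EE.mulAction ρ τ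
  refine ⟨EE V W, inferInstance, EE.mulAction ρ τ, inferInstance, contractible_EE,
    ⟨?_, ?_⟩, ?_⟩
  · exact EE.continuous_act ρ τ
  · exact covering_of_free (EE.continuous_act ρ τ) (fun g x h => EE.free_act h2 hfree g x h)
  · exact ⟨ContinuousMap.HomotopyEquiv.refl _⟩

theorem sf_quot [Finite Γ] {ρ : Γ →* (V ≃ₗᵢ[ℝ] V)} {M : Type*} [MetricSpace M]
    {π : sphere (0 : V) 1 → M} (h : SF ρ M π) : IsQuotientMap π := by
  have hc : Continuous π := h.lipschitz.continuous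
  exact hc.isClosedMap.isQuotientMap hc h.surj

/-- the union of the quotients -/
theorem union_chain [Finite Γ] {ρ : Γ →* (V ≃ₗᵢ[ℝ] V)} {τ : Γ →* (W ≃ₗᵢ[ℝ] W)}
    (N : ℕ) (hN : 1 ≤ N) (ι : ∀ i, QQ (rr ρ τ (i * N)) → QQ (rr ρ τ ((i + 1) * N)))
    (hι : ∀ i x, ι i (QQ.pr _ x) = QQ.pr _ (smap (padL V W (i * N) ((i + 1) * N)
      (Nat.mul_le_mul_right N (Nat.le_succ i))) x)) :
    ∃ j : ∀ i, QQ (rr ρ τ (i * N)) → (@Quotient (EE V W) (@MulAction.orbitRel Γ (EE V W) _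
      (EE.mulAction ρ τ))), IsUnion (fun i => QQ (rr ρ τ (i * N))) ι _ j := by
  letI := EE.mulAction ρ τ
  let X := Quotient (MulAction.orbitRel Γ (EE V W))
  let mk : EE V W → X := Quotient.mk _
  have hact : ∀ (g : Γ) (m : ℕ) (z : sphere (0 : RR V W m) 1),
      g • qq m z = qq m (smap (rr ρ τ m g).toLinearIsometry z) := EE.act_qq ρ τ
  have hmk : ∀ m (z z' : sphere (0 : RR V W m) 1), mk (qq m z) = mk (qq m z') ↔
      ∃ g, (z : RR V W m) = rr ρ τ m g z' := by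
    intro m z z'
    constructor
    · intro h
      obtain ⟨g, hg⟩ := Quotient.exact h
      refine ⟨g, ?_⟩
      have h1 : g • qq m z' = qq m z := hg
      rw [hact] at h1
      have h2 : ex m (rr ρ τ m g z') = ex m (z : RR V W m) := congrArg EE.pt h1
      exact (ex_inj m h2).symm
    · rintro ⟨g, hg⟩
      apply Quotient.sound
      refine ⟨g, ?_⟩
      change g • qq m z' = qq m z
      rw [hact]
      congr 1
      ext1
      exact hg.symm
  have hsf : ∀ m, SF (rr ρ τ m) (QQ (rr ρ τ m)) (QQ.pr _) := fun m => QQ.sf _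
  let j0 : ∀ m, QQ (rr ρ τ m) → X := fun m x => mk (qq m (Function.surjInv (hsf m).surj x))
  have hj0 : ∀ m z, j0 m (QQ.pr _ z) = mk (qq m z) := by
    intro m z
    rw [hmk]
    exact ((hsf m).eq_iff _ _).1 (Function.surjInv_eq (hsf m).surj _)
  have hqpad : ∀ m m' (h : m ≤ m') (z : sphere (0 : RR V W m) 1),
      qq m' (smap (padL V W m m' h) z) = qq m z := by
    intro m m' h z
    apply EE.ext'
    exact ex_pad h _
  refine ⟨fun i => j0 (i * N), ?_, ?_, ?_, ?_⟩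
  · intro i x
    obtain ⟨z, rfl⟩ := (hsf (i * N)).surj x
    rw [hι, hj0, hj0, hqpad]
  · intro i x y hxy
    obtain ⟨z, rfl⟩ := (hsf (i * N)).surj x
    obtain ⟨z', rfl⟩ := (hsf (i * N)).surj y
    simp only [hj0, hmk] at hxy
    exact ((hsf (i * N)).eq_iff _ _).2 hxy
  · intro p
    induction p using Quotient.inductionOn with | _ x
    obtain ⟨m, z, rfl⟩ := x.ex_rep
    have hm : m ≤ m * N := Nat.le_mul_of_pos_right m hN
    refine ⟨m, QQ.pr _ (smap (padL V W m (m * N) hm) z), ?_⟩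
    change j0 (m * N) _ = mk (qq m z)
    rw [hj0, hqpad]
  · intro U
    have e1 : IsOpen U ↔ IsOpen (mk ⁻¹' U) := Iff.rfl
    rw [e1, EE.isOpen_iff]
    have e2 : ∀ m, (qq m ⁻¹' (mk ⁻¹' U) : Set (sphere (0 : RR V W m) 1)) =
        QQ.pr _ ⁻¹' (j0 m ⁻¹' U) := by
      intro m
      ext z
      change mk (qq m z) ∈ U ↔ j0 m (QQ.pr _ z) ∈ U
      rw [hj0]
    have e3 : ∀ m, IsOpen (QQ.pr (rr ρ τ m) ⁻¹' (j0 m ⁻¹' U)) ↔ IsOpen (j0 m ⁻¹' U) :=
      fun m => (sf_quot (hsf m)).isOpen_preimage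
    constructor
    · intro h i
      rw [← e3, ← e2]
      exact h (i * N)
    · intro h m
      have hm : m ≤ m * N := Nat.le_mul_of_pos_right m hN
      have h1 : IsOpen (qq (m * N) ⁻¹' (mk ⁻¹' U)) := by
        rw [e2, e3]
        exact h m
      have hc : Continuous (smap (padL V W m (m * N) hm)) := by
        apply Continuous.subtype_mk
        exact (padL V W m (m * N) hm).continuous.comp continuous_subtype_val
      have h2 := h1.preimage hc
      have h3 : (smap (padL V W m (m * N) hm)) ⁻¹' (qq (m * N) ⁻¹' (mk ⁻¹' U)) =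
          qq m ⁻¹' (mk ⁻¹' U) := by
        ext z
        change mk (qq (m * N) (smap (padL V W m (m * N) hm) z)) ∈ U ↔ mk (qq m z) ∈ U
        rw [hqpad]
      rw [h3] at h2
      exact h2

end Act

end Pool.Agent.Helper39_SF
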