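import Pool.Agent.Helper39_SF.U_Union

/-!
Assembly of the theorem on spherical space forms.
-/

open Module Metric Topology InnerProductGeometry

namespace Pool.Agent.Helper39_SF

/-- transport to Euclidean space -/
theorem isSpaceForm_of_sf {Γ : Type} [Group Γ] [Finite Γ] {V : Type} [NormedAddCommGroup V]
    [InnerProductSpace ℝ V] [FiniteDimensional ℝ V] {ρ : Γ →* (V ≃ₗᵢ[ℝ] V)} {M : Type*}
    [MetricSpace M] {π : sphere (0 : V) 1 → M} (h : SF ρ M π) (hfree : Free ρ) (d : ℕ)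
    (hd : finrank ℝ V = d + 1) : IsSphericalSpaceForm d M := by
  let e : V ≃ₗᵢ[ℝ] EuclideanSpace ℝ (Fin (d + 1)) :=
    ((stdOrthonormalBasis ℝ V).reindex (finCongr hd)).repr
  let c : Γ →* (EuclideanSpace ℝ (Fin (d + 1)) ≃ₗᵢ[ℝ] EuclideanSpace ℝ (Fin (d + 1))) :=
    { toFun := fun γ => (e.symm.trans (ρ γ)).trans e
      map_one' := by
        apply LinearIsometryEquiv.ext
        intro x
        change e (ρ 1 (e.symm x)) = x
        rw [rho_one, e.apply_symm_apply]
      map_mul' := by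
        intro a b
        apply LinearIsometryEquiv.ext
        intro x
        change e (ρ (a * b) (e.symm x)) = e (ρ a (e.symm (e (ρ b (e.symm x)))))
        rw [rho_mul, e.symm_apply_apply] }
  have hc : ∀ γ x, c γ x = e (ρ γ (e.symm x)) := fun γ x => rfl
  refine ⟨c.range, fun x => π (smap e.symm.toLinearIsometry x), ?_, ?_, ⟨?_, ?_⟩, ?_⟩
  · exact Set.finite_range c
  · rintro g ⟨γ, rfl⟩ x hx hfix
    have h1 : e.symm x ≠ 0 := by
      intro h0
      have : ‖e.symm x‖ = 1 := by rw [e.symm.norm_map, hx]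
      rw [h0, norm_zero] at this
      exact zero_ne_one this
    have h2 : ρ γ (e.symm x) = e.symm x := by
      rw [hc] at hfix
      rw [LinearIsometryEquiv.eq_symm_apply, hfix]
    rw [hfree γ _ h1 h2, map_one]
  · intro m
    obtain ⟨y, rfl⟩ := h.surj m
    have h1 : smap e.symm.toLinearIsometry (smap e.toLinearIsometry y) = y := by
      apply Subtype.ext
      exact e.symm_apply_apply _
    refine ⟨smap e.toLinearIsometry y, ?_⟩
    change π (smap e.symm.toLinearIsometry (smap e.toLinearIsometry y)) = π y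
    rw [h1]
  · intro x y
    rw [h.eq_iff]
    constructor
    · rintro ⟨γ, hγ⟩
      refine ⟨c γ⁻¹, ⟨γ⁻¹, rfl⟩, ?_⟩
      have h1 : e.symm (x : EuclideanSpace ℝ (Fin (d + 1))) = ρ γ (e.symm y) := hγ
      rw [hc, h1, rho_inv_apply', e.apply_symm_apply]
    · rintro ⟨g, ⟨γ, rfl⟩, hg⟩
      refine ⟨γ⁻¹, ?_⟩
      change e.symm (x : EuclideanSpace ℝ (Fin (d + 1))) = ρ γ⁻¹ (e.symm y)
      rw [← hg, hc, e.symm_apply_apply, rho_inv_apply']
  · intro x y
    have h1 := h.lst (smap e.symm.toLinearIsometry x) (smap e.symm.toLinearIsometry y)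
    have h2 : {t : ℝ | ∃ g ∈ c.range, t = angle (x : EuclideanSpace ℝ (Fin (d + 1))) (g y)} =
        {t : ℝ | ∃ γ, t = angle (smap e.symm.toLinearIsometry x : V)
          (ρ γ (smap e.symm.toLinearIsometry y))} := by
      have h3 : ∀ γ, angle (x : EuclideanSpace ℝ (Fin (d + 1))) (c γ y) =
          angle (smap e.symm.toLinearIsometry x : V) (ρ γ (smap e.symm.toLinearIsometry y)) := by
        intro γ
        have := e.toLinearIsometry.angle_map (e.symm (x : EuclideanSpace ℝ (Fin (d + 1))))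
          (ρ γ (e.symm y))
        change angle (x : EuclideanSpace ℝ (Fin (d + 1))) (c γ y) =
          angle (e.symm x) (ρ γ (e.symm y))
        rw [← this, hc]
        change _ = angle (e (e.symm x)) (e (ρ γ (e.symm y)))
        rw [e.apply_symm_apply]
      ext t
      constructor
      · rintro ⟨g, ⟨γ, rfl⟩, rfl⟩
        exact ⟨γ, h3 γ⟩
      · rintro ⟨γ, rfl⟩
        exact ⟨c γ, ⟨γ, rfl⟩, (h3 γ).symm⟩
    rw [h2]
    exact h1

theorem main_theorem (k n : ℕ) (hn : 1 ≤ n) (hk : 2 * k ≤ n) (M : Type) [MetricSpace M]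
    (hM : IsSphericalSpaceForm n M) (hc : CohomogeneityLe n k M) :
    ∃ h : ℕ, 1 ≤ h ∧ HasChain n h M := by
  obtain ⟨G, π, hG, hfr, ⟨hsurj, -⟩, hdist⟩ := hM
  let V := EuclideanSpace ℝ (Fin (n + 1))
  let ρ : G →* (V ≃ₗᵢ[ℝ] V) := G.subtype
  have hfV : finrank ℝ V = n + 1 := by simp [V]
  have hV : 2 ≤ finrank ℝ V := by rw [hfV]; omega
  have hsf : SF ρ M π := by
    refine ⟨hsurj, fun x y => ?_⟩
    have h1 := hdist x y
    have h2 : {t : ℝ | ∃ g ∈ G, t = angle (x : V) (g y)} =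
        {t : ℝ | ∃ γ : G, t = angle (x : V) (ρ γ y)} := by
      ext t
      constructor
      · rintro ⟨g, hg, rfl⟩
        exact ⟨⟨g, hg⟩, rfl⟩
      · rintro ⟨g, rfl⟩
        exact ⟨g.1, g.2, rfl⟩
    rw [← h2]
    exact h1
  have hfree : Free ρ := by
    intro γ v hv hfix
    have hpos : 0 < ‖v‖ := norm_pos_iff.2 hv
    apply Subtype.ext
    apply hfr γ.1 γ.2 (‖v‖⁻¹ • v)
    · rw [norm_smul, norm_inv, norm_norm, inv_mul_cancel₀ hpos.ne']
    · rw [map_smul]
      congr 1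
  -- the dimension of the skew commutant
  have hsd : n ≤ sd ρ + k := by
    obtain ⟨p, hp⟩ := hc
    have h1 := dim_orbit hV hfree hsf p
    have h2 : (n : ENNReal) ≤ (sd ρ : ENNReal) + k := hp.trans (add_le_add_left h1 _)
    exact_mod_cast h2
  obtain ⟨S, _, _, _, σ, hσ, hS⟩ := exists_big ρ (by omega) (by rw [hfV]; omega)
  obtain ⟨W, _, _, _, τ, hW, h2, h3⟩ := exists_W ρ hσ hS
  let N : ℕ := (n + 1) * (n + 1) + 1
  have hN : 1 ≤ N := Nat.le_add_left 1 _
  have hsfm : ∀ m, SF (rr ρ τ m) (QQ (rr ρ τ m)) (QQ.pr _) := fun m => QQ.sf _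
  have hfreem : ∀ m, Free (rr ρ τ m) := fun m => free_rr h2 hfree m
  have hι : ∀ i, ∃ ι : QQ (rr ρ τ (i * N)) → QQ (rr ρ τ ((i + 1) * N)), Isometry ι ∧
      ∀ x, ι (QQ.pr _ x) = QQ.pr _ (smap (padL V W (i * N) ((i + 1) * N)
        (Nat.mul_le_mul_right N (Nat.le_succ i))) x) := by
    intro i
    exact (hsfm (i * N)).induced (hsfm ((i + 1) * N)) (padL V W (i * N) ((i + 1) * N)
      (Nat.mul_le_mul_right N (Nat.le_succ i))) (MulEquiv.refl G) (padL_rr ρ τ _)
  choose ι hι1 hι2 using hι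
  obtain ⟨j, hj⟩ := union_chain N hN ι hι2
  refine ⟨N * finrank ℝ W, ?_, fun i => QQ (rr ρ τ (i * N)), fun i => inferInstance, ι,
    ?_, ?_, hι1, ⟨_, inferInstance, j, G, inferInstance, hj, hG, classifying h2 hfree⟩, ?_⟩
  · have : 0 < finrank ℝ W := Module.finrank_pos
    exact Nat.mul_pos hN this
  · have hfr0 : finrank ℝ V = finrank ℝ (RR V W (0 * N)) := by
      rw [finrank_RR]
      simp
    let A : V ≃ₗᵢ[ℝ] RR V W (0 * N) := (jj V W (0 * N)).toLinearIsometryEquiv hfr0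
    obtain ⟨φ, -⟩ := hsf.inducedEquiv (hsfm (0 * N)) A (MulEquiv.refl G) (jj_rr ρ τ (0 * N))
    exact ⟨φ.symm⟩
  · intro i
    apply isSpaceForm_of_sf (hsfm (i * N)) (hfreem (i * N))
    rw [finrank_RR, hfV]
    ring
  · intro i
    refine orbit_chain hV hfree h2 h3 (i * N) ?_ hsf (hsfm (i * N))
    rw [hfV]
    rcases Nat.eq_zero_or_pos i with h0 | h0
    · right
      rw [h0, Nat.zero_mul]
    · left
      calc (n + 1) * (n + 1) < N := Nat.lt_succ_self _
        _ ≤ i * N := Nat.le_mul_of_pos_left N h0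

end Pool.Agent.Helper39_SF
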